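import Pool.Agent.H620R2.Gauge2.Trans
import Pool.Agent.H620R2.GaugeR.Seq

/-!
# `P = NP` implies `P = PH`, relative to an oracle
-/

set_option autoImplicit false

namespace Pool.Agent.H9x.RT

open Pool.Agent.NPC Pool.Agent.H622R2 Pool.Agent.H620R2.Gauge

/-- the next verifier -/
def nV (W : List Bool → List Bool) (c : Bool) (z : List Bool) : List Bool :=
  if (unpair z).1.length ≤ (unpair (unpair z).2).1.length then
    (if decide (W (pairBits (unpair (unpair z).2).1 (pairBits (unpair z).1
      (unpair (unpair z).2).2)) = [true]) = c then [true] else []) else []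

theorem isFP_nV {A : Oracle} {W : List Bool → List Bool} (hW : IsFP A W) (c : Bool) :
    IsFP A (nV W c) := by
  have hw : Poly (fun z : List Bool => (unpair z).1) := Poly.fst poly_unpair
  have hx : Poly (fun z : List Bool => (unpair z).2) := Poly.snd poly_unpair
  have hm : Poly (fun z : List Bool => (unpair (unpair z).2).1) := Poly.fst (poly_unpair.comp hx)
  have hy : Poly (fun z : List Bool => (unpair (unpair z).2).2) := Poly.snd (poly_unpair.comp hx)
  have h1 : Poly (fun z : List Bool => pairBits (unpair (unpair z).2).1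
      (pairBits (unpair z).1 (unpair (unpair z).2).2)) :=
    H622R2.poly_pairBits hm (H622R2.poly_pairBits hw hy)
  have h2 := IsFP.comp hW (IsFP.of_poly h1 (A := A))
  refine IsFP.seq (φ := fun t => t.1)
    (ψ := fun t => if (unpair t.1).1.length ≤ (unpair (unpair t.1).2).1.length then
      (if decide (t.2.1 = [true]) = c then [true] else []) else [])
    h2 h2 (Poly.fst Poly.id) ?_
  refine Poly.ite (Poly.decide_le (Poly.length (hw.comp (Poly.fst Poly.id)))
    (Poly.length (hm.comp (Poly.fst Poly.id)))) ?_ (NPC.Poly.const [])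
  exact Poly.ite (Poly.decide_eq (Poly.decide_eq (Poly.fst (Poly.snd Poly.id)) (NPC.Poly.const _))
    (NPC.Poly.const _)) (NPC.Poly.const _) (NPC.Poly.const _)

theorem nV_pair (W : List Bool → List Bool) (c : Bool) (w y : List Bool) (m : ℕ) :
    nV W c (pairBits w (pairBits (List.replicate m true) y)) = [true] ↔
      w.length ≤ m ∧ (W (pairBits (List.replicate m true) (pairBits w y)) = [true] ↔ c = true) := by
  unfold nV
  rw [unpair_pairBits]
  simp only [unpair_pairBits, List.length_replicate]
  split_ifs with h1 h2
  · rw [← h2]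
    simp [h1]
  · simp only [List.nil_eq, reduceCtorEq, false_iff, not_and]
    intro _ h3
    apply h2
    cases c
    · simpa using h3
    · simpa using h3
  · simp [h1]

/-- **`P = NP` implies that quantifiers can be decided.** -/
theorem quant_dec {A : Oracle} (hNP : ∀ L, IsNP A L → IsP A L) {V : List Bool → List Bool}
    (hV : IsFP A V) : ∀ (k : ℕ) (b : Bool), ∃ W : List Bool → List Bool, IsFP A W ∧
      ∀ (m : ℕ) (y : List Bool), Quant m V k b y ↔
        W (pairBits (List.replicate m true) y) = [true]
  | 0, b => by
    refine ⟨fun z => V (unpair z).2, hV.precomp (Poly.snd poly_unpair), fun m y => ?_⟩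
    simp only [unpair_pairBits]
    cases b <;> rfl
  | k + 1, b => by
    obtain ⟨W, hW, h⟩ := quant_dec hNP hV k (!b)
    have h1 := hNP {y | ∃ w : List Bool, w.length ≤ (Polynomial.X : Polynomial ℕ).eval y.length ∧
      nV W b (pairBits w y) = [true]} ⟨nV W b, Polynomial.X, isFP_nV hW b, fun y => Iff.rfl⟩
    have h2 : ∀ (m : ℕ) (y : List Bool), pairBits (List.replicate m true) y ∈
        {y | ∃ w : List Bool, w.length ≤ (Polynomial.X : Polynomial ℕ).eval y.length ∧
          nV W b (pairBits w y) = [true]} ↔
        ∃ w : List Bool, w.length ≤ m ∧ (Quant m V k (!b) (pairBits w y) ↔ b = true) := by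
      intro m y
      constructor
      · rintro ⟨w, _, hw⟩
        rw [nV_pair] at hw
        refine ⟨w, hw.1, ?_⟩
        rw [← hw.2]
        exact h m _
      · rintro ⟨w, hw, hw'⟩
        refine ⟨w, ?_, ?_⟩
        · rw [Polynomial.eval_X, length_pairBits, List.length_replicate]
          omega
        · rw [nV_pair]
          refine ⟨hw, ?_⟩
          rw [← hw']
          exact (h m _).symm
    cases b with
    | true =>
      obtain ⟨W', hW', h3⟩ := h1
      refine ⟨W', hW', fun m y => ?_⟩
      rw [← h3, h2]
      simp only [iff_true]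
      rfl
    | false =>
      obtain ⟨W', hW', h3⟩ := h1.compl
      refine ⟨W', hW', fun m y => ?_⟩
      rw [← h3, Set.mem_compl_iff, h2]
      simp only [Bool.false_eq_true, iff_false]
      push Not
      rfl

/-- **`P = NP` implies `P = PH`.** -/
theorem isP_of_isPH {A : Oracle} (hNP : ∀ L, IsNP A L → IsP A L) {L : Set (List Bool)}
    (hL : IsPH A L) : IsP A L := by
  obtain ⟨V, p, k, hV, hx⟩ := hL
  obtain ⟨W, hW, h⟩ := quant_dec hNP hV k true
  refine ⟨fun x => W (pairBits (List.replicate (p.eval x.length) true) x), ?_, fun x => ?_⟩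
  · refine hW.precomp (H622R2.poly_pairBits ?_ Poly.id)
    exact (NPC.Poly.map ((UPoly.length Poly.id).eval p) (F := fun _ _ => true)
      (NPC.Poly.const true)).congr fun a => by simp
  · rw [hx, h]

end Pool.Agent.H9x.RT
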