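import Pool.Agent.H9x.RT.Acc

/-!
# The Hadamard matrix; bounds for the acceptance probability
-/

set_option autoImplicit false
set_option linter.unusedSectionVars false

namespace Pool.Agent.H9x.RT

open Finset Pool.Agent.H9x.Q Pool.Agent.H620R2.Gauge

/-- a character value -/
def chi (x y : Bool) : ℝ := if x && y then -1 else 1

/-- the normalised Hadamard matrix -/
noncomputable def Hm (l : ℕ) (x y : Fin l → Bool) : ℝ :=
  (∏ i, chi (x i) (y i)) / Real.sqrt 2 ^ l

theorem sqrt2_pos : 0 < Real.sqrt 2 := Real.sqrt_pos.2 (by norm_num)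

theorem sqrt2_sq : Real.sqrt 2 * Real.sqrt 2 = 2 := Real.mul_self_sqrt (by norm_num)

theorem abs_chi (x y : Bool) : |chi x y| = 1 := by
  unfold chi
  split_ifs <;> norm_num

theorem orth_Hm (l : ℕ) : Orth (Hm l) (1 / Real.sqrt 2 ^ l) where
  sym x y := by
    unfold Hm
    congr 1
    exact prod_congr rfl fun i _ => by unfold chi; rw [Bool.and_comm]
  orth x y := by
    unfold Hm
    have h1 : ∀ z : Fin l → Bool, (∏ i, chi (x i) (z i)) / Real.sqrt 2 ^ l *
        ((∏ i, chi (y i) (z i)) / Real.sqrt 2 ^ l) =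
        ∏ i, (chi (x i) (z i) * chi (y i) (z i) / 2) := by
      intro z
      rw [prod_div_distrib, prod_mul_distrib, prod_const, card_univ, Fintype.card_fin,
        div_mul_div_comm, ← mul_pow, sqrt2_sq]
    rw [sum_congr rfl fun z _ => h1 z, sum_prod (fun i b => chi (x i) b * chi (y i) b / 2)]
    have h2 : ∀ i, ∑ b, chi (x i) b * chi (y i) b / 2 = if x i = y i then 1 else 0 := by
      intro i
      rw [Fintype.sum_bool]
      cases x i <;> cases y i <;> norm_num [chi]
    rw [prod_congr rfl fun i _ => h2 i, Fintype.prod_ite_zero]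
    simp only [prod_const_one]
    congr 1
    exact propext ⟨fun h => funext h, fun h i => congrFun h i⟩
  le x y := by
    unfold Hm
    rw [abs_div, abs_prod, abs_of_pos (pow_pos sqrt2_pos l)]
    simp [abs_chi]
  one := by
    rw [div_le_one (pow_pos sqrt2_pos l)]
    exact one_le_pow₀ (Real.one_le_sqrt.2 (by norm_num))

/-- the two functions together -/
def two {l : ℕ} (f g : (Fin l → Bool) → Bool) : (Fin l → Bool) ⊕ (Fin l → Bool) → Bool :=
  Sum.elim f g

theorem beta_zero (l : ℕ) (f g : (Fin l → Bool) → Bool) :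
    beta l f g (fun _ => false) = (Fo (Hm l) (two f g) : ℂ) := by
  have hs : s2 ≠ 0 := s2_ne
  have h0 : ∀ v : Fin l → Bool, wal (fun v : Fin l → Bool =>
      if v = fun _ => false then (1 : ℂ) else 0) v = 1 / s2 ^ l := by
    intro v
    show ∑ w : Fin l → Bool, (if w = fun _ => false then (1 : ℂ) else 0) * ∏ t, hk (v t) (w t) = _
    rw [sum_eq_single (fun _ => false)]
    · rw [if_pos rfl, one_mul]
      have : ∀ t : Fin l, hk (v t) false = 1 / s2 := fun t => by simp [hk]
      rw [prod_congr rfl fun t _ => this t]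
      simp
    · intro w _ hw
      rw [if_neg hw, zero_mul]
    · intro h
      exact absurd (mem_univ _) h
  have h1 : ∀ v w : Fin l → Bool, ∏ t, hk (v t) (w t) = ((∏ t, chi (v t) (w t) : ℝ) : ℂ) / s2 ^ l := by
    intro v w
    have : ∀ t : Fin l, hk (v t) (w t) = ((chi (v t) (w t) : ℝ) : ℂ) / s2 := by
      intro t
      unfold hk chi
      split_ifs <;> simp
    rw [prod_congr rfl fun t _ => this t, prod_div_distrib]
    simp
  have h2 : ∀ b : Bool, sgc b = ((sg b : ℝ) : ℂ) := by
    intro b
    cases b <;> simp [sgc, sg]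
  unfold beta
  have h3 : ∀ v, wal (fun v => sgc (f v) * wal (fun v : Fin l → Bool =>
      if v = fun _ => false then (1 : ℂ) else 0) v) v =
      (((∑ w, sg (f w) * ∏ t, chi (v t) (w t)) / (Real.sqrt 2 ^ l * Real.sqrt 2 ^ l) : ℝ) : ℂ) := by
    intro v
    show ∑ w : Fin l → Bool, (sgc (f w) * wal (fun v : Fin l → Bool =>
      if v = fun _ => false then (1 : ℂ) else 0) w) * ∏ t, hk (v t) (w t) = _
    rw [sum_div, Complex.ofReal_sum]
    refine sum_congr rfl fun w _ => ?_
    rw [h0 w, h1, h2]
    push_cast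
    unfold s2
    field_simp
  have h4 : wal (fun v => sgc (g v) * wal (fun v => sgc (f v) * wal (fun v : Fin l → Bool =>
      if v = fun _ => false then (1 : ℂ) else 0) v) v) (fun _ => false) =
      (((∑ v, sg (g v) * ∑ w, sg (f w) * ∏ t, chi (v t) (w t)) /
        (Real.sqrt 2 ^ l * Real.sqrt 2 ^ l * Real.sqrt 2 ^ l) : ℝ) : ℂ) := by
    show ∑ v : Fin l → Bool, (sgc (g v) * wal (fun v => sgc (f v) * wal (fun v : Fin l → Bool =>
      if v = fun _ => false then (1 : ℂ) else 0) v) v) * ∏ t, hk false (v t) = _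
    rw [sum_div, Complex.ofReal_sum]
    refine sum_congr rfl fun v _ => ?_
    rw [h3, h1, h2]
    have : ∏ t : Fin l, chi false (v t) = 1 := prod_eq_one fun t _ => by simp [chi]
    rw [this]
    push_cast
    unfold s2
    field_simp
  rw [h4]
  congr 1
  unfold Fo Hm two
  simp only [Sum.elim_inl, Sum.elim_inr]
  have hc : (Fintype.card (Fin l → Bool) : ℝ) = Real.sqrt 2 ^ l * Real.sqrt 2 ^ l := by
    rw [← mul_pow, sqrt2_sq]
    simp
  rw [hc]
  rw [sum_comm]
  have h5 : ∑ y : Fin l → Bool, ∑ x, (∏ i, chi (x i) (y i)) / Real.sqrt 2 ^ l *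
      (sg (f x) * sg (g y)) = (∑ v, sg (g v) * ∑ w, sg (f w) * ∏ t, chi (v t) (w t)) /
        Real.sqrt 2 ^ l := by
    rw [sum_div]
    refine sum_congr rfl fun y _ => ?_
    rw [mul_sum, sum_div]
    refine sum_congr rfl fun x _ => ?_
    have : ∏ i, chi (x i) (y i) = ∏ i, chi (y i) (x i) :=
      prod_congr rfl fun i _ => by unfold chi; rw [Bool.and_comm]
    rw [this]
    ring
  rw [h5, div_div]
  congr 1
  ring

/-- the total probability -/
theorem sum_beta (l : ℕ) (f g : (Fin l → Bool) → Bool) : ∑ v, ‖beta l f g v‖ ^ 2 = 1 := by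
  -- one copy, an oracle with these values
  have hA : ∃ A : Oracle, (∀ v : Fin l → Bool, A (false :: List.ofFn v) = f v) ∧
      (∀ v : Fin l → Bool, A (true :: List.ofFn v) = g v) := by
    refine ⟨fun q => match q with
      | [] => false
      | b :: y => if b then g (fun i => y.getD i false) else f (fun i => y.getD i false), ?_, ?_⟩
    · intro v
      simp only [Bool.false_eq_true, if_false]
      congr 1
      funext i
      rw [List.getD_eq_getElem _ _ (by simp)]
      simp
    · intro v
      simp only [if_true]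
      congr 1
      funext i
      rw [List.getD_eq_getElem _ _ (by simp)]
      simp
  obtain ⟨A, h1, h2⟩ := hA
  have h3 : run A (prep 0 ++ (hl 0 (1 * l) ++ (pq 0 [] false l 1 ++ (hl 0 (1 * l) ++
      (pq 0 [] true l 1 ++ hl 0 (1 * l)))))) (ket (inp (0 + 5 + 1 * l) [])) =
      Psi 0 (1 * l) [] fun u => ∏ j : Fin 1, beta l f g (cpy u j) := by
    have hd : (fun u : Fin (1 * l) → Bool => if u = fun _ => false then (1 : ℂ) else 0) =
      fun u => ∏ j : Fin 1, (fun v : Fin l → Bool => if v = fun _ => false then (1 : ℂ) else 0)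
        (cpy u j) := by
      funext u
      simp only
      rw [Fintype.prod_ite_zero]
      simp only [prod_const_one]
      congr 1
      refine propext ⟨fun h j => ?_, fun h => ?_⟩
      · rw [h]; rfl
      · funext t
        have := congrFun (h (finProdFinEquiv.symm t).1) (finProdFinEquiv.symm t).2
        unfold cpy at this
        rwa [Prod.mk.eta, Equiv.apply_symm_apply] at this
    rw [run_append, run_append, run_append, run_append, run_append,
      run_prep (x := []) (n := 0) rfl rfl, hd, run_hl le_rfl,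
      wal_cpy (fun v : Fin l → Bool => if v = fun _ => false then (1 : ℂ) else 0),
      run_pq (x := []) (n := 0) rfl le_rfl]
    simp only [← prod_mul_distrib, List.nil_append, h1]
    rw [run_hl le_rfl, wal_cpy (fun v => sgc (f v) *
      wal (fun v => if v = fun _ => false then 1 else 0) v), run_pq (x := []) (n := 0) rfl le_rfl]
    simp only [← prod_mul_distrib, List.nil_append, h2]
    rw [run_hl le_rfl, wal_cpy (fun v => sgc (g v) * wal (fun v => sgc (f v) *
      wal (fun v => if v = fun _ => false then 1 else 0) v) v)]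
    rfl
  have h4 := nrm_run A (prep 0 ++ (hl 0 (1 * l) ++ (pq 0 [] false l 1 ++ (hl 0 (1 * l) ++
      (pq 0 [] true l 1 ++ hl 0 (1 * l)))))) (ket (inp (0 + 5 + 1 * l) []))
  rw [h3] at h4
  have h5 := congrArg (fun t => t ^ 2) h4
  simp only [Pool.Agent.R562.QH.nrm_sq] at h5
  rw [ket_norm] at h5
  have h6 := sum_Psi (m := 0 + 5 + 1 * l) rfl [] (fun u : Fin (1 * l) → Bool =>
    ∏ j : Fin 1, beta l f g (cpy u j)) (fun _ => true)
  simp only [if_true] at h6
  rw [h6] at h5
  have h7 : ∀ u : Fin (1 * l) → Bool, ‖∏ j : Fin 1, beta l f g (cpy u j)‖ ^ 2 =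
      ∏ j : Fin 1, (fun (_ : Fin 1) v => ‖beta l f g v‖ ^ 2) j (cpy u j) := by
    intro u
    simp
  rw [sum_congr rfl fun u _ => h7 u, sum_cpy (fun (_ : Fin 1) v => ‖beta l f g v‖ ^ 2)] at h5
  simpa using h5

/-- the acceptance probability in terms of the forrelation -/
theorem prob_eq {n k l : ℕ} {x : List Bool} (hx : x.length = n) (A : Oracle)
    (pre ppre : List Bool) (hA : ∀ u : Fin (k * l) → Bool, A (ppre ++ List.ofFn u) = true ↔
      ∃ j, cpy u j = fun _ => false) :
    prob A (circ n pre ppre l k) (n + 5 + k * l) x =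
      1 - (1 - Fo (Hm l) (two (fun v => A (pre ++ (x ++ (false :: List.ofFn v))))
          (fun v => A (pre ++ (x ++ (true :: List.ofFn v))))) ^ 2) ^ k := by
  set f : (Fin l → Bool) → Bool := fun v => A (pre ++ (x ++ (false :: List.ofFn v)))
  set g : (Fin l → Bool) → Bool := fun v => A (pre ++ (x ++ (true :: List.ofFn v)))
  rw [prob_circ hx]
  have h1 : ∀ u : Fin (k * l) → Bool, (if A (ppre ++ List.ofFn u) = true then
      ‖∏ j : Fin k, beta l f g (cpy u j)‖ ^ 2 else 0) =
      ∏ j : Fin k, ‖beta l f g (cpy u j)‖ ^ 2 -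
        ∏ j : Fin k, (fun (_ : Fin k) v => if v = fun _ => false then 0 else
          ‖beta l f g v‖ ^ 2) j (cpy u j) := by
    intro u
    rw [norm_prod, ← prod_pow]
    by_cases h : A (ppre ++ List.ofFn u) = true
    · rw [if_pos h]
      obtain ⟨j, hj⟩ := (hA u).1 h
      have : ∏ j : Fin k, (fun (_ : Fin k) v => if v = fun _ => false then 0 else
          ‖beta l f g v‖ ^ 2) j (cpy u j) = 0 := prod_eq_zero (mem_univ j) (by simp [hj])
      rw [this, sub_zero]
    · rw [if_neg h]
      have h2 : ∀ j, cpy u j ≠ fun _ => false := fun j hj => h ((hA u).2 ⟨j, hj⟩)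
      rw [eq_comm, sub_eq_zero]
      refine prod_congr rfl fun j _ => ?_
      simp only [h2 j, if_false]
  rw [sum_congr rfl fun u _ => h1 u, sum_sub_distrib,
    sum_cpy (fun (_ : Fin k) v => if v = fun _ => false then 0 else ‖beta l f g v‖ ^ 2),
    sum_cpy (fun (_ : Fin k) v => ‖beta l f g v‖ ^ 2)]
  have h3 : ∑ v, (if v = fun _ => false then 0 else ‖beta l f g v‖ ^ 2) =
      1 - Fo (Hm l) (two f g) ^ 2 := by
    have h4 : ∀ v, (if v = fun _ => false then 0 else ‖beta l f g v‖ ^ 2) =
        ‖beta l f g v‖ ^ 2 - (if v = fun _ => false then ‖beta l f g v‖ ^ 2 else 0) := by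
      intro v
      split_ifs <;> simp
    rw [sum_congr rfl fun v _ => h4 v, sum_sub_distrib, sum_beta, sum_ite_eq' univ]
    simp only [mem_univ, if_true]
    rw [beta_zero, Complex.norm_real, Real.norm_eq_abs, sq_abs]
  simp only [h3, sum_beta]
  simp

end Pool.Agent.H9x.RT
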