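import Pool.Agent.H9x.RT.Lvl
import Pool.Agent.H9x.V1.Code

/-!
# The second level of an algorithm whose questions are nested disjunctive normal forms
-/

set_option autoImplicit false
set_option linter.unusedSectionVars false

namespace Pool.Agent.H9x.RT

open Finset H568R2 Pool.Agent.H676 Pool.Agent.H620R2.Gauge Pool.Agent.NPC Pool.Agent.H622R2.Exp

variable {I : Type*} [Fintype I] [DecidableEq I]

/-- the strings of length at most `a` -/
def hs (a : ℕ) : Finset (List Bool) :=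
  (range (a + 1)).biUnion fun n => (univ : Finset (Fin n → Bool)).image List.ofFn

theorem mem_hs {a : ℕ} {h : List Bool} (hh : h.length ≤ a) : h ∈ hs a := by
  unfold hs
  rw [mem_biUnion]
  refine ⟨h.length, mem_range.2 (by omega), mem_image.2 ⟨h.get, mem_univ _, ?_⟩⟩
  exact List.ofFn_get h

theorem card_hs (a : ℕ) : (hs a).card ≤ 2 ^ (a + 1) := by
  unfold hs
  refine card_biUnion_le.trans ?_
  have h1 : ∀ n ∈ range (a + 1), ((univ : Finset (Fin n → Bool)).image List.ofFn).card ≤ 2 ^ n := by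
    intro n _
    refine card_image_le.trans ?_
    simp
  refine (sum_le_sum h1).trans ?_
  have h2 : ∑ n ∈ range (a + 1), 2 ^ n = 2 ^ (a + 1) - 1 := by
    have := Nat.geomSum_eq (m := 2) le_rfl (a + 1)
    simpa using this
  have h3 : 1 ≤ 2 ^ (a + 1) := Nat.one_le_two_pow
  omega

/-- the run of an algorithm depends on few coordinates -/
theorem run_cert {k N : ℕ} {G : (I → Bool) → Oracle}
    (hG : ∀ q : List Bool, q.length ≤ N → ∀ z, ∃ A : Finset I, A.card ≤ k ∧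
      ∀ z', (∀ i ∈ A, z' i = z i) → G z' q = G z q) (M : Alg) (y : List Bool) :
    ∀ (n : ℕ) (a : List Bool) (z : I → Bool), ∃ A : Finset I, A.card ≤ n * k ∧
      ∀ z', (∀ i ∈ A, z' i = z i) →
        M.run (CC.cut N (G z')) y n a = M.run (CC.cut N (G z)) y n a
  | 0, a, z => ⟨∅, by simp, fun z' _ => rfl⟩
  | n + 1, a, z => by
    rcases hD : M.D (pairBits y a) with _ | ⟨c, q⟩
    · refine ⟨∅, by simp, fun z' _ => ?_⟩
      simp only [Alg.run, hD]
    · cases c with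
      | true =>
        refine ⟨∅, by simp, fun z' _ => ?_⟩
        simp only [Alg.run, hD]
      | false =>
        have h1 : ∃ A : Finset I, A.card ≤ k ∧ ∀ z', (∀ i ∈ A, z' i = z i) →
            CC.cut N (G z') q = CC.cut N (G z) q := by
          by_cases hq : q.length ≤ N
          · obtain ⟨A, hA, h⟩ := hG q hq z
            refine ⟨A, hA, fun z' hz => ?_⟩
            unfold CC.cut
            rw [if_pos hq, if_pos hq]
            exact h z' hz
          · refine ⟨∅, by simp, fun z' _ => ?_⟩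
            unfold CC.cut
            rw [if_neg hq, if_neg hq]
        obtain ⟨A, hA, hA'⟩ := h1
        obtain ⟨A₂, hA₂, hA₂'⟩ := run_cert hG M y n (a ++ [CC.cut N (G z) q]) z
        refine ⟨A ∪ A₂, (card_union_le _ _).trans ?_, fun z' hz => ?_⟩
        · rw [Nat.succ_mul]
          omega
        · simp only [Alg.run, hD]
          rw [hA' z' fun i hi => hz i (mem_union_left _ hi)]
          exact hA₂' z' fun i hi => hz i (mem_union_right _ hi)

/-- the questions of the family are constants, coordinates or nested questions -/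
structure Adm (m T : ℕ) (F : (I → Bool) → Oracle) : Prop where
  low : ∀ q : List Bool, q.length ≤ m → ∃ c, ∀ z, F z q = c
  cls : ∀ q : List Bool, q.length ≤ T → (∃ c, ∀ z, F z q = c) ∨ (∃ i, ∀ z, F z q = z i) ∨
    ∃ (Y : Set (List Bool)) (M : Alg) (N : ℕ), N ^ 2 ≤ q.length ∧
      (∀ y ∈ Y, M.p.eval y.length ≤ N) ∧
      ∀ z, F z q = true ↔ ∃ y ∈ Y, M.out (CC.cut N (F z)) y = some [true]

theorem Adm.ov {m T : ℕ} {F : (I → Bool) → Oracle} (h : Adm m T F) (ρ : Restr I) :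
    Adm m T (fun z => F (ov ρ z)) where
  low q hq := by
    obtain ⟨c, hc⟩ := h.low q hq
    exact ⟨c, fun z => hc _⟩
  cls q hq := by
    rcases h.cls q hq with ⟨c, hc⟩ | ⟨i, hi⟩ | ⟨Y, M, N, h1, h2, h3⟩
    · exact Or.inl ⟨c, fun z => hc _⟩
    · cases hρ : ρ i with
      | none =>
        refine Or.inr (Or.inl ⟨i, fun z => ?_⟩)
        rw [hi]
        simp [H568R2.ov, hρ]
      | some b =>
        refine Or.inl ⟨b, fun z => ?_⟩
        rw [hi]
        simp [H568R2.ov, hρ]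
    · exact Or.inr (Or.inr ⟨Y, M, N, h1, h2, fun z => h3 _⟩)

/-- all questions of length at most `t` are decision trees -/
def Gd (F : (I → Bool) → Oracle) (k t T : ℕ) (ρ : Restr I) : Prop :=
  ∀ q : List Bool, q.length ≤ t → q.length ≤ T → DTr k (rs (fun z => F z q) ρ)

theorem dtr_coord {k : ℕ} (hk : 1 ≤ k) (i : I) : DTr k (fun z : I → Bool => z i) := by
  refine DTr.mono (k := 1) (Or.inr ⟨i, fun b => ?_⟩) hk
  exact ⟨b, fun z => by simp⟩

open Classical in
/-- a disjunction over inputs of an algorithm -/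
theorem cert_alg {F : (I → Bool) → Oracle} {k t T N : ℕ} {ρ : Restr I} (hg : Gd F k t T ρ)
    (hNt : N ≤ t) (hNT : N ≤ T) {Y : Set (List Bool)} {M : Alg}
    (hY : ∀ y ∈ Y, M.p.eval y.length ≤ N) {f : (I → Bool) → Bool}
    (hf : ∀ z, f z = true ↔ ∃ y ∈ Y, M.out (CC.cut N (F z)) y = some [true]) :
    Cert (T * k) true (rs f ρ) := by
  intro z hz
  obtain ⟨y, hy, hy'⟩ := (hf _).1 hz
  have hG : ∀ q : List Bool, q.length ≤ N → ∀ z, ∃ A : Finset I, A.card ≤ k ∧
      ∀ z', (∀ i ∈ A, z' i = z i) → F (ov ρ z') q = F (ov ρ z) q := by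
    intro q hq z
    obtain ⟨A, hA, h⟩ := (hg q (hq.trans hNt) (hq.trans hNT)).cert (F (ov ρ z) q) z rfl
    exact ⟨A, hA, fun z' hz' => h z' hz'⟩
  obtain ⟨A, hA, h⟩ := run_cert (G := fun z => F (ov ρ z)) hG M y (M.p.eval y.length) [] z
  refine ⟨A, hA.trans (Nat.mul_le_mul_right k ((hY y hy).trans hNT)), fun z' hz' => ?_⟩
  show f (ov ρ z') = true
  rw [hf]
  refine ⟨y, hy, ?_⟩
  rw [← hy']
  exact h z' hz'

open Classical in
/-- one step -/
theorem Adm.step {m T : ℕ} {F : (I → Bool) → Oracle} (hF : Adm m T F) {k : ℕ} (hk : 1 ≤ k)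
    (hT : 1 ≤ T) {q₀ : ℝ} (h0 : 0 ≤ q₀) (h1 : q₀ ≤ 1 / 3) {t : ℕ} {ρ : Restr I}
    (hg : Gd F k t T ρ) :
    Ex (wq q₀) (fun τ : Restr I => if ¬ Gd F k (t ^ 2) T (cmp ρ τ) then (1 : ℝ) else 0) ≤
      2 ^ (T + 1) * (12 * (T * k : ℕ) * q₀) ^ (k + 1) := by
  have hw : ∀ a, 0 ≤ wq q₀ a := wq_nonneg h0 (by linarith)
  have hε0 : (0 : ℝ) ≤ (12 * (T * k : ℕ) * q₀) ^ (k + 1) := by positivity
  have hpt : ∀ τ : Restr I, (if ¬ Gd F k (t ^ 2) T (cmp ρ τ) then (1 : ℝ) else 0) ≤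
      ∑ q ∈ hs T, if (q.length ≤ t ^ 2 ∧ ¬ DTr k (rs (rs (fun z => F z q) ρ) τ)) then (1 : ℝ)
        else 0 := by
    intro τ
    have hnn : ∀ q ∈ hs T, (0 : ℝ) ≤
        (if (q.length ≤ t ^ 2 ∧ ¬ DTr k (rs (rs (fun z => F z q) ρ) τ)) then (1 : ℝ) else 0) := by
      intro q _
      split_ifs <;> norm_num
    by_cases hG : Gd F k (t ^ 2) T (cmp ρ τ)
    · rw [if_neg (not_not.2 hG)]
      exact sum_nonneg hnn
    · rw [if_pos hG]
      unfold Gd at hG
      push Not at hG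
      obtain ⟨q, hq1, hq2, hq3⟩ := hG
      refine le_trans ?_ (single_le_sum hnn (mem_hs hq2))
      rw [rs_cmp] at hq3
      rw [if_pos ⟨hq1, hq3⟩]
  refine (Ex_mono hw hpt).trans ?_
  rw [Ex_sum]
  have hterm : ∀ q ∈ hs T, Ex (wq q₀) (fun τ : Restr I => if (q.length ≤ t ^ 2 ∧
      ¬ DTr k (rs (rs (fun z => F z q) ρ) τ)) then (1 : ℝ) else 0) ≤
      (12 * (T * k : ℕ) * q₀) ^ (k + 1) := by
    intro q hq
    by_cases hqt : q.length ≤ t ^ 2 ∧ q.length ≤ T
    · have key : (∀ τ : Restr I, DTr k (rs (rs (fun z => F z q) ρ) τ)) ∨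
          Cert (T * k) true (rs (fun z => F z q) ρ) := by
        rcases hF.cls q hqt.2 with ⟨c, hc⟩ | ⟨i, hi⟩ | ⟨Y, M, N, h2, h3, h4⟩
        · left
          intro τ
          exact DTr.const ⟨c, fun z => hc _⟩
        · left
          intro τ
          refine DTr.rs (DTr.rs ?_)
          simp only [hi]
          exact dtr_coord hk i
        · right
          refine cert_alg hg ?_ ?_ h3 h4
          · exact le_of_not_gt fun h5 => by
              have := Nat.pow_lt_pow_left h5 (n := 2) (by norm_num)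
              omega
          · have : N ≤ N ^ 2 := Nat.le_self_pow (by norm_num) _
            omega
      rcases key with h2 | h2
      · refine le_trans (le_of_eq ?_) hε0
        have : (fun τ : Restr I => if (q.length ≤ t ^ 2 ∧
            ¬ DTr k (rs (rs (fun z => F z q) ρ) τ)) then (1 : ℝ) else 0) = fun _ => 0 := by
          funext τ
          rw [if_neg]
          rintro ⟨_, h3⟩
          exact h3 (h2 τ)
        rw [this]
        exact Ex_const (wq_sum q₀) 0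
      · refine (Ex_mono hw fun τ => ?_).trans (switch (t := T * k) (k := k)
          (Nat.succ_le_of_lt (Nat.mul_pos hT hk)) h0 h1 h2)
        by_cases h3 : DTr k (rs (rs (fun z => F z q) ρ) τ)
        · rw [if_neg (fun h => h.2 h3), if_neg (not_not.2 h3)]
        · rw [if_pos ⟨hqt.1, h3⟩, if_pos h3]
    · have h5 : ¬ q.length ≤ t ^ 2 ∨ ¬ q.length ≤ T := by tauto
      rcases h5 with h5 | h5
      · refine le_trans (le_of_eq ?_) hε0
        have : (fun τ : Restr I => if (q.length ≤ t ^ 2 ∧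
            ¬ DTr k (rs (rs (fun z => F z q) ρ) τ)) then (1 : ℝ) else 0) = fun _ => 0 := by
          funext τ
          rw [if_neg]
          rintro ⟨h3, _⟩
          exact h5 h3
        rw [this]
        exact Ex_const (wq_sum q₀) 0
      · exfalso
        apply h5
        unfold hs at hq
        rw [mem_biUnion] at hq
        obtain ⟨n, hn, hq⟩ := hq
        obtain ⟨v, _, rfl⟩ := mem_image.1 hq
        rw [List.length_ofFn]
        have := mem_range.1 hn
        omega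
  refine (sum_le_sum hterm).trans ?_
  rw [sum_const, nsmul_eq_mul]
  refine mul_le_mul_of_nonneg_right ?_ hε0
  exact_mod_cast card_hs T

open Classical in
/-- all steps -/
theorem Adm.steps {m T : ℕ} {F : (I → Bool) → Oracle} (hF : Adm m T F) {k : ℕ} (hk : 1 ≤ k)
    (hT : 1 ≤ T) {q₀ : ℝ} (h0 : 0 ≤ q₀) (h1 : q₀ ≤ 1 / 3) : ∀ j : ℕ,
    Ex (wq (q₀ ^ j)) (fun ρ : Restr I => if ¬ Gd F k (m ^ 2 ^ j) T ρ then (1 : ℝ) else 0) ≤
      j * (2 ^ (T + 1) * (12 * (T * k : ℕ) * q₀) ^ (k + 1))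
  | 0 => by
    have : (fun ρ : Restr I => if ¬ Gd F k (m ^ 2 ^ 0) T ρ then (1 : ℝ) else 0) = fun _ => 0 := by
      funext ρ
      rw [if_neg]
      rw [not_not]
      intro q hq _
      rw [pow_zero, pow_one] at hq
      obtain ⟨c, hc⟩ := hF.low q hq
      exact DTr.const ⟨c, fun z => hc _⟩
    rw [this, Ex_const (wq_sum _)]
    simp
  | j + 1 => by
    have ih := Adm.steps hF hk hT h0 h1 j
    set ε : ℝ := 2 ^ (T + 1) * (12 * (T * k : ℕ) * q₀) ^ (k + 1) with hε
    have hε0 : 0 ≤ ε := by positivity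
    rw [pow_succ, wq_cmp]
    have hwj : ∀ a, 0 ≤ wq (q₀ ^ j) a :=
      wq_nonneg (pow_nonneg h0 j) (pow_le_one₀ h0 (by linarith))
    have hin : ∀ ρ : Restr I, Ex (wq q₀) (fun τ : Restr I =>
        if ¬ Gd F k (m ^ 2 ^ (j + 1)) T (cmp ρ τ) then (1 : ℝ) else 0) ≤
        (if ¬ Gd F k (m ^ 2 ^ j) T ρ then (1 : ℝ) else 0) + ε := by
      intro ρ
      by_cases hG : Gd F k (m ^ 2 ^ j) T ρ
      · rw [if_neg (not_not.2 hG), zero_add]
        have h2 := hF.step hk hT h0 h1 hG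
        rw [← pow_mul, ← pow_succ] at h2
        exact h2
      · rw [if_pos hG]
        have h2 : Ex (wq q₀) (fun τ : Restr I =>
            if ¬ Gd F k (m ^ 2 ^ (j + 1)) T (cmp ρ τ) then (1 : ℝ) else 0) ≤
            Ex (wq q₀) (fun _ : Restr I => 1) :=
          Ex_mono (wq_nonneg h0 (by linarith)) fun τ => by split_ifs <;> norm_num
        rw [Ex_const (wq_sum _)] at h2
        linarith
    refine (Ex_mono hwj hin).trans ?_
    rw [Ex_add, Ex_const (wq_sum _)]
    push_cast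
    linarith

open Classical in
/-- **The second level of an algorithm with nested questions.** -/
theorem Adm.lv_le {m T : ℕ} {F : (I → Bool) → Oracle} (hF : Adm m T F) {k J : ℕ} (hk : 1 ≤ k)
    (hT : 1 ≤ T) (hJ : T ≤ m ^ 2 ^ J)
    (hcard : (J + 1) * 2 ^ (T + 1) * Fintype.card I ^ 2 ≤ 2 ^ (k + 1))
    {Y : Set (List Bool)} {M : Alg} (hY : ∀ y ∈ Y, M.p.eval y.length ≤ T)
    {f : (I → Bool) → Bool}
    (hf : ∀ z, f z = true ↔ ∃ y ∈ Y, M.out (CC.cut T (F z)) y = some [true]) (ρ₀ : Restr I) :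
    lv 2 (br (rs f ρ₀)) 0 ≤ ((k : ℝ) ^ 2 + 1) * (24 * (T * k : ℕ)) ^ (2 * (J + 1)) := by
  set w : ℕ := T * k with hw
  have hw1 : 1 ≤ w := Nat.succ_le_of_lt (Nat.mul_pos hT hk)
  have hwR : (1 : ℝ) ≤ w := by exact_mod_cast hw1
  set q₀ : ℝ := 1 / (24 * w) with hq₀
  have h0 : 0 < q₀ := by positivity
  have h1 : q₀ ≤ 1 / 3 := by
    rw [hq₀]
    refine one_div_le_one_div_of_le (by norm_num) (by linarith)
  have hhalf : 12 * (w : ℝ) * q₀ = 1 / 2 := by
    rw [hq₀]
    field_simp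
    norm_num
  have hF' := hF.ov ρ₀
  set G : (I → Bool) → Oracle := fun z => F (H568R2.ov ρ₀ z) with hG
  set f' : (I → Bool) → Bool := rs f ρ₀ with hf'
  have hff : ∀ z, f' z = true ↔ ∃ y ∈ Y, M.out (CC.cut T (G z)) y = some [true] := fun z => hf _
  have hst := hF'.steps hk hT h0.le h1 J
  rw [← hw, hhalf] at hst
  have hfin : Ex (wq (q₀ ^ (J + 1))) (fun ρ : Restr I => if ¬ DTr k (rs f' ρ) then (1 : ℝ)
      else 0) ≤ (J + 1) * 2 ^ (T + 1) * (1 / 2) ^ (k + 1) := by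
    rw [pow_succ, wq_cmp]
    have hwj : ∀ a, 0 ≤ wq (q₀ ^ J) a :=
      wq_nonneg (pow_nonneg h0.le J) (pow_le_one₀ h0.le (by linarith))
    have hin : ∀ ρ : Restr I, Ex (wq q₀) (fun τ : Restr I =>
        if ¬ DTr k (rs f' (cmp ρ τ)) then (1 : ℝ) else 0) ≤
        (if ¬ Gd G k (m ^ 2 ^ J) T ρ then (1 : ℝ) else 0) + (1 / 2) ^ (k + 1) := by
      intro ρ
      by_cases hGd : Gd G k (m ^ 2 ^ J) T ρ
      · rw [if_neg (not_not.2 hGd), zero_add]
        have h2 := cert_alg hGd hJ le_rfl hY hff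
        have h3 := switch (k := k) (Nat.succ_le_of_lt (Nat.mul_pos hT hk)) h0.le h1 h2
        rw [← hw, hhalf] at h3
        refine le_trans (le_of_eq ?_) h3
        congr 1
        funext τ
        rw [rs_cmp]
      · rw [if_pos hGd]
        have h2 : Ex (wq q₀) (fun τ : Restr I => if ¬ DTr k (rs f' (cmp ρ τ)) then (1 : ℝ) else 0) ≤
            Ex (wq q₀) (fun _ : Restr I => 1) :=
          Ex_mono (wq_nonneg h0.le (by linarith)) fun τ => by split_ifs <;> norm_num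
        rw [Ex_const (wq_sum _)] at h2
        have : (0 : ℝ) ≤ (1 / 2) ^ (k + 1) := by positivity
        linarith
    refine (Ex_mono hwj hin).trans ?_
    rw [Ex_add, Ex_const (wq_sum _)]
    have h4 : (1 : ℝ) ≤ 2 ^ (T + 1) := one_le_pow₀ (by norm_num)
    have h5 : (0 : ℝ) ≤ (1 / 2) ^ (k + 1) := by positivity
    have h6 : (1 / 2 : ℝ) ^ (k + 1) ≤ 2 ^ (T + 1) * (1 / 2) ^ (k + 1) := by nlinarith
    calc _ ≤ J * (2 ^ (T + 1) * (1 / 2 : ℝ) ^ (k + 1)) + 2 ^ (T + 1) * (1 / 2) ^ (k + 1) :=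
          add_le_add hst h6
      _ = _ := by ring
  have hp0 : 0 < q₀ ^ (J + 1) := by positivity
  have hp1 : q₀ ^ (J + 1) ≤ 1 := pow_le_one₀ h0.le (by linarith)
  have h2 := lv_switch hp0 hp1 f' hfin
  refine h2.trans ?_
  have h3 : ((J + 1) * 2 ^ (T + 1) * (1 / 2) ^ (k + 1) : ℝ) * (Fintype.card I : ℝ) ^ 2 ≤ 1 := by
    have h4 : (((J + 1) * 2 ^ (T + 1) * Fintype.card I ^ 2 : ℕ) : ℝ) ≤ ((2 ^ (k + 1) : ℕ) : ℝ) := by
      exact_mod_cast hcard
    push_cast at h4
    have h5 : (0 : ℝ) < 2 ^ (k + 1) := by positivity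
    have h6 : (1 / 2 : ℝ) ^ (k + 1) * 2 ^ (k + 1) = 1 := by
      rw [← mul_pow]; norm_num
    have h7 : (0 : ℝ) ≤ (1 / 2 : ℝ) ^ (k + 1) := by positivity
    calc _ = ((J + 1) * 2 ^ (T + 1) * (Fintype.card I : ℝ) ^ 2) * (1 / 2 : ℝ) ^ (k + 1) := by ring
      _ ≤ 2 ^ (k + 1) * (1 / 2 : ℝ) ^ (k + 1) := mul_le_mul_of_nonneg_right h4 h7
      _ = 1 := by rw [mul_comm]; exact h6
  rw [div_le_iff₀ (by positivity)]
  have h8 : (24 * (w : ℝ)) ^ (2 * (J + 1)) * (q₀ ^ (J + 1)) ^ 2 = 1 := by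
    rw [← pow_mul, mul_comm (J + 1) 2, ← mul_pow, hq₀]
    rw [mul_one_div_cancel (by positivity), one_pow]
  have h9 : ((k : ℝ) ^ 2 + 1) * (24 * (w : ℝ)) ^ (2 * (J + 1)) * (q₀ ^ (J + 1)) ^ 2 =
      (k : ℝ) ^ 2 + 1 := by rw [mul_assoc, h8, mul_one]
  rw [h9]
  linarith

end Pool.Agent.H9x.RT
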