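import Pool.Agent.H9x.RT.Fml

/-!
# Numbers
-/

set_option autoImplicit false

namespace Pool.Agent.H9x.RT

open Pool.Agent.NPC Pool.Agent.H622R2 Pool.Agent.H620R2.Gauge Pool.Agent.H622R2.Exp
  Pool.Agent.TH678.ETH Pool.Agent.TH678.SETH Pool.Agent.TH678.RS Finset H568R2 Pool.Agent.H676

/-- the depth of the decision trees -/
def kk (J T : ℕ) : ℕ := 17 * T + 83 + J

/-- the bound for the second level -/
def LL (J T : ℕ) : ℕ := (kk J T ^ 2 + 1) * (24 * (T * kk J T)) ^ (2 * (J + 1))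

theorem one_le_LL {J T : ℕ} (hT : 1 ≤ T) : 1 ≤ LL J T := by
  unfold LL
  refine Nat.succ_le_of_lt (Nat.mul_pos (by positivity) (Nat.pow_pos ?_))
  have : 1 ≤ kk J T := by unfold kk; omega
  have := Nat.mul_pos hT this
  omega

variable {S N : ℕ → Polynomial ℕ} {b : ℕ → ℕ} {g : ℕ → SAlg × Polynomial ℕ}
  {h : ℕ → Alg × Polynomial ℕ}

theorem Fam.lv_le (hc : Kq g h S N) {s T J : ℕ}
    {F : ((Fin (ll s) → Bool) ⊕ (Fin (ll s) → Bool) → Bool) → Dat} (hF : Fam S (ll s) s T F)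
    (hT : ∀ s', s ≤ s' → T < s' ^ (b s' + 1)) (hT1 : 1 ≤ T) (hsT : s ≤ T) (hJ : T ≤ s ^ 2 ^ J)
    {M : Alg} {x : List Bool} (hr : M.p.eval x.length ≤ T)
    (hcut : ∀ A : Oracle, M.out (CC.cut T A) x = M.out A x)
    {f : ((Fin (ll s) → Bool) ⊕ (Fin (ll s) → Bool) → Bool) → Bool}
    (hf : ∀ z, f z = true ↔ M.out (orc S N b g h (F z)) x = some [true])
    (ρ₀ : Restr ((Fin (ll s) → Bool) ⊕ (Fin (ll s) → Bool))) :
    lv 2 (br (rs f ρ₀)) 0 ≤ (LL J T : ℝ) := by
  have h1 := (hF.adm hc hT).lv_le (k := kk J T) (J := J) (by unfold kk; omega) hT1 hJ ?_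
    (Y := {x}) (M := M) (by rintro y rfl; exact hr) (f := f) (by
      intro z
      rw [hf z, ← hcut]
      simp) ρ₀
  · refine h1.trans (le_of_eq ?_)
    unfold LL
    push_cast
    ring
  · have hcard : Fintype.card ((Fin (ll s) → Bool) ⊕ (Fin (ll s) → Bool)) = 2 ^ (ll s + 1) := by
      rw [Fintype.card_sum]
      simp only [Fintype.card_fun, Fintype.card_bool, Fintype.card_fin]
      rw [pow_succ]
      ring
    rw [hcard]
    have h2 : J + 1 ≤ 2 ^ J := Nat.lt_two_pow_self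
    calc (J + 1) * 2 ^ (T + 1) * (2 ^ (ll s + 1)) ^ 2 ≤ 2 ^ J * 2 ^ (T + 1) *
        (2 ^ (ll s + 1)) ^ 2 := Nat.mul_le_mul_right _ (Nat.mul_le_mul_right _ h2)
      _ = 2 ^ (J + (T + 1) + (ll s + 1) * 2) := by rw [← pow_mul, ← pow_add, ← pow_add]
      _ ≤ 2 ^ (kk J T + 1) := by
        refine Nat.pow_le_pow_right (by norm_num) ?_
        unfold kk ll
        omega

theorem sq_le_two_pow (s : ℕ) : (s + 5) ^ 2 ≤ 25 * 2 ^ s := by
  induction s with
  | zero => norm_num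
  | succ s ih =>
    have h1 : 2 * (s + 5) ^ 2 = (s + 1 + 5) ^ 2 + (s * s + 8 * s + 14) := by ring
    rw [pow_succ 2 s]
    omega

/-- the bound of the distance -/
theorem del_le (s : ℕ) {L : ℝ} (hL : 0 ≤ L) : del (ll s) L ≤ 107 * L / 8 ^ s := by
  have h1 : Real.sqrt 2 ^ ll s = 2 ^ (4 * s + 20) := by
    have h2 : Real.sqrt 2 ^ 2 = 2 := Real.sq_sqrt (by norm_num)
    have h3 : ll s = 2 * (4 * s + 20) := by unfold ll; ring
    rw [h3, pow_mul, h2]
  unfold del
  rw [h1, div_le_div_iff₀ (by positivity) (by positivity)]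
  have h4 : ((ll s : ℕ) : ℝ) ^ 2 ≤ 1600 * 2 ^ s := by
    have h5 : ((s : ℝ) + 5) ^ 2 ≤ 25 * 2 ^ s := by exact_mod_cast sq_le_two_pow s
    have h6 : ((ll s : ℕ) : ℝ) = 8 * ((s : ℝ) + 5) := by unfold ll; push_cast; ring
    rw [h6]
    nlinarith
  have h7 : (2 : ℝ) ^ (4 * s + 20) = 2 ^ s * 8 ^ s * 1048576 := by
    have : (8 : ℝ) ^ s = 2 ^ (3 * s) := by rw [pow_mul]; norm_num
    rw [this, ← pow_add, pow_add, show s + 3 * s = 4 * s by ring]
    norm_num
  rw [h7]
  have h8 : (0 : ℝ) < 8 ^ s := by positivity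
  have h9 : (0 : ℝ) < 2 ^ s := by positivity
  have h10 : 70000 * ((ll s : ℕ) : ℝ) ^ 2 * L * 8 ^ s ≤ 70000 * (1600 * 2 ^ s) * L * 8 ^ s := by
    have := mul_le_mul_of_nonneg_left h4 (by positivity : (0 : ℝ) ≤ 70000 * L * 8 ^ s)
    linarith
  refine h10.trans ?_
  have h11 : (0 : ℝ) ≤ L * 2 ^ s * 8 ^ s := by positivity
  nlinarith

open Classical in
/-- the blocks with levels between `n` and `T` -/
noncomputable def UU (S : ℕ → Polynomial ℕ) (n T : ℕ) : Finset (ℕ × List Bool) :=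
  (range (T + 1) ×ˢ hs T).filter fun c => n ≤ lev S c ∧ lev S c ≤ T

theorem mem_UU (hS : ∀ e n, n + e + 1 ≤ (S e).eval n) {n T : ℕ} {c : ℕ × List Bool} :
    c ∈ UU S n T ↔ n ≤ lev S c ∧ lev S c ≤ T := by
  unfold UU
  rw [mem_filter, mem_product]
  refine ⟨fun h => h.2, fun h => ⟨⟨?_, ?_⟩, h⟩⟩
  · rw [mem_range]
    have := hS c.1 c.2.length
    have h2 := h.2
    unfold lev at h2
    omega
  · refine mem_hs ?_
    have := hS c.1 c.2.length
    have h2 := h.2
    unfold lev at h2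
    omega

open Classical in
theorem card_lev (hS : ∀ e n, n + e + 1 ≤ (S e).eval n) (n T s : ℕ) :
    ((UU S n T).filter fun c => lev S c = s).card ≤ 2 ^ (2 * s + 1) := by
  have h1 : ((UU S n T).filter fun c => lev S c = s) ⊆ range (s + 1) ×ˢ hs s := by
    intro c hc
    obtain ⟨_, h2⟩ := mem_filter.1 hc
    have := hS c.1 c.2.length
    unfold lev at h2
    rw [mem_product, mem_range]
    exact ⟨by omega, mem_hs (by omega)⟩
  refine (card_le_card h1).trans ?_
  rw [card_product, card_range]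
  have h2 : s + 1 ≤ 2 ^ s := Nat.lt_two_pow_self
  calc (s + 1) * (hs s).card ≤ 2 ^ s * 2 ^ (s + 1) := Nat.mul_le_mul h2 (card_hs s)
    _ = 2 ^ (2 * s + 1) := by rw [← pow_add]; congr 1; ring

/-- the sum of all distances -/
theorem sum_del_le (hS : ∀ e n, n + e + 1 ≤ (S e).eval n) (n T : ℕ) {L : ℝ} (hL : 0 ≤ L) :
    ∑ c ∈ UU S n T, del (ll (lev S c)) L ≤ (T + 1) * (214 * L / 2 ^ n) := by
  classical
  have hmap : ∀ c ∈ UU S n T, lev S c ∈ range (T + 1) := fun c hc => by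
    rw [mem_range]
    have := ((mem_UU hS).1 hc).2
    omega
  rw [← sum_fiberwise_of_maps_to hmap]
  have hterm : ∀ s ∈ range (T + 1), ∑ c ∈ (UU S n T).filter (fun c => lev S c = s),
      del (ll (lev S c)) L ≤ 214 * L / 2 ^ n := by
    intro s _
    by_cases hsn : s < n
    · have : (UU S n T).filter (fun c => lev S c = s) = ∅ := by
        rw [filter_eq_empty_iff]
        intro c hc hcs
        have := ((mem_UU hS).1 hc).1
        omega
      rw [this, sum_empty]
      positivity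
    · have h1 : ∑ c ∈ (UU S n T).filter (fun c => lev S c = s), del (ll (lev S c)) L ≤
          ∑ c ∈ (UU S n T).filter (fun c => lev S c = s), 107 * L / 8 ^ s := by
        refine sum_le_sum fun c hc => ?_
        rw [(mem_filter.1 hc).2]
        exact del_le s hL
      refine h1.trans ?_
      rw [sum_const, nsmul_eq_mul]
      have h2 : ((((UU S n T).filter fun c => lev S c = s).card : ℕ) : ℝ) ≤ 2 ^ (2 * s + 1) := by
        exact_mod_cast card_lev hS n T s
      have h3 : (0 : ℝ) ≤ 107 * L / 8 ^ s := by positivity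
      refine (mul_le_mul_of_nonneg_right h2 h3).trans ?_
      have h4 : (2 : ℝ) ^ (2 * s + 1) * (107 * L / 8 ^ s) = 214 * L / 2 ^ s := by
        have h5 : (8 : ℝ) ^ s = 2 ^ (2 * s) * 2 ^ s := by
          rw [← pow_add, show 2 * s + s = 3 * s by ring, pow_mul]
          norm_num
        have h6 : (0 : ℝ) < 2 ^ (2 * s) := by positivity
        have h7 : (0 : ℝ) < 2 ^ s := by positivity
        rw [h5, pow_succ]
        field_simp
        ring
      rw [h4]
      have h5 : (2 : ℝ) ^ n ≤ 2 ^ s := pow_le_pow_right₀ (by norm_num) (not_lt.1 hsn)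
      exact div_le_div_of_nonneg_left (by positivity) (by positivity) h5
  refine (sum_le_sum hterm).trans ?_
  rw [sum_const, card_range, nsmul_eq_mul]
  push_cast
  exact le_rfl

end Pool.Agent.H9x.RT
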