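import Pool.Agent.H9x.RT.Up
import Pool.Agent.H9x.V1.Low

/-!
# The world in which `P = PH` and `BQP = PSPACE`
-/

set_option autoImplicit false

namespace Pool.Agent.H9x.RT

open Pool.Agent.NPC Pool.Agent.H622R2 Pool.Agent.H620R2.Gauge Pool.Agent.H622R2.Exp
  Pool.Agent.TH678.ETH Pool.Agent.TH678.SETH Pool.Agent.TH678.RS Pool.Agent.H9x.Q Filter

open Pool.Agent.H9x.V1 (Ac ac_congr poly_rep poly_cS IsTime finite_ext)

/-- the data of one level -/
abbrev Lv : Type := (ℕ × List Bool → Bool → List Bool → Bool) × (List Bool → Bool)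

/-- the data given by the levels -/
def dat (S : ℕ → Polynomial ℕ) (κ : ℕ → Lv) : Dat :=
  ⟨fun c => (κ (lev S c)).1 c, fun s => (κ s).2⟩

/-- the data of one level are good -/
def GLv (S : ℕ → Polynomial ℕ) (s : ℕ) (v : Lv) : Prop :=
  (∀ c, lev S c = s → Yes s (v.1 c true) ∧ No s (v.1 c false)) ∧ (Yes s v.2 ∨ No s v.2)

theorem good_dat {S : ℕ → Polynomial ℕ} {κ : ℕ → Lv} (h : ∀ s, GLv S s (κ s)) :
    Good S (dat S κ) :=
  ⟨fun c => (h (lev S c)).1 c rfl, fun s => (h s).2⟩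

/-- the choice of the numbers -/
theorem sizes {α : ℕ → ℕ} (hα : Monotone α) (hα' : Tendsto α atTop atTop) (M : Alg) (N₀ : ℕ) :
    ∃ n T J : ℕ, N₀ ≤ n ∧ 1 ≤ n ∧ n ≤ T ∧ T ≤ n ^ 2 ^ J ∧
      (∀ s', n ≤ s' → T < s' ^ (bt α s' + 1)) ∧ M.p.eval n ≤ T ∧
      (∀ A : Oracle, M.out (CC.cut T A) (List.replicate n false) =
        M.out A (List.replicate n false)) ∧ 535 * (T + 1) * LL J T < 2 ^ n := by
  obtain ⟨qb, hqb⟩ := M.out_local
  set τ : Polynomial ℕ := qb + M.p + Polynomial.X with hτ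
  have hτe : ∀ n, τ.eval n = qb.eval n + M.p.eval n + n := fun n => by rw [hτ]; simp
  obtain ⟨d, _, hd⟩ := YAux.poly_bound τ
  set J : ℕ := 2 * d with hJ
  set K : Polynomial ℕ := Polynomial.C 17 * τ + Polynomial.C 83 + Polynomial.C J with hK
  set Λ : Polynomial ℕ := Polynomial.C 535 * (τ + 1) *
    ((K ^ 2 + 1) * (Polynomial.C 24 * (τ * K)) ^ (2 * (J + 1))) + 1 with hΛ
  have hΛe : ∀ n, Λ.eval n = 535 * (τ.eval n + 1) * LL J (τ.eval n) + 1 := by
    intro n
    rw [hΛ, hK]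
    simp only [Polynomial.eval_add, Polynomial.eval_mul, Polynomial.eval_C, Polynomial.eval_pow,
      Polynomial.eval_one]
    rfl
  have h1 := E0.poly_le Λ 1
  have h2 : ∀ᶠ n : ℕ in atTop, 2 * d ≤ bt α n := by
    obtain ⟨m, h3, h4⟩ := ((hα'.eventually_ge_atTop (2 * d)).and
      (eventually_ge_atTop (2 * d))).exists
    filter_upwards [eventually_ge_atTop (2 ^ m)] with n hn
    have h5 := bt_mono hα hn
    rw [bt_pow] at h5
    exact (le_min h3 h4).trans h5
  rw [eventually_atTop] at h2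
  obtain ⟨n₂, hn₂⟩ := h2
  obtain ⟨n, h3, h4, h5⟩ := (h1.and ((eventually_ge_atTop (max N₀ n₂)).and
    (eventually_ge_atTop 2))).exists
  rw [one_mul, hΛe] at h3
  have hTn : τ.eval n ≤ n ^ (2 * d) := by
    refine (hd n).trans ?_
    rw [pow_mul]
    refine Nat.pow_le_pow_left ?_ d
    nlinarith
  refine ⟨n, τ.eval n, J, (le_max_left _ _).trans h4, by omega, by rw [hτe]; omega, ?_, ?_, ?_, ?_,
    by omega⟩
  · refine hTn.trans (Nat.pow_le_pow_right (by omega) ?_)
    rw [hJ]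
    exact Nat.lt_two_pow_self.le
  · intro s' hs'
    have h6 := hn₂ s' ((le_max_right _ _).trans (h4.trans hs'))
    calc τ.eval n ≤ n ^ (2 * d) := hTn
      _ ≤ s' ^ (2 * d) := Nat.pow_le_pow_left hs' _
      _ < s' ^ (2 * d + 1) := Nat.pow_lt_pow_right (by omega) (by omega)
      _ ≤ s' ^ (bt α s' + 1) := Nat.pow_le_pow_right (by omega) (by omega)
  · rw [hτe]; omega
  · intro A
    obtain ⟨Q, _, h6, h7⟩ := hqb A (List.replicate n false)
    refine h7 _ fun q hq => ?_
    unfold CC.cut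
    rw [if_pos]
    have h8 := h6 q hq
    rw [List.length_replicate] at h8
    rw [hτe]
    omega

variable {S N : ℕ → Polynomial ℕ} {g : ℕ → SAlg × Polynomial ℕ} {h : ℕ → Alg × Polynomial ℕ}

/-- **One stage.** -/
theorem stage {α : ℕ → ℕ} (hα : Monotone α) (hα' : Tendsto α atTop atTop) (hc : Kq g h S N)
    (M : Alg) (N₀ : ℕ) (κ : ℕ → Lv) (hκ : ∀ s, GLv S s (κ s)) :
    ∃ (κ' : ℕ → Lv) (N' : ℕ), (∀ s, GLv S s (κ' s)) ∧ (∀ s < N₀, κ' s = κ s) ∧
      ∀ κ'' : ℕ → Lv, (∀ s, GLv S s (κ'' s)) → (∀ s < N', κ'' s = κ' s) →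
        ∃ x : List Bool, ¬ (x ∈ LF (dat S κ'') ↔
          M.out (orc S N (bt α) g h (dat S κ'')) x = some [true]) := by
  obtain ⟨n, T, J, h1, h2, h3, h4, h5, h6, h7, h8⟩ := sizes hα hα' M N₀
  obtain ⟨D', hD', hb, hf, hne⟩ := one_step (b := bt α) hc M h2 h3 h4 h5 h6 h7 h8 (dat S κ)
    (good_dat hκ)
  set κ' : ℕ → Lv := fun s => if s < N₀ then κ s else (D'.bl, D'.fr s) with hκ'
  have hdat : dat S κ' = D' := by
    have e1 : (dat S κ').bl = D'.bl := by
      funext c
      show (κ' (lev S c)).1 c = _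
      rw [hκ']
      simp only
      split_ifs with hlt
      · rw [hb c (by omega)]
        rfl
      · rfl
    have e2 : (dat S κ').fr = D'.fr := by
      funext s
      show (κ' s).2 = _
      rw [hκ']
      simp only
      split_ifs with hlt
      · rw [hf s (by omega)]
        rfl
      · rfl
    cases D'
    simp only at e1 e2
    rw [← e1, ← e2]
  refine ⟨κ', T + 1, fun s => ?_, fun s hs => by rw [hκ']; exact if_pos hs,
    fun κ'' _ hag => ⟨List.replicate n false, ?_⟩⟩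
  · rw [hκ']
    simp only
    split_ifs with hlt
    · exact hκ s
    · refine ⟨fun c hcs => ?_, hD'.fr s⟩
      have := hD'.bl c
      rw [hcs] at this
      exact this
  · have hloc : ∀ q : List Bool, q.length ≤ T + 1 → orc S N (bt α) g h (dat S κ'') q =
        orc S N (bt α) g h D' q := by
      intro q hq
      refine orc_loc hc.big (n := T + 1) (fun c hc' => ?_) (fun s hs => ?_) _ q rfl hq
      · show (κ'' (lev S c)).1 c = _
        rw [hag _ hc', ← hdat]
        rfl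
      · show (κ'' s).2 = _
        rw [hag _ hs, ← hdat]
        rfl
    have hout : M.out (orc S N (bt α) g h (dat S κ'')) (List.replicate n false) =
        M.out (orc S N (bt α) g h D') (List.replicate n false) := by
      rw [← h7, ← h7 (orc S N (bt α) g h D'), cut_congr fun z hz => hloc z (by omega)]
    have hfr : (dat S κ'').fr n = D'.fr n := by
      show (κ'' n).2 = _
      rw [hag _ (by omega), ← hdat]
      rfl
    rw [hout]
    have hmem : List.replicate n false ∈ LF (dat S κ'') ↔ Yes n (D'.fr n) := by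
      show Yes (List.replicate n false).length _ ↔ _
      rw [List.length_replicate, hfr]
    rw [hmem]
    exact hne

/-- good data exist -/
theorem exists_good (S : ℕ → Polynomial ℕ) : ∃ κ : ℕ → Lv, ∀ s, GLv S s (κ s) := by
  choose P Q _ hP1 hPG _ hQ1 hQG _ using fun s : ℕ =>
    exists_dist (l := ll s) (by unfold ll; omega)
  have h1 : ∀ s, ∃ a, P s a ≠ 0 := by
    intro s
    by_contra hcon
    push Not at hcon
    have := hP1 s
    simp [hcon] at this
  have h2 : ∀ s, ∃ a, Q s a ≠ 0 := by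
    intro s
    by_contra hcon
    push Not at hcon
    have := hQ1 s
    simp [hcon] at this
  choose u hu using h1
  choose v hv using h2
  have hy : ∀ s, Yes s (enc (ll s) (u s)) := fun s => by
    unfold Yes
    rw [FoC_enc]
    exact hPG s _ (hu s)
  have hn : ∀ s, No s (enc (ll s) (v s)) := fun s => by
    unfold No
    rw [FoC_enc]
    exact hQG s _ (hv s)
  refine ⟨fun s => (fun _ t => if t then enc (ll s) (u s) else enc (ll s) (v s),
    enc (ll s) (u s)), fun s => ⟨fun c _ => ⟨hy s, hn s⟩, Or.inl (hy s)⟩⟩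

/-- **The world in which `P = PH` and `BQP = PSPACE`.** -/
theorem world (α : ℕ → ℕ) (hα : Monotone α) (hα' : Tendsto α atTop atTop) :
    ∃ A : Oracle, (∀ L, IsPH A L → IsP A L) ∧
      (∀ L, IsPSPACE A L → IsBQP A L ∧ IsTime α A L) ∧
      ∃ L, IsBQP A L ∧ ¬ IsPH A L := by
  obtain ⟨g, hg⟩ := CC.exists_enum
  have hne : Nonempty (Alg × Polynomial ℕ) := ⟨⟨⟨fun _ => [], CC.const_polyTime _, 0⟩, 0⟩⟩
  have hne' : Nonempty Alg := ⟨⟨fun _ => [], CC.const_polyTime _, 0⟩⟩
  have hct : Countable (Polynomial ℕ) := CC.poly_countable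
  obtain ⟨h, hh⟩ := exists_surjective_nat (Alg × Polynomial ℕ)
  obtain ⟨en, hen⟩ := exists_surjective_nat Alg
  obtain ⟨S, N, hc⟩ := exists_kq g h
  obtain ⟨κ, hκ, hP⟩ := finite_ext (β := Lv) (GLv S)
    (fun j κ => ∃ x : List Bool, ¬ (x ∈ LF (dat S κ) ↔
      (en j).out (orc S N (bt α) g h (dat S κ)) x = some [true]))
    (exists_good S) (fun j N₀ κ hκ => stage hα hα' hc (en j) N₀ κ hκ)
  have hPH : ∀ L, IsPH (orc S N (bt α) g h (dat S κ)) L → IsP (orc S N (bt α) g h (dat S κ)) L :=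
    fun L hL => isP_of_isPH (fun L hL => p_of_np hh hc _ hL) hL
  refine ⟨orc S N (bt α) g h (dat S κ), hPH, fun L hL => ⟨bqp_of_pspace hg hc (good_dat hκ) hL,
    time_of_pspace hα hg hc _ hL⟩, LF (dat S κ), bqp_LF (good_dat hκ), fun hL => ?_⟩
  obtain ⟨V, ⟨M, hM⟩, hx⟩ := hPH _ hL
  obtain ⟨j, hj⟩ := hen M
  obtain ⟨x, hx'⟩ := hP j
  apply hx'
  rw [hj, hM x, hx x]
  simp

end Pool.Agent.H9x.RT
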