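import Pool.Agent.H9x.RT.Stp
import Pool.Agent.H9x.RT.PHP

/-!
# Upper bounds relative to the oracle
-/

set_option autoImplicit false

namespace Pool.Agent.H9x.RT

open Pool.Agent.NPC Pool.Agent.H622R2 Pool.Agent.H620R2.Gauge Pool.Agent.H622R2.Exp
  Pool.Agent.TH678.ETH Pool.Agent.TH678.SETH Pool.Agent.TH678.RS Pool.Agent.H9x.Q

open Pool.Agent.H9x.V1 (Ac ac_congr poly_rep poly_cS IsTime)

variable {S N : ℕ → Polynomial ℕ} {b : ℕ → ℕ} {g : ℕ → SAlg × Polynomial ℕ}
  {h : ℕ → Alg × Polynomial ℕ}

/-- **Truth of the codes.** -/
theorem code_true (hg : Function.Surjective g) (hc : Kq g h S N) (A : Oracle)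
    {L : Set (List Bool)} (hL : IsPSPACE A L) :
    ∃ e : ℕ, ∀ x : List Bool, Ac g S e x A ↔ x ∈ L := by
  obtain ⟨M, p, hM⟩ := hL
  obtain ⟨e, he⟩ := hg (M, p)
  refine ⟨e, fun x => ?_⟩
  have hloc := hc.loc e
  unfold Ac
  rw [he] at hloc ⊢
  obtain ⟨hM1, s, z, hs, hz, hLz⟩ := hM x
  have hcong : ∀ s, M.Reach (CC.cut ((S e).eval x.length) A) x s ↔ M.Reach A x s := by
    refine CC.reach_congr (fun s => s.length ≤ p.eval x.length) hM1 ?_
    intro s q h1 h2
    have h3 := hloc x s h1
    rw [h2, List.length_cons] at h3
    unfold CC.cut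
    rw [if_pos (by omega)]
  constructor
  · rintro ⟨t, ht, ht2⟩
    have hst := CC.reach_unique hs ((hcong t).1 ht) ⟨_, hz⟩ ⟨_, ht2⟩
    rw [hst, ht2] at hz
    simp only [List.cons.injEq, true_and] at hz
    exact hLz.2 hz.symm
  · intro hx
    refine ⟨s, (hcong s).2 hs, ?_⟩
    rw [hz, hLz.1 hx]

/-- **Polynomial space in nearly polynomial time.** -/
theorem time_of_pspace {α : ℕ → ℕ} (hα : Monotone α) (hg : Function.Surjective g)
    (hc : Kq g h S N) (D : Dat) {L : Set (List Bool)}
    (hL : IsPSPACE (orc S N (bt α) g h D) L) : IsTime α (orc S N (bt α) g h D) L := by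
  obtain ⟨e, he⟩ := code_true hg hc _ hL
  obtain ⟨C, hC⟩ := Pool.Agent.Y626.WX.time_bound hα (S e)
  have hx : Poly (fun y => (unpair y).2) := Poly.snd poly_unpair
  have hw : Poly (fun y => (unpair y).1) := Poly.fst poly_unpair
  have h1 : Poly (fun z => true :: true :: cS e (unpair z).1.length (unpair z).2) :=
    Poly.cons (NPC.Poly.const true) (Poly.cons (NPC.Poly.const true)
      (poly_cS e (UPoly.length hw) hx))
  refine ⟨C, _, TH678.WP.isFP_ask' _ h1, fun x => ?_⟩
  simp only [unpair_pairBits, List.cons.injEq, and_true, List.length_replicate]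
  have h4 : (S e).eval x.length ^ (bt α ((S e).eval x.length) + 1) ≤
      (x.length + 2) ^ (C * (α x.length + 1)) := hC x.length
  have h5 := orc_on (g := g) (h := h) hc.big D (Ix.far ⟨(e, _, x), h4⟩ : Ix S N (bt α))
  rw [← he x]
  exact h5.symm

theorem ll_eval (p : Polynomial ℕ) (n : ℕ) :
    (Polynomial.C 8 * p + Polynomial.C 40 : Polynomial ℕ).eval n = ll (p.eval n) := by
  simp [ll]

/-- the prefix of the strings about the zero string -/
theorem base_HZ (D : Dat) {l k : ℕ} (hl : 1 ≤ l) (u : Fin (k * l) → Bool) :
    orc S N b g h D ((false :: false :: (List.replicate l true ++ [false])) ++ List.ofFn u) = true ↔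
      ∃ j, cpy u j = fun _ => false := by
  have h1 : (false :: false :: (List.replicate l true ++ [false])) ++ List.ofFn u =
      false :: false :: (List.replicate l true ++ false :: List.ofFn u) := by simp
  rw [h1, orc_off D (fun p hp => by cases p <;> simp [cI] at hp)]
  show @decide (HZ _) (Classical.propDecidable _) = true ↔ _
  exact (@decide_eq_true_iff _ (Classical.propDecidable _)).trans (HZ_iff hl u)

/-- **Polynomial space in quantum polynomial time.** -/
theorem bqp_of_pspace (hg : Function.Surjective g) (hc : Kq g h S N) {D : Dat} (hD : Good S D)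
    {L : Set (List Bool)} (hL : IsPSPACE (orc S N b g h D) L) :
    IsBQP (orc S N b g h D) L := by
  obtain ⟨e, he⟩ := code_true hg hc _ hL
  have hlen : UPoly (fun u : List Bool => u.length) := UPoly.length Poly.id
  have hSe : UPoly (fun u : List Bool => (S e).eval u.length) := hlen.eval (S e)
  set l : Polynomial ℕ := Polynomial.C 8 * S e + Polynomial.C 40 with hl
  have hll : ∀ n, l.eval n = ll ((S e).eval n) := fun n => ll_eval _ _
  refine isBQP_of_fo (fun u => true :: false :: false :: cS e ((S e).eval u.length) [])
    (fun u => false :: false :: (List.replicate (l.eval u.length) true ++ [false])) l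
    ?_ ?_ (fun u v huv => by simp only [huv]) (fun u v huv => by simp only [huv])
    (fun n => by rw [hll]; unfold ll; omega) (fun x k u => ?_) (fun x => ?_)
  · exact Poly.cons (NPC.Poly.const _) (Poly.cons (NPC.Poly.const _) (Poly.cons (NPC.Poly.const _)
      (poly_cS e hSe (NPC.Poly.const []))))
  · exact Poly.cons (NPC.Poly.const _) (Poly.cons (NPC.Poly.const _)
      (Poly.append (poly_rep (hlen.eval l)) (NPC.Poly.const [false])))
  · exact base_HZ D (by rw [hll]; unfold ll; omega) u
  · -- the forrelation of the block
    have hval : ∀ (c : Bool) (v : Fin (l.eval x.length) → Bool), orc S N b g h D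
        ((true :: false :: false :: cS e ((S e).eval x.length) []) ++ x ++ (c :: List.ofFn v)) =
        D.bl (e, x) (@decide (Ac g S e x (orc S N b g h D)) (Classical.propDecidable _))
          (c :: List.ofFn v) := by
      intro c v
      have hw : (c :: List.ofFn v).length = ll ((S e).eval x.length) + 1 := by
        rw [List.length_cons, List.length_ofFn, hll]
      have h1 : (true :: false :: false :: cS e ((S e).eval x.length) []) ++ x ++
          (c :: List.ofFn v) = cI (Ix.blk e x (c :: List.ofFn v) hw : Ix S N b) := by
        show _ = true :: false :: false :: cS e ((S e).eval x.length) (x ++ (c :: List.ofFn v))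
        simp [cS, pr]
      rw [h1, Bool.eq_iff_iff, orc_on hc.big]
      rfl
    have hfo : FoA (orc S N b g h D) ((true :: false :: false :: cS e ((S e).eval x.length) []) ++ x)
        (l.eval x.length) = FoC (D.bl (e, x) (@decide (Ac g S e x (orc S N b g h D))
          (Classical.propDecidable _))) (l.eval x.length) := by
      unfold FoA FoC
      simp only [hval]
    have hb := hD.bl (e, x)
    constructor
    · intro hx
      rw [hfo]
      have h2 : @decide (Ac g S e x (orc S N b g h D)) (Classical.propDecidable _) = true := by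
        exact (@decide_eq_true_iff _ (Classical.propDecidable _)).2 ((he x).2 hx)
      rw [h2, hll]
      exact hb.1
    · intro hx
      rw [hfo]
      have h2 : @decide (Ac g S e x (orc S N b g h D)) (Classical.propDecidable _) = false := by
        exact (@decide_eq_false_iff_not _ (Classical.propDecidable _)).2
          fun h3 => hx ((he x).1 h3)
      rw [h2, hll]
      exact hb.2

/-- the language of the free blocks -/
def LF (D : Dat) : Set (List Bool) := {x | Yes x.length (D.fr x.length)}

/-- **The language is in quantum polynomial time.** -/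
theorem bqp_LF {D : Dat} (hD : Good S D) : IsBQP (orc S N b g h D) (LF D) := by
  have hlen : UPoly (fun u : List Bool => u.length) := UPoly.length Poly.id
  set l : Polynomial ℕ := Polynomial.C 8 * Polynomial.X + Polynomial.C 40 with hl
  have hll : ∀ n, l.eval n = ll n := fun n => by
    rw [hl, ll_eval, Polynomial.eval_X]
  refine isBQP_of_fo (fun u => false :: true :: (List.replicate u.length true ++ [false]))
    (fun u => false :: false :: (List.replicate (l.eval u.length) true ++ [false])) l
    ?_ ?_ (fun u v huv => by simp only [huv]) (fun u v huv => by simp only [huv])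
    (fun n => by rw [hll]; unfold ll; omega) (fun x k u => ?_) (fun x => ?_)
  · exact Poly.cons (NPC.Poly.const _) (Poly.cons (NPC.Poly.const _)
      (Poly.append (poly_rep hlen) (NPC.Poly.const [false])))
  · exact Poly.cons (NPC.Poly.const _) (Poly.cons (NPC.Poly.const _)
      (Poly.append (poly_rep (hlen.eval l)) (NPC.Poly.const [false])))
  · exact base_HZ D (by rw [hll]; unfold ll; omega) u
  · have hval : ∀ (c : Bool) (v : Fin (l.eval x.length) → Bool), orc S N b g h D
        ((false :: true :: (List.replicate x.length true ++ [false])) ++ x ++ (c :: List.ofFn v)) =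
        D.fr x.length (c :: List.ofFn v) := by
      intro c v
      have h1 : (false :: true :: (List.replicate x.length true ++ [false])) ++ x ++
          (c :: List.ofFn v) = false :: true :: (List.replicate x.length true ++ false ::
            (x ++ (c :: List.ofFn v))) := by simp
      rw [h1, orc_off D (fun p hp => by cases p <;> simp [cI] at hp)]
      exact frd_rep _ _ _ _ rfl
    have hfo : FoA (orc S N b g h D)
        ((false :: true :: (List.replicate x.length true ++ [false])) ++ x)
        (l.eval x.length) = FoC (D.fr x.length) (l.eval x.length) := by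
      unfold FoA FoC
      simp only [hval]
    constructor
    · intro hx
      rw [hfo, hll]
      exact hx
    · intro hx
      rw [hfo, hll]
      rcases hD.fr x.length with h2 | h2
      · exact absurd h2 hx
      · exact h2

/-- **`NP` is in `P`.** -/
theorem p_of_np (hh : Function.Surjective h) (hc : Kq g h S N) (D : Dat)
    {L : Set (List Bool)} (hL : IsNP (orc S N b g h D) L) : IsP (orc S N b g h D) L := by
  obtain ⟨V, p, ⟨M, hM⟩, hx⟩ := hL
  obtain ⟨e, he⟩ := hh (M, p)
  have hlen : UPoly (fun u : List Bool => u.length) := UPoly.length Poly.id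
  have h1 : Poly (fun x : List Bool => true :: false :: true :: cS e ((N e ^ 2).eval x.length) x) :=
    Poly.cons (NPC.Poly.const _) (Poly.cons (NPC.Poly.const _) (Poly.cons (NPC.Poly.const _)
      (poly_cS e (hlen.eval (N e ^ 2)) Poly.id)))
  refine ⟨_, TH678.WP.isFP_ask' _ h1, fun x => ?_⟩
  simp only [List.cons.injEq, and_true]
  have h2 : (N e).eval x.length ^ 2 ≤ (N e ^ 2).eval x.length := by simp
  have h3 := orc_on (g := g) (h := h) hc.big D (Ix.np e _ x h2 : Ix S N b)
  rw [hx]
  refine Iff.trans ?_ h3.symm
  show _ ↔ ∃ w : List Bool, w.length ≤ (h e).2.eval x.length ∧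
      (h e).1.out (CC.cut ((N e).eval x.length) (orc S N b g h D)) (pairBits w x) = some [true]
  refine exists_congr fun w => ?_
  rw [he]
  refine and_congr_right fun hw => ?_
  have h4 := hc.hloc e x w (orc S N b g h D) (by rw [he]; exact hw)
  rw [he] at h4
  rw [h4, hM]
  simp

end Pool.Agent.H9x.RT
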