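import Pool.Agent.H9x.RT.Dist
import Pool.Agent.H9x.RT.Had

/-!
# The two distributions
-/

set_option autoImplicit false
set_option linter.unusedSectionVars false

namespace Pool.Agent.H9x.RT

open Finset H568R2 Pool.Agent.H676

variable {X : Type*} [Fintype X] [DecidableEq X] {H : X → X → ℝ} {γ : ℝ}

/-- the size of the steps -/
theorem walk_exists [Nonempty X] (hH : Orth H γ) {ε τ : ℝ} (hε : 0 < ε) (hτ : 0 < τ) :
    ∃ (T : ℕ) (δ : ℝ), 0 ≤ δ ∧ δ ≤ 1 ∧ Small (Wf H) δ ∧ T * δ ^ 2 = ε ∧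
      T * (δ ^ 3 * (2 ^ Fintype.card (X ⊕ X) * (Fintype.card X : ℝ) ^ Fintype.card (X ⊕ X))) ≤ τ := by
  have hN1 : 1 ≤ Fintype.card X := Fintype.card_pos
  have hN : (1 : ℝ) ≤ Fintype.card X := by exact_mod_cast hN1
  set N : ℝ := (Fintype.card X : ℝ) with hNdef
  set K : ℝ := 2 ^ Fintype.card (X ⊕ X) * N ^ Fintype.card (X ⊕ X) with hK
  have hK1 : 1 ≤ K := by
    have h1 : (1 : ℝ) ≤ 2 ^ Fintype.card (X ⊕ X) := one_le_pow₀ (by norm_num)
    have h2 : (1 : ℝ) ≤ N ^ Fintype.card (X ⊕ X) := one_le_pow₀ hN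
    nlinarith
  set δ₀ : ℝ := min 1 (min (1 / (2 * N)) (τ / (ε * K))) with hδ₀
  have hδ₀0 : 0 < δ₀ := by
    refine lt_min one_pos (lt_min (by positivity) (by positivity))
  obtain ⟨T, hT⟩ := exists_nat_gt (ε / δ₀ ^ 2)
  have hT0 : (0 : ℝ) < T := lt_of_le_of_lt (by positivity) hT
  set δ : ℝ := Real.sqrt (ε / T) with hδ
  have hδ0 : 0 ≤ δ := Real.sqrt_nonneg _
  have hδsq : δ ^ 2 = ε / T := Real.sq_sqrt (by positivity)
  have hTδ : T * δ ^ 2 = ε := by rw [hδsq]; field_simp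
  have hδle : δ ≤ δ₀ := by
    refine abs_le_of_sq_le_sq' ?_ hδ₀0.le |>.2
    rw [hδsq, div_le_iff₀ hT0]
    rw [div_lt_iff₀ (by positivity)] at hT
    linarith
  have hδ1 : δ ≤ 1 := hδle.trans (min_le_left _ _)
  have hδN : δ * N ≤ 1 / 2 := by
    have h1 : δ ≤ 1 / (2 * N) := hδle.trans ((min_le_right _ _).trans (min_le_left _ _))
    rw [le_div_iff₀ (by positivity)] at h1
    linarith
  have hδK : ε * δ * K ≤ τ := by
    have h1 : δ ≤ τ / (ε * K) := hδle.trans ((min_le_right _ _).trans (min_le_right _ _))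
    rw [le_div_iff₀ (by positivity)] at h1
    linarith
  refine ⟨T, δ, hδ0, hδ1, ?_, hTδ, ?_⟩
  · intro u i
    rw [abs_mul, abs_of_nonneg hδ0]
    exact (mul_le_mul_of_nonneg_left (inc_le hH u i) hδ0).trans hδN
  · have e1 : T * (δ ^ 3 * K) = (T * δ ^ 2) * δ * K := by ring
    rw [e1, hTδ]
    exact hδK

/-- the distance to the uniform distribution -/
theorem wD_close [Nonempty X] (hH : Orth H γ) {ε τ δ : ℝ} {T : ℕ} (h0 : 0 ≤ δ) (h1 : δ ≤ 1)
    (hs : Small (Wf H) δ) (hT : T * δ ^ 2 = ε)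
    (hτ : T * (δ ^ 3 * (2 ^ Fintype.card (X ⊕ X) * (Fintype.card X : ℝ) ^ Fintype.card (X ⊕ X))) ≤ τ)
    (h : (X ⊕ X → Bool) → Bool) {L : ℝ} (hL0 : 0 ≤ L)
    (hL : ∀ ρ : Restr (X ⊕ X), lv 2 (br (rs h ρ)) 0 ≤ L) :
    |∑ a, br h a * wD (Wf H) δ T a - ml (br h) 0| ≤ ε * (γ * (4 * L)) + τ := by
  have hN1 : 1 ≤ Fintype.card X := Fintype.card_pos
  have hN : (1 : ℝ) ≤ Fintype.card X := by exact_mod_cast hN1
  rw [sum_wD]
  refine (Sn_ml (W := Wf H) h0 h1 hN (fun u i => inc_le hH u i) hs hH.nonneg (gram_ne hH)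
    (F := br h) (abs_br_le h) hL0 hL T).trans ?_
  have e1 : T * (δ ^ 2 * γ * (4 * L) +
      δ ^ 3 * (2 ^ Fintype.card (X ⊕ X) * (Fintype.card X : ℝ) ^ Fintype.card (X ⊕ X))) =
      (T * δ ^ 2) * (γ * (4 * L)) + T * (δ ^ 3 * (2 ^ Fintype.card (X ⊕ X) *
        (Fintype.card X : ℝ) ^ Fintype.card (X ⊕ X))) := by ring
  rw [e1, hT]
  linarith

open Classical in
/-- most points are forrelated -/
theorem wD_good [Nonempty X] (hH : Orth H γ) {ε δ : ℝ} {T : ℕ} (hε : 0 < ε) (hε1 : ε ≤ 1)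
    (hs : Small (Wf H) δ) (hT : T * δ ^ 2 = ε) :
    ∑ a, (if Fo H a < ε / 4 then (1 : ℝ) else 0) * wD (Wf H) δ T a ≤
      4 * (Fintype.card X : ℝ) * Real.exp (-(1 / (8 * ε))) +
        16 / (9 * ε ^ 2) * (3 / Fintype.card X) := by
  have hN1 : 1 ≤ Fintype.card X := Fintype.card_pos
  have hN : (1 : ℝ) ≤ Fintype.card X := by exact_mod_cast hN1
  rw [sum_wD]
  have h1 : ∀ v, Cube v → ml (fun a => if Fo H a < ε / 4 then (1 : ℝ) else 0) v ≤
      (if ∀ i, |v i| ≤ 1 / 2 then (0 : ℝ) else 1) + (16 / (9 * ε ^ 2)) *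
      ((if ∀ i, |v i| ≤ 1 / 2 then (ml (Fo H) v + (0 : ℕ) * δ ^ 2 - ε) ^ 2 +
        (0 : ℕ) * (δ ^ 2 / Fintype.card X) else 0) + 2 / Fintype.card X) := by
    intro v hv
    by_cases hb : ∀ i, |v i| ≤ 1 / 2
    · rw [if_pos hb, if_pos hb]
      have h2 : ml (fun a => if Fo H a < ε / 4 then (1 : ℝ) else 0) v ≤
          ml (fun a => (16 / (9 * ε ^ 2)) * (Fo H a ^ 2 + ((-(2 * ε)) * Fo H a + ε ^ 2))) v := by
        refine ml_mono (fun a => ?_) hv
        have h3 : Fo H a ^ 2 + ((-(2 * ε)) * Fo H a + ε ^ 2) = (ε - Fo H a) ^ 2 := by ring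
        rw [h3]
        split_ifs with h4
        · have h5 : (3 * ε / 4) ^ 2 ≤ (ε - Fo H a) ^ 2 :=
            pow_le_pow_left₀ (by positivity) (by linarith) 2
          have h6 := mul_le_mul_of_nonneg_left h5 (by positivity : (0 : ℝ) ≤ 16 / (9 * ε ^ 2))
          refine le_trans (le_of_eq ?_) h6
          field_simp
          norm_num
        · positivity
      refine h2.trans ?_
      rw [ml_smul, ml_add', ml_add', ml_smul, ml_const]
      have h3 := ml_Fo_sq hH hv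
      rw [zero_add]
      refine mul_le_mul_of_nonneg_left ?_ (by positivity)
      push_cast
      nlinarith
    · rw [if_neg hb, if_neg hb]
      have h2 : ml (fun a => if Fo H a < ε / 4 then (1 : ℝ) else 0) v ≤ ml (fun _ => 1) v :=
        ml_mono (fun a => by split_ifs <;> norm_num) hv
      rw [ml_const] at h2
      have h3 : (0 : ℝ) ≤ (16 / (9 * ε ^ 2)) * (0 + 2 / Fintype.card X) := by positivity
      linarith
  have h2 := Sn_mono hs T h1 0 cube_zero
  refine h2.trans ?_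
  rw [Sn_add T, Sn_smul T, Sn_add T, Sn_const]
  have h3 := Sn_sq hH hs ε T 0
  have h4 := Sn_out (W := Wf H) hs (gram_row hH) (lam := 1 / (2 * ε)) (by positivity) T
  have h5 : Real.exp (T * ((1 / (2 * ε) * δ) ^ 2 / 2)) * (Fintype.card (X ⊕ X) *
      (2 * Real.exp (-(1 / (2 * ε)) / 2))) = 4 * (Fintype.card X : ℝ) * Real.exp (-(1 / (8 * ε))) := by
    have h6 : (T : ℝ) * ((1 / (2 * ε) * δ) ^ 2 / 2) = 1 / (8 * ε) := by
      calc (T : ℝ) * ((1 / (2 * ε) * δ) ^ 2 / 2) = (T * δ ^ 2) * (1 / (8 * ε ^ 2)) := by ring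
        _ = 1 / (8 * ε) := by rw [hT]; field_simp
    have h7 : Real.exp (-(1 / (8 * ε))) = Real.exp (1 / (8 * ε)) *
        Real.exp (-(1 / (2 * ε)) / 2) := by
      rw [← Real.exp_add]
      congr 1
      field_simp
      ring
    rw [h6, h7, Fintype.card_sum]
    push_cast
    ring
  rw [h5] at h4
  have h8 : (((T + 0 : ℕ) : ℝ) * δ ^ 2 - ε) ^ 2 + ((T + 0 : ℕ) : ℝ) * (δ ^ 2 / (Fintype.card X : ℝ)) ≤
      1 / Fintype.card X := by
    rw [add_zero, hT, sub_self]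
    have : (T : ℝ) * (δ ^ 2 / (Fintype.card X : ℝ)) = (T * δ ^ 2) / Fintype.card X := by ring
    rw [this, hT]
    have h9 : ε / (Fintype.card X : ℝ) ≤ 1 / Fintype.card X :=
      div_le_div_of_nonneg_right hε1 (by positivity)
    linarith
  have h9 := h3.trans h8
  have h10 : (3 : ℝ) / Fintype.card X = 1 / Fintype.card X + 2 / Fintype.card X := by ring
  rw [h10]
  refine add_le_add h4 (mul_le_mul_of_nonneg_left ?_ (by positivity))
  simp only
  linarith

open Classical in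
/-- most pairs of functions are not forrelated -/
theorem unif_good [Nonempty X] (hH : Orth H γ) {η : ℝ} (hη : 0 < η) :
    ml (fun a => if |Fo H a| ≤ η then (0 : ℝ) else 1) 0 ≤ 1 / (Fintype.card X * η ^ 2) := by
  have hN1 : 1 ≤ Fintype.card X := Fintype.card_pos
  have hN : (1 : ℝ) ≤ Fintype.card X := by exact_mod_cast hN1
  have h2 := ml_mono (F := fun a => if |Fo H a| ≤ η then (0 : ℝ) else 1)
    (G := fun a => (1 / η ^ 2) * Fo H a ^ 2) (fun a => ?_) (v := 0) cube_zero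
  · rw [ml_smul, avg_Fo_sq hH] at h2
    refine h2.trans (le_of_eq ?_)
    field_simp
  · split_ifs with h4
    · positivity
    · rw [div_mul_eq_mul_div, one_mul, le_div_iff₀ (by positivity), one_mul, ← sq_abs (Fo H a)]
      exact pow_le_pow_left₀ hη.le (not_le.1 h4).le 2

theorem num_l {l : ℕ} (hl : 40 ≤ l) : 262144 * l ^ 2 ≤ 2 ^ l := by
  induction l, hl using Nat.le_induction with
  | base => norm_num
  | succ l hl ih =>
    rw [pow_succ 2]
    nlinarith

open Classical in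
/-- conditioning -/
theorem cond_exists {Y : Type*} [Fintype Y] (w : Y → ℝ) (hw : ∀ a, 0 ≤ w a) (hw1 : ∑ a, w a = 1)
    (G : Y → Prop) {p : ℝ} (hp : ∑ a, (if G a then 0 else w a) ≤ p) (hp1 : p < 1) :
    ∃ P : Y → ℝ, (∀ a, 0 ≤ P a) ∧ ∑ a, P a = 1 ∧ (∀ a, P a ≠ 0 → G a) ∧
      ∀ f : Y → ℝ, (∀ a, 0 ≤ f a) → (∀ a, f a ≤ 1) →
        |∑ a, P a * f a - ∑ a, w a * f a| ≤ p := by
  set Z : ℝ := ∑ a, (if G a then w a else 0) with hZ
  have hZ1 : Z + ∑ a, (if G a then 0 else w a) = 1 := by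
    rw [hZ, ← sum_add_distrib, ← hw1]
    exact sum_congr rfl fun a _ => by split_ifs <;> simp
  have hZ0 : 0 < Z := by linarith
  refine ⟨fun a => (if G a then w a else 0) / Z, fun a => ?_, ?_, fun a ha => ?_, fun f h0 h1 => ?_⟩
  · have : 0 ≤ (if G a then w a else 0) := by
      split_ifs
      · exact hw a
      · exact le_rfl
    positivity
  · rw [← sum_div, div_self hZ0.ne']
  · by_contra hG
    apply ha
    simp only [if_neg hG, zero_div]
  · have e1 : ∑ a, (if G a then w a else 0) / Z * f a - ∑ a, w a * f a =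
        ∑ a, (if G a then w a * f a else 0) * (1 / Z - 1) - ∑ a, (if G a then 0 else w a * f a) := by
      rw [← sum_sub_distrib, ← sum_sub_distrib]
      refine sum_congr rfl fun a _ => ?_
      split_ifs
      · field_simp
        ring
      · ring
    have h2 : 0 ≤ ∑ a, (if G a then w a * f a else 0) * (1 / Z - 1) := by
      refine sum_nonneg fun a _ => mul_nonneg ?_ ?_
      · split_ifs
        · exact mul_nonneg (hw a) (h0 a)
        · exact le_rfl
      · have : 1 ≤ 1 / Z := by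
          rw [le_div_iff₀ hZ0]
          have : 0 ≤ ∑ a, (if G a then 0 else w a) := sum_nonneg fun a _ => by
            split_ifs
            · exact le_rfl
            · exact hw a
          linarith
        linarith
    have h3 : ∑ a, (if G a then w a * f a else 0) * (1 / Z - 1) ≤ p := by
      rw [← sum_mul]
      have h4 : ∑ a, (if G a then w a * f a else 0) ≤ Z := by
        rw [hZ]
        refine sum_le_sum fun a _ => ?_
        split_ifs
        · exact mul_le_of_le_one_right (hw a) (h1 a)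
        · exact le_rfl
      have h5 : 0 ≤ 1 / Z - 1 := by
        have : 1 ≤ 1 / Z := by
          rw [le_div_iff₀ hZ0]
          have : 0 ≤ ∑ a, (if G a then 0 else w a) := sum_nonneg fun a _ => by
            split_ifs
            · exact le_rfl
            · exact hw a
          linarith
        linarith
      refine (mul_le_mul_of_nonneg_right h4 h5).trans ?_
      have : Z * (1 / Z - 1) = 1 - Z := by field_simp
      rw [this]
      linarith
    have h4 : 0 ≤ ∑ a, (if G a then 0 else w a * f a) := sum_nonneg fun a _ => by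
      split_ifs
      · exact le_rfl
      · exact mul_nonneg (hw a) (h0 a)
    have h5 : ∑ a, (if G a then 0 else w a * f a) ≤ p := by
      refine le_trans (sum_le_sum fun a _ => ?_) hp
      split_ifs
      · exact le_rfl
      · exact mul_le_of_le_one_right (hw a) (h1 a)
    rw [e1, abs_le]
    constructor <;> linarith

/-- the bound for the distance of the two distributions -/
noncomputable def del (l : ℕ) (L : ℝ) : ℝ := 70000 * (l : ℝ) ^ 2 * L / Real.sqrt 2 ^ l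

/-- **The two distributions.** -/
theorem exists_dist {l : ℕ} (hl : 40 ≤ l) :
    ∃ P Q : ((Fin l → Bool) ⊕ (Fin l → Bool) → Bool) → ℝ,
      (∀ a, 0 ≤ P a) ∧ ∑ a, P a = 1 ∧ (∀ a, P a ≠ 0 → 1 / (64 * (l : ℝ)) ≤ Fo (Hm l) a) ∧
      (∀ a, 0 ≤ Q a) ∧ ∑ a, Q a = 1 ∧ (∀ a, Q a ≠ 0 → |Fo (Hm l) a| ≤ 1 / (256 * (l : ℝ))) ∧
      ∀ (h : ((Fin l → Bool) ⊕ (Fin l → Bool) → Bool) → Bool) (L : ℝ), 1 ≤ L →
        (∀ ρ, lv 2 (br (rs h ρ)) 0 ≤ L) →
        |∑ a, P a * br h a - ∑ a, Q a * br h a| ≤ del l L := by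
  classical
  have hl1 : (40 : ℝ) ≤ l := by exact_mod_cast hl
  have hH := orth_Hm l
  have hcard : (Fintype.card (Fin l → Bool) : ℝ) = 2 ^ l := by simp
  have hnum : 262144 * (l : ℝ) ^ 2 ≤ 2 ^ l := by exact_mod_cast num_l hl
  have h2l : (0 : ℝ) < 2 ^ l := by positivity
  set ε : ℝ := 1 / (16 * l) with hε
  have hε0 : 0 < ε := by positivity
  have hε1 : ε ≤ 1 := by
    rw [hε, div_le_one (by positivity)]
    linarith
  obtain ⟨T, δ, h0, h1, hs, hT, hτ⟩ := walk_exists hH hε0 (τ := 1 / 2 ^ l) (by positivity)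
  have hgood := wD_good hH hε0 hε1 hs hT
  have hexp : 4 * (Fintype.card (Fin l → Bool) : ℝ) * Real.exp (-(1 / (8 * ε))) +
      16 / (9 * ε ^ 2) * (3 / Fintype.card (Fin l → Bool)) ≤ 1370 * (l : ℝ) ^ 2 / 2 ^ l := by
    rw [hcard]
    have e1 : 1 / (8 * ε) = (l : ℝ) * 2 := by
      rw [hε]
      field_simp
      norm_num
    have e2 : 16 / (9 * ε ^ 2) * (3 / (2 : ℝ) ^ l) = 4096 / 3 * (l : ℝ) ^ 2 / 2 ^ l := by
      rw [hε]
      field_simp
      norm_num
    rw [e1, e2, Real.exp_neg, Real.exp_nat_mul]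
    have e3 : (2 : ℝ) ^ l * 2 ^ l ≤ Real.exp 2 ^ l := by
      rw [← mul_pow]
      refine pow_le_pow_left₀ (by norm_num) ?_ l
      have h5 := Real.add_one_le_exp (1 : ℝ)
      have h6 : Real.exp 2 = Real.exp 1 * Real.exp 1 := by
        rw [← Real.exp_add]; norm_num
      rw [h6]
      nlinarith
    have e4 : 4 * (2 : ℝ) ^ l * (Real.exp 2 ^ l)⁻¹ ≤ 4 / 2 ^ l := by
      rw [← div_eq_mul_inv, div_le_div_iff₀ (by positivity) (by positivity)]
      nlinarith
    have e5 : 4 / (2 : ℝ) ^ l ≤ 3 * (l : ℝ) ^ 2 / 2 ^ l :=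
      div_le_div_of_nonneg_right (by nlinarith) h2l.le
    have e6 : 1370 * (l : ℝ) ^ 2 / 2 ^ l = 3 * (l : ℝ) ^ 2 / 2 ^ l + 1367 * (l : ℝ) ^ 2 / 2 ^ l := by
      ring
    have e7 : 4096 / 3 * (l : ℝ) ^ 2 / 2 ^ l ≤ 1367 * (l : ℝ) ^ 2 / 2 ^ l :=
      div_le_div_of_nonneg_right (by nlinarith) h2l.le
    linarith
  have hp : 1370 * (l : ℝ) ^ 2 / 2 ^ l < 1 := by
    rw [div_lt_one h2l]
    nlinarith
  obtain ⟨P, hP0, hP1, hPG, hP⟩ := cond_exists (wD (Wf (Hm l)) δ T) (wD_nonneg hs T)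
    (sum_wD_one T) (fun a => 1 / (64 * (l : ℝ)) ≤ Fo (Hm l) a)
    (p := 1370 * (l : ℝ) ^ 2 / 2 ^ l) (by
      refine le_trans (le_of_eq ?_) (hgood.trans hexp)
      refine sum_congr rfl fun a _ => ?_
      have e1 : ε / 4 = 1 / (64 * l) := by
        rw [hε]
        field_simp
        norm_num
      rw [e1]
      by_cases hc : 1 / (64 * (l : ℝ)) ≤ Fo (Hm l) a
      · rw [if_pos hc, if_neg (not_lt.2 hc), zero_mul]
      · rw [if_neg hc, if_pos (not_le.1 hc), one_mul]) hp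
  set U : ((Fin l → Bool) ⊕ (Fin l → Bool) → Bool) → ℝ := fun _ =>
    1 / 2 ^ Fintype.card ((Fin l → Bool) ⊕ (Fin l → Bool)) with hU
  have hUs : ∀ F : ((Fin l → Bool) ⊕ (Fin l → Bool) → Bool) → ℝ, ∑ a, U a * F a = ml F 0 := by
    intro F
    rw [ml_zero, sum_div]
    exact sum_congr rfl fun a _ => by rw [hU]; ring
  have hq : 65536 * (l : ℝ) ^ 2 / 2 ^ l < 1 := by
    rw [div_lt_one h2l]
    nlinarith
  obtain ⟨Q, hQ0, hQ1, hQG, hQ⟩ := cond_exists U (fun a => by rw [hU]; positivity)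
    (by
      have := hUs (fun _ => 1)
      rw [ml_const] at this
      simpa using this) (fun a => |Fo (Hm l) a| ≤ 1 / (256 * (l : ℝ)))
    (p := 65536 * (l : ℝ) ^ 2 / 2 ^ l) (by
      have h5 := unif_good hH (η := 1 / (256 * (l : ℝ))) (by positivity)
      rw [← hUs, hcard] at h5
      refine le_trans (le_of_eq ?_) (h5.trans (le_of_eq ?_))
      · refine sum_congr rfl fun a _ => ?_
        split_ifs <;> simp
      · field_simp
        norm_num) hq
  refine ⟨P, Q, hP0, hP1, hPG, hQ0, hQ1, hQG, fun h L hL1 hL => ?_⟩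
  have hb0 : ∀ a, 0 ≤ br h a := fun a => by unfold br; split_ifs <;> norm_num
  have hb1 : ∀ a, br h a ≤ 1 := fun a => by unfold br; split_ifs <;> norm_num
  have h5 := abs_le.1 (hP (br h) hb0 hb1)
  have h6 := abs_le.1 (hQ (br h) hb0 hb1)
  have h7 := abs_le.1 (wD_close hH h0 h1 hs hT hτ h (by linarith : (0 : ℝ) ≤ L) hL)
  rw [hUs] at h6
  have e1 : ∑ a, wD (Wf (Hm l)) δ T a * br h a = ∑ a, br h a * wD (Wf (Hm l)) δ T a :=
    sum_congr rfl fun a _ => mul_comm _ _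
  rw [e1] at h5
  have h8 : ε * (1 / Real.sqrt 2 ^ l * (4 * L)) + 1 / 2 ^ l + 1370 * (l : ℝ) ^ 2 / 2 ^ l +
      65536 * (l : ℝ) ^ 2 / 2 ^ l ≤ del l L := by
    have hsq : (1 : ℝ) / 2 ^ l ≤ 1 / Real.sqrt 2 ^ l := by
      refine one_div_le_one_div_of_le (pow_pos sqrt2_pos l) (pow_le_pow_left₀ sqrt2_pos.le ?_ l)
      rw [Real.sqrt_le_iff]
      norm_num
    have h9 : ε * (1 / Real.sqrt 2 ^ l * (4 * L)) ≤ (1 * L) * (1 / Real.sqrt 2 ^ l) := by
      have : ε ≤ 1 / 4 := by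
        rw [hε]
        refine one_div_le_one_div_of_le (by norm_num) (by linarith)
      have h10 : (0 : ℝ) ≤ L * (1 / Real.sqrt 2 ^ l) := by
        have := pow_pos sqrt2_pos l
        positivity
      nlinarith
    have h10 : 1 / 2 ^ l + 1370 * (l : ℝ) ^ 2 / 2 ^ l + 65536 * (l : ℝ) ^ 2 / 2 ^ l =
        (1 + 66906 * (l : ℝ) ^ 2) * (1 / 2 ^ l) := by ring
    have h11 : (1 + 66906 * (l : ℝ) ^ 2) * (1 / 2 ^ l) ≤
        (1 + 66906 * (l : ℝ) ^ 2) * (1 / Real.sqrt 2 ^ l) :=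
      mul_le_mul_of_nonneg_left hsq (by positivity)
    have h12 : del l L = (70000 * (l : ℝ) ^ 2 * L) * (1 / Real.sqrt 2 ^ l) := by
      unfold del
      ring
    rw [h12]
    have h13 : (0 : ℝ) < 1 / Real.sqrt 2 ^ l := by
      have := pow_pos sqrt2_pos l
      positivity
    have h14 : L + (1 + 66906 * (l : ℝ) ^ 2) ≤ 70000 * (l : ℝ) ^ 2 * L := by
      have : (1600 : ℝ) ≤ (l : ℝ) ^ 2 := by nlinarith
      nlinarith
    have h15 := mul_le_mul_of_nonneg_right h14 h13.le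
    linarith
  rw [abs_le]
  constructor <;> linarith [h5.1, h5.2, h6.1, h6.2, h7.1, h7.2]

end Pool.Agent.H9x.RT
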