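import Pool.Agent.H9x.RT.Had
import Pool.Agent.H622R2.CoNP

/-!
# Languages given by the forrelation of oracle functions are in `BQP`
-/

set_option autoImplicit false

namespace Pool.Agent.H9x.RT

open Finset Pool.Agent.NPC Pool.Agent.H9x.Q Pool.Agent.H620R2.Gauge

section

variable {α : Type} [TEnc α]

theorem poly_had {q : α → ℕ} (h : Poly q) : Poly (fun a => Gate.had (q a)) :=
  Poly.of_toT (f := fun a => Gate.had (q a)) (Poly.toT' (Poly.inl (γ := (ℕ × ℕ) ⊕ (List ℕ × ℕ))
    (Poly.inl (γ := ℕ) h)))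

theorem poly_tgate {q : α → ℕ} (h : Poly q) : Poly (fun a => Gate.tgate (q a)) :=
  Poly.of_toT (f := fun a => Gate.tgate (q a)) (Poly.toT' (Poly.inl (γ := (ℕ × ℕ) ⊕ (List ℕ × ℕ))
    (Poly.inr (β := ℕ) h)))

theorem poly_cnot {q r : α → ℕ} (h : Poly q) (h' : Poly r) :
    Poly (fun a => Gate.cnot (q a) (r a)) :=
  Poly.of_toT (f := fun a => Gate.cnot (q a) (r a)) (Poly.toT' (Poly.inr (β := ℕ ⊕ ℕ)
    (Poly.inl (γ := List ℕ × ℕ) (Poly.pair h h'))))

theorem poly_query {l : α → List ℕ} {r : α → ℕ} (h : Poly l) (h' : Poly r) :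
    Poly (fun a => Gate.query (l a) (r a)) :=
  Poly.of_toT (f := fun a => Gate.query (l a) (r a)) (Poly.toT' (Poly.inr (β := ℕ ⊕ ℕ)
    (Poly.inr (β := ℕ × ℕ) (Poly.pair h h'))))

theorem poly_cidx {n : α → ℕ} {b : α → Bool} (hn : Poly n) (hb : Poly b) :
    Poly (fun a => cidx (n a) (b a)) := by
  have := Poly.cond hb (Poly.add hn (NPC.Poly.const 1)) (Poly.add hn (NPC.Poly.const 4))
  refine this.congr fun a => ?_
  unfold cidx
  cases b a <;> rfl

theorem poly_xg {q : α → ℕ} (h : Poly q) : Poly (fun a => xg (q a)) :=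
  Poly.cons (poly_had h) (Poly.cons (poly_tgate h) (Poly.cons (poly_tgate h)
    (Poly.cons (poly_tgate h) (Poly.cons (poly_tgate h) (Poly.cons (poly_had h)
      (NPC.Poly.const []))))))

theorem poly_prep {n : α → ℕ} (hn : Poly n) : Poly (fun a => prep (n a)) :=
  Poly.append (poly_xg (Poly.add hn (NPC.Poly.const 1))) (Poly.append
    (poly_xg (Poly.add hn (NPC.Poly.const 2))) (Poly.cons (poly_had (Poly.add hn (NPC.Poly.const 2)))
      (NPC.Poly.const [])))

theorem poly_hl {n K : α → ℕ} (hn : Poly n) (hK : UPoly K) : Poly (fun a => hl (n a) (K a)) := by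
  unfold hl
  exact NPC.Poly.map (UPoly.range hK) (poly_had (Poly.add (Poly.add (hn.comp (Poly.fst Poly.id))
    (NPC.Poly.const 5)) (Poly.snd Poly.id)))

theorem poly_qs {n l j : α → ℕ} {pre : α → List Bool} (side : Bool) (hn : UPoly n)
    (hpre : Poly pre) (hl : UPoly l) (hj : Poly j) :
    Poly (fun a => qs (n a) (pre a) side (l a) (j a)) := by
  unfold qs
  refine Poly.append (NPC.Poly.map hpre (poly_cidx (hn.toPoly.comp (Poly.fst Poly.id))
    (Poly.snd Poly.id))) (Poly.append (UPoly.range hn) (Poly.cons (poly_cidx hn.toPoly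
    (NPC.Poly.const side)) (NPC.Poly.map (UPoly.range hl) ?_)))
  exact Poly.add (Poly.add (hn.toPoly.comp (Poly.fst Poly.id)) (NPC.Poly.const 5))
    (Poly.add (Poly.snd Poly.id) (Poly.mul (hl.toPoly.comp (Poly.fst Poly.id))
      (hj.comp (Poly.fst Poly.id))))

theorem poly_pq {n l k : α → ℕ} {pre : α → List Bool} (side : Bool) (hn : UPoly n)
    (hpre : Poly pre) (hl : UPoly l) (hk : UPoly k) :
    Poly (fun a => pq (n a) (pre a) side (l a) (k a)) := by
  unfold pq
  refine NPC.Poly.map (UPoly.range hk) (poly_query (poly_qs side (hn.comp (Poly.fst Poly.id))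
    (hpre.comp (Poly.fst Poly.id)) (hl.comp (Poly.fst Poly.id)) (Poly.snd Poly.id)) ?_)
  exact Poly.add (hn.toPoly.comp (Poly.fst Poly.id)) (NPC.Poly.const 2)

theorem poly_fin {n K : α → ℕ} {ppre : α → List Bool} (hn : UPoly n)
    (hppre : Poly ppre) (hK : UPoly K) :
    Poly (fun a => fin (n a) (ppre a) (K a)) := by
  unfold fin fq
  refine Poly.cons (poly_cnot (NPC.Poly.const 0) (Poly.add hn.toPoly (NPC.Poly.const 3)))
    (Poly.cons (poly_cnot (Poly.add hn.toPoly (NPC.Poly.const 3)) (NPC.Poly.const 0))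
      (Poly.cons (poly_query (Poly.append (NPC.Poly.map hppre (poly_cidx
        (hn.toPoly.comp (Poly.fst Poly.id)) (Poly.snd Poly.id))) (NPC.Poly.map (UPoly.range hK) ?_))
        (NPC.Poly.const 0)) (NPC.Poly.const [])))
  exact Poly.add (Poly.add (hn.toPoly.comp (Poly.fst Poly.id)) (NPC.Poly.const 5)) (Poly.snd Poly.id)

theorem poly_circ {n l k : α → ℕ} {pre ppre : α → List Bool} (hn : UPoly n)
    (hpre : Poly pre) (hppre : Poly ppre) (hl : UPoly l) (hk : UPoly k) :
    Poly (fun a => circ (n a) (pre a) (ppre a) (l a) (k a)) := by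
  unfold circ
  have hK : UPoly (fun a => k a * l a) := UPoly.mul hk hl
  exact Poly.append (poly_prep hn.toPoly) (Poly.append (poly_hl hn.toPoly hK) (Poly.append
    (poly_pq false hn hpre hl hk) (Poly.append (poly_hl hn.toPoly hK) (Poly.append
    (poly_pq true hn hpre hl hk) (Poly.append (poly_hl hn.toPoly hK) (poly_fin hn hppre hK))))))

end

/-- the forrelation of the two functions given by the oracle strings which start with `w` -/
noncomputable def FoA (A : Oracle) (w : List Bool) (l : ℕ) : ℝ :=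
  Fo (Hm l) (two (fun v => A (w ++ (false :: List.ofFn v))) (fun v => A (w ++ (true :: List.ofFn v))))

theorem isBQP_of_fo {A : Oracle} {L : Set (List Bool)} (pre ppre : List Bool → List Bool)
    (l : Polynomial ℕ)
    (hpre : Poly fun u : List Bool => pre u) (hppre : Poly fun u : List Bool => ppre u)
    (hpre' : ∀ u v : List Bool, u.length = v.length → pre u = pre v)
    (hppre' : ∀ u v : List Bool, u.length = v.length → ppre u = ppre v)
    (hl1 : ∀ n, 1 ≤ l.eval n)
    (hA : ∀ (x : List Bool) (k : ℕ) (u : Fin (k * l.eval x.length) → Bool),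
      A (ppre x ++ List.ofFn u) = true ↔ ∃ j, cpy u j = fun _ => false)
    (hL : ∀ x : List Bool,
      (x ∈ L → 1 / (64 * ((l.eval x.length : ℕ) : ℝ)) ≤ FoA A (pre x ++ x) (l.eval x.length)) ∧
      (x ∉ L → |FoA A (pre x ++ x) (l.eval x.length)| ≤ 1 / (256 * ((l.eval x.length : ℕ) : ℝ)))) :
    IsBQP A L := by
  set k : Polynomial ℕ := Polynomial.C 8192 * l ^ 2 with hk
  have hke : ∀ n, k.eval n = 8192 * (l.eval n) ^ 2 := fun n => by
    rw [hk]; simp
  have hlen : UPoly (fun u : List Bool => u.length) := UPoly.length Poly.id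
  refine ⟨⟨fun n => circ n (pre (List.replicate n false)) (ppre (List.replicate n false))
    (l.eval n) (k.eval n), ?_, Polynomial.C 4 + k * l⟩, fun x => ?_⟩
  · refine polyTime_bits (poly_circ hlen ?_ ?_ (hlen.eval l) (hlen.eval k))
    · exact hpre.congr fun u => hpre' _ _ (by simp)
    · exact hppre.congr fun u => hppre' _ _ (by simp)
  · set n := x.length with hn
    have hacc : QFamily.acc ⟨fun n => circ n (pre (List.replicate n false))
        (ppre (List.replicate n false)) (l.eval n) (k.eval n),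
        polyTime_bits (poly_circ hlen (hpre.congr fun u => hpre' _ _ (by simp))
          (hppre.congr fun u => hppre' _ _ (by simp)) (hlen.eval l) (hlen.eval k)),
        Polynomial.C 4 + k * l⟩ A x = 1 - (1 - FoA A (pre x ++ x) (l.eval n) ^ 2) ^ (k.eval n) := by
      unfold QFamily.acc
      simp only
      rw [← hn, hpre' (List.replicate n false) x (by simp [hn]),
        hppre' (List.replicate n false) x (by simp [hn])]
      have hm : n + 1 + (Polynomial.C 4 + k * l).eval n = n + 5 + k.eval n * l.eval n := by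
        simp only [Polynomial.eval_add, Polynomial.eval_C, Polynomial.eval_mul]
        ring
      rw [hm, prob_eq hn.symm A (pre x) (ppre x) (hA x (k.eval n))]
      unfold FoA
      simp only [List.append_assoc]
      rfl
    have hl0 : (1 : ℝ) ≤ ((l.eval n : ℕ) : ℝ) := by exact_mod_cast hl1 n
    have hkr : ((k.eval n : ℕ) : ℝ) = 8192 * ((l.eval n : ℕ) : ℝ) ^ 2 := by
      rw [hke]; push_cast; ring
    have habs : |FoA A (pre x ++ x) (l.eval n)| ≤ 1 := abs_Fo_le (orth_Hm _) _
    set φ := FoA A (pre x ++ x) (l.eval n) with hφ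
    have hsq1 : φ ^ 2 ≤ 1 := by
      rw [← sq_abs]
      exact pow_le_one₀ (abs_nonneg _) habs
    constructor
    · intro hx
      have h1 := (hL x).1 hx
      refine le_trans ?_ (le_of_eq hacc.symm)
      have h2 : (1 / (64 * ((l.eval n : ℕ) : ℝ))) ^ 2 ≤ φ ^ 2 :=
        pow_le_pow_left₀ (by positivity) h1 2
      have h3 : (1 - φ ^ 2) ^ (k.eval n) ≤ Real.exp (-2) := by
        have h4 : 1 - φ ^ 2 ≤ Real.exp (-φ ^ 2) := by
          have := Real.add_one_le_exp (-φ ^ 2)
          linarith
        calc (1 - φ ^ 2) ^ (k.eval n) ≤ Real.exp (-φ ^ 2) ^ (k.eval n) :=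
              pow_le_pow_left₀ (by linarith) h4 _
          _ = Real.exp (((k.eval n : ℕ) : ℝ) * (-φ ^ 2)) := by rw [← Real.exp_nat_mul]
          _ ≤ Real.exp (-2) := by
              apply Real.exp_le_exp.2
              rw [hkr]
              have h5 : 8192 * ((l.eval n : ℕ) : ℝ) ^ 2 * (1 / (64 * ((l.eval n : ℕ) : ℝ))) ^ 2 = 2 := by
                field_simp
                norm_num
              nlinarith [mul_le_mul_of_nonneg_left h2
                (by positivity : (0 : ℝ) ≤ 8192 * ((l.eval n : ℕ) : ℝ) ^ 2)]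
      have h6 : Real.exp (-2) ≤ 1 / 3 := by
        rw [Real.exp_neg, inv_eq_one_div]
        refine one_div_le_one_div_of_le (by norm_num) ?_
        have := Real.add_one_le_exp (2 : ℝ)
        linarith
      linarith
    · intro hx
      have h1 := (hL x).2 hx
      refine le_trans (le_of_eq hacc) ?_
      have h2 : φ ^ 2 ≤ (1 / (256 * ((l.eval n : ℕ) : ℝ))) ^ 2 := by
        rw [← sq_abs]
        exact pow_le_pow_left₀ (abs_nonneg _) h1 2
      have h3 : 1 - ((k.eval n : ℕ) : ℝ) * φ ^ 2 ≤ (1 - φ ^ 2) ^ (k.eval n) := by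
        have := one_add_mul_le_pow (a := -φ ^ 2) (by linarith) (k.eval n)
        have e : (1 + -φ ^ 2) = 1 - φ ^ 2 := by ring
        rw [e] at this
        linarith
      have h4 : ((k.eval n : ℕ) : ℝ) * φ ^ 2 ≤ 1 / 8 := by
        rw [hkr]
        have h5 : 8192 * ((l.eval n : ℕ) : ℝ) ^ 2 * (1 / (256 * ((l.eval n : ℕ) : ℝ))) ^ 2 = 1 / 8 := by
          field_simp
          norm_num
        calc 8192 * ((l.eval n : ℕ) : ℝ) ^ 2 * φ ^ 2 ≤
            8192 * ((l.eval n : ℕ) : ℝ) ^ 2 * (1 / (256 * ((l.eval n : ℕ) : ℝ))) ^ 2 :=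
              mul_le_mul_of_nonneg_left h2 (by positivity)
          _ = 1 / 8 := h5
      linarith

end Pool.Agent.H9x.RT
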