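import Mathlib

/-!
# A hybrid argument for contents which depend on truth values
-/

set_option autoImplicit false

namespace Pool.Agent.H9x.RT

open Finset

section Hyb

variable {K : Type*} [DecidableEq K] {W : Type*} {Z : K → Type*} [∀ c, Fintype (Z c)]

/-- the content `u` if the truth value is true, the content `v` if not -/
def mkp (u v : W) : Bool → W := fun t => if t then u else v

variable (P Q : ∀ c, Z c → ℝ) (enc : ∀ c, Z c → W)

/-- the expectation over the contents of the blocks in a list -/
noncomputable def EE : List K → ((K → Bool → W) → ℝ) → (K → Bool → W) → ℝ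
  | [], F, D => F D
  | c :: C, F, D => ∑ z, ∑ z', P c z * (Q c z' *
      EE C F (Function.update D c (mkp (enc c z) (enc c z'))))

/-- the expectation over the collapsed contents of the blocks in a list -/
noncomputable def EC : List K → ((K → Bool → W) → ℝ) → (K → Bool → W) → ℝ
  | [], F, D => F D
  | c :: C, F, D => ∑ z', Q c z' * EC C F (Function.update D c (mkp (enc c z') (enc c z')))

variable {P Q enc}

theorem EC_upd (F : (K → Bool → W) → ℝ) (c : K) (v : Bool → W) : ∀ (C : List K) (D : K → Bool → W),
    c ∉ C → EC Q enc C F (Function.update D c v) =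
      EC Q enc C (fun D' => F (Function.update D' c v)) D
  | [], D, _ => rfl
  | c' :: C, D, h => by
    simp only [EC]
    refine sum_congr rfl fun z' _ => ?_
    have hne : c ≠ c' := fun h' => h (h' ▸ List.mem_cons_self)
    rw [Function.update_comm hne, EC_upd F c v C _ fun h' => h (List.mem_cons_of_mem _ h')]

theorem EC_sum {ι : Type*} (s : Finset ι) (w : ι → ℝ) (F : ι → (K → Bool → W) → ℝ) :
    ∀ (C : List K) (D : K → Bool → W),
    EC Q enc C (fun D' => ∑ i ∈ s, w i * F i D') D = ∑ i ∈ s, w i * EC Q enc C (F i) D
  | [], D => rfl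
  | c' :: C, D => by
    simp only [EC]
    rw [sum_congr rfl fun z' _ => by rw [EC_sum s w F C _, mul_sum], sum_comm]
    refine sum_congr rfl fun i _ => ?_
    rw [mul_sum]
    exact sum_congr rfl fun z' _ => by ring

theorem EC_sub (F G : (K → Bool → W) → ℝ) : ∀ (C : List K) (D : K → Bool → W),
    EC Q enc C (fun D' => F D' - G D') D = EC Q enc C F D - EC Q enc C G D
  | [], D => rfl
  | c' :: C, D => by
    simp only [EC]
    rw [← sum_sub_distrib]
    refine sum_congr rfl fun z' _ => ?_
    rw [EC_sub F G C]
    ring

theorem EC_le (hQ : ∀ c z, 0 ≤ Q c z) (hQ1 : ∀ c, ∑ z, Q c z = 1) {G : (K → Bool → W) → ℝ}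
    {d : ℝ} : ∀ (C : List K) (D : K → Bool → W),
    (∀ D' : K → Bool → W, (∀ c ∈ C, D' c true = D' c false) → (∀ c ∉ C, D' c = D c) →
      |G D'| ≤ d) → |EC Q enc C G D| ≤ d
  | [], D, h => h D (fun c hc => absurd hc List.not_mem_nil) fun c _ => rfl
  | c' :: C, D, h => by
    simp only [EC]
    refine (abs_sum_le_sum_abs _ _).trans ?_
    have h1 : ∀ z', |Q c' z' * EC Q enc C G (Function.update D c' (mkp (enc c' z') (enc c' z')))| ≤
        Q c' z' * d := by
      intro z'
      rw [abs_mul, abs_of_nonneg (hQ c' z')]
      refine mul_le_mul_of_nonneg_left (EC_le hQ hQ1 C _ fun D' h1 h2 => h D' ?_ ?_) (hQ c' z')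
      · intro c hc
        by_cases hc2 : c ∈ C
        · exact h1 c hc2
        · have h3 : c = c' := by
            rcases List.mem_cons.1 hc with h3 | h3
            · exact h3
            · exact absurd h3 hc2
          subst h3
          rw [h2 c hc2, Function.update_self]
          rfl
      · intro c hc
        rw [h2 c fun h3 => hc (List.mem_cons_of_mem _ h3), Function.update_of_ne]
        exact fun h3 => hc (h3 ▸ List.mem_cons_self)
    refine (sum_le_sum fun z' _ => h1 z').trans ?_
    rw [← sum_mul, hQ1, one_mul]

/-- **The hybrid argument.** -/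
theorem hyb (hP : ∀ c z, 0 ≤ P c z) (hP1 : ∀ c, ∑ z, P c z = 1)
    (hQ : ∀ c z, 0 ≤ Q c z) (hQ1 : ∀ c, ∑ z, Q c z = 1) (F : (K → Bool → W) → ℝ) (d : K → ℝ) :
    ∀ C : List K, C.Nodup → (∀ (c : K) (C₂ : List K), (c :: C₂) <:+ C → ∀ D : K → Bool → W,
      (∀ c' ∈ C₂, D c' true = D c' false) →
      |∑ z, ∑ z', P c z * (Q c z' * F (Function.update D c (mkp (enc c z) (enc c z')))) -
        ∑ z', Q c z' * F (Function.update D c (mkp (enc c z') (enc c z')))| ≤ d c) →
    ∀ D : K → Bool → W, |EE P Q enc C F D - EC Q enc C F D| ≤ (C.map d).sum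
  | [], _, _, D => by simp [EE, EC]
  | c :: C, hn, h, D => by
    have hc : c ∉ C := (List.nodup_cons.1 hn).1
    have ih := hyb hP hP1 hQ hQ1 F d C (List.nodup_cons.1 hn).2
      fun c' C₂ hs => h c' C₂ (hs.trans (List.suffix_cons _ _))
    have h1 : |∑ z, ∑ z', P c z * (Q c z' * EE P Q enc C F
        (Function.update D c (mkp (enc c z) (enc c z')))) -
        ∑ z, ∑ z', P c z * (Q c z' * EC Q enc C F
        (Function.update D c (mkp (enc c z) (enc c z'))))| ≤ (C.map d).sum := by
      rw [← sum_sub_distrib]
      simp only [← sum_sub_distrib]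
      refine (abs_sum_le_sum_abs _ _).trans ?_
      have h2 : ∀ z, |∑ z', (P c z * (Q c z' * EE P Q enc C F
          (Function.update D c (mkp (enc c z) (enc c z')))) - P c z * (Q c z' * EC Q enc C F
          (Function.update D c (mkp (enc c z) (enc c z')))))| ≤ P c z * (C.map d).sum := by
        intro z
        refine (abs_sum_le_sum_abs _ _).trans ?_
        have h3 : ∀ z', |P c z * (Q c z' * EE P Q enc C F
            (Function.update D c (mkp (enc c z) (enc c z')))) - P c z * (Q c z' * EC Q enc C F
            (Function.update D c (mkp (enc c z) (enc c z'))))| ≤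
            P c z * (Q c z' * (C.map d).sum) := by
          intro z'
          rw [← mul_sub, ← mul_sub, abs_mul, abs_mul, abs_of_nonneg (hP c z),
            abs_of_nonneg (hQ c z')]
          exact mul_le_mul_of_nonneg_left (mul_le_mul_of_nonneg_left (ih _) (hQ c z')) (hP c z)
        refine (sum_le_sum fun z' _ => h3 z').trans ?_
        rw [← mul_sum, ← sum_mul, hQ1, one_mul]
      refine (sum_le_sum fun z _ => h2 z).trans ?_
      rw [← sum_mul, hP1, one_mul]
    have h2 : |∑ z, ∑ z', P c z * (Q c z' * EC Q enc C F
        (Function.update D c (mkp (enc c z) (enc c z')))) -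
        ∑ z', Q c z' * EC Q enc C F (Function.update D c (mkp (enc c z') (enc c z')))| ≤ d c := by
      have h3 : ∑ z, ∑ z', P c z * (Q c z' * EC Q enc C F
          (Function.update D c (mkp (enc c z) (enc c z')))) -
          ∑ z', Q c z' * EC Q enc C F (Function.update D c (mkp (enc c z') (enc c z'))) =
          EC Q enc C (fun D' => ∑ z, ∑ z', P c z * (Q c z' *
            F (Function.update D' c (mkp (enc c z) (enc c z')))) -
            ∑ z', Q c z' * F (Function.update D' c (mkp (enc c z') (enc c z')))) D := by
        rw [EC_sub]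
        congr 1
        · have e1 : (fun D' : K → Bool → W => ∑ z, ∑ z', P c z * (Q c z' *
              F (Function.update D' c (mkp (enc c z) (enc c z'))))) =
              fun D' => ∑ z, P c z * ∑ z', Q c z' *
                F (Function.update D' c (mkp (enc c z) (enc c z'))) := by
            funext D'
            exact sum_congr rfl fun z _ => by rw [mul_sum]
          rw [e1, EC_sum]
          refine sum_congr rfl fun z _ => ?_
          rw [EC_sum, mul_sum]
          refine sum_congr rfl fun z' _ => ?_
          rw [EC_upd F c _ C D hc]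
        · rw [EC_sum]
          refine sum_congr rfl fun z' _ => ?_
          rw [EC_upd F c _ C D hc]
      rw [h3]
      exact EC_le hQ hQ1 C D fun D' h4 _ => h c C (List.suffix_refl _) D' h4
    have h3 : EE P Q enc (c :: C) F D - EC Q enc (c :: C) F D =
        (∑ z, ∑ z', P c z * (Q c z' * EE P Q enc C F
        (Function.update D c (mkp (enc c z) (enc c z')))) -
        ∑ z, ∑ z', P c z * (Q c z' * EC Q enc C F
        (Function.update D c (mkp (enc c z) (enc c z'))))) +
        (∑ z, ∑ z', P c z * (Q c z' * EC Q enc C F
        (Function.update D c (mkp (enc c z) (enc c z')))) -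
        ∑ z', Q c z' * EC Q enc C F (Function.update D c (mkp (enc c z') (enc c z')))) := by
      simp only [EE, EC]
      ring
    rw [h3, List.map_cons, List.sum_cons]
    refine (abs_add_le _ _).trans ?_
    linarith

/-- the support of the contents -/
theorem EE_eq (hP1 : ∀ c, ∑ z, P c z = 1) (hQ1 : ∀ c, ∑ z, Q c z = 1) {G : K → (Bool → W) → Prop}
    (hG : ∀ c z z', P c z ≠ 0 → Q c z' ≠ 0 → G c (mkp (enc c z) (enc c z')))
    {F : (K → Bool → W) → ℝ} {r : ℝ} : ∀ (C : List K) (D : K → Bool → W),
    (∀ D' : K → Bool → W, (∀ c ∈ C, G c (D' c)) → (∀ c ∉ C, D' c = D c) → F D' = r) →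
      EE P Q enc C F D = r
  | [], D, h => h D (fun c hc => absurd hc List.not_mem_nil) fun c _ => rfl
  | c' :: C, D, h => by
    simp only [EE]
    have h1 : ∀ z z', P c' z * (Q c' z' * EE P Q enc C F
        (Function.update D c' (mkp (enc c' z) (enc c' z')))) = P c' z * (Q c' z' * r) := by
      intro z z'
      by_cases hz : P c' z = 0
      · rw [hz, zero_mul, zero_mul]
      · by_cases hz' : Q c' z' = 0
        · rw [hz', zero_mul, zero_mul]
        · rw [EE_eq hP1 hQ1 hG C _ fun D' h1 h2 => h D' ?_ ?_]
          · intro c hc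
            by_cases hc2 : c ∈ C
            · exact h1 c hc2
            · have h3 : c = c' := by
                rcases List.mem_cons.1 hc with h3 | h3
                · exact h3
                · exact absurd h3 hc2
              subst h3
              rw [h2 c hc2, Function.update_self]
              exact hG c z z' hz hz'
          · intro c hc
            rw [h2 c fun h3 => hc (List.mem_cons_of_mem _ h3), Function.update_of_ne]
            exact fun h3 => hc (h3 ▸ List.mem_cons_self)
    rw [sum_congr rfl fun z _ => sum_congr rfl fun z' _ => h1 z z']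
    have h2 : ∀ z, ∑ z', P c' z * (Q c' z' * r) = P c' z * r := by
      intro z
      rw [← mul_sum, ← sum_mul, hQ1, one_mul]
    rw [sum_congr rfl fun z _ => h2 z, ← sum_mul, hP1, one_mul]

end Hyb

end Pool.Agent.H9x.RT
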