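import Pool.Agent.H9x.RT.Or
import Pool.Agent.H9x.RT.Hyb

/-!
# Families of oracles with one block
-/

set_option autoImplicit false

namespace Pool.Agent.H9x.RT

open Pool.Agent.NPC Pool.Agent.H622R2 Pool.Agent.H620R2.Gauge Pool.Agent.H622R2.Exp
  Pool.Agent.TH678.ETH Pool.Agent.TH678.SETH Pool.Agent.TH678.RS

open Pool.Agent.H9x.V1 (Ac ac_congr poly_rep poly_cS)

/-- the content given by two functions on the cube -/
def enc (l : ℕ) (z : (Fin l → Bool) ⊕ (Fin l → Bool) → Bool) : List Bool → Bool
  | [] => false
  | c :: v => if h : v.length = l then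
      z ((if c then Sum.inr else Sum.inl) fun i => v.get (i.cast h.symm)) else false

theorem enc_ofFn (l : ℕ) (z : (Fin l → Bool) ⊕ (Fin l → Bool) → Bool) (c : Bool)
    (v : Fin l → Bool) : enc l z (c :: List.ofFn v) = z ((if c then Sum.inr else Sum.inl) v) := by
  simp only [enc]
  rw [dif_pos (by simp)]
  have h1 : (fun i : Fin l => (List.ofFn v).get (i.cast (by simp))) = v := by
    funext i
    simp
  rw [h1]

theorem enc_cls (l : ℕ) (w : List Bool) :
    (∃ i, ∀ z : (Fin l → Bool) ⊕ (Fin l → Bool) → Bool, enc l z w = z i) ∨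
      ∀ z : (Fin l → Bool) ⊕ (Fin l → Bool) → Bool, enc l z w = false := by
  rcases w with _ | ⟨c, v⟩
  · exact Or.inr fun z => rfl
  · by_cases h : v.length = l
    · left
      refine ⟨(if c then Sum.inr else Sum.inl) fun i => v.get (i.cast h.symm), fun z => ?_⟩
      simp only [enc]
      rw [dif_pos h]
    · right
      intro z
      simp only [enc]
      rw [dif_neg h]

variable {S N : ℕ → Polynomial ℕ} {b : ℕ → ℕ} {g : ℕ → SAlg × Polynomial ℕ}
  {h : ℕ → Alg × Polynomial ℕ}

/-- a family of data in which one block at the level `s` is free, and no truth value of a block at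
the higher levels matters -/
structure Fam (S : ℕ → Polynomial ℕ) (l s T : ℕ)
    (F : ((Fin l → Bool) ⊕ (Fin l → Bool) → Bool) → Dat) : Prop where
  low : ∀ c, lev S c < s → ∀ z z', (F z).bl c = (F z').bl c
  lowf : ∀ s' < s, ∀ z z', (F z).fr s' = (F z').fr s'
  blk : ∀ c, s ≤ lev S c → lev S c ≤ T →
    ((∀ z z', (F z).bl c = (F z').bl c) ∧ (lev S c = s ∨ ∀ z, (F z).bl c true = (F z).bl c false))
      ∨ ∀ z t, (F z).bl c t = enc l z
  fr : ∀ s', s ≤ s' → (∀ z z', (F z).fr s' = (F z').fr s') ∨ ∀ z, (F z).fr s' = enc l z

theorem Fam.adm (hc : Kq g h S N) {l s T : ℕ}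
    {F : ((Fin l → Bool) ⊕ (Fin l → Bool) → Bool) → Dat} (hF : Fam S l s T F)
    (hT : ∀ s', s ≤ s' → T < s' ^ (b s' + 1)) :
    Adm s T (fun z => orc S N b g h (F z)) := by
  have hlow : ∀ q : List Bool, q.length ≤ s → ∀ z z',
      orc S N b g h (F z) q = orc S N b g h (F z') q := fun q hq z z' =>
    orc_loc hc.big (fun c hc' => hF.low c hc' z z') (fun s' hs' => hF.lowf s' hs' z z') _ q rfl hq
  set z₀ : (Fin l → Bool) ⊕ (Fin l → Bool) → Bool := fun _ => false
  refine ⟨fun q hq => ⟨orc S N b g h (F z₀) q, fun z => hlow q hq z z₀⟩, fun q hqT => ?_⟩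
  by_cases hp : ∃ p : Ix S N b, q = cI p
  · obtain ⟨p, rfl⟩ := hp
    cases p with
    | far p =>
      left
      refine ⟨orc S N b g h (F z₀) (cI (Ix.far p : Ix S N b)), fun z => ?_⟩
      have hs : (S p.1.1).eval p.1.2.2.length < s := by
        by_contra hcon
        have h1 := hT _ (not_lt.1 hcon)
        obtain ⟨⟨e, i, y⟩, h2⟩ := p
        have h3 : (S e).eval y.length ^ (b ((S e).eval y.length) + 1) ≤ i := h2
        have h4 : (true :: true :: cS e i y).length ≤ T := hqT
        rw [List.length_cons, List.length_cons, length_cS] at h4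
        simp only at h1
        omega
      rw [Bool.eq_iff_iff, orc_on hc.big, orc_on hc.big]
      exact ac_congr fun q hq => hlow q (by omega) z z₀
    | blk e x w hw =>
      have hl := lt_blk (N := N) (b := b) e x w hw
      have hlT : lev S (e, x) ≤ T := by show (S e).eval x.length ≤ T; omega
      have key : lev S (e, x) ≤ s → ∀ z z', Ac g S e x (orc S N b g h (F z)) ↔
          Ac g S e x (orc S N b g h (F z')) := fun hls z z' =>
        ac_congr fun q hq => hlow q (by have : (S e).eval x.length ≤ s := hls; omega) z z'
      have hval : ∀ z, orc S N b g h (F z) (cI (Ix.blk e x w hw : Ix S N b)) =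
          (F z).bl (e, x) (@decide (Ac g S e x (orc S N b g h (F z)))
            (Classical.propDecidable _)) w := by
        intro z
        rw [Bool.eq_iff_iff, orc_on hc.big]
        rfl
      have key2 : lev S (e, x) ≤ s → (∀ z z', (F z).bl (e, x) = (F z').bl (e, x)) →
          ∃ c, ∀ z, orc S N b g h (F z) (cI (Ix.blk e x w hw : Ix S N b)) = c := by
        intro hls hb
        refine ⟨orc S N b g h (F z₀) (cI (Ix.blk e x w hw : Ix S N b)), fun z => ?_⟩
        rw [hval, hval, hb z z₀]
        have h2 : @decide (Ac g S e x (orc S N b g h (F z))) (Classical.propDecidable _) =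
            @decide (Ac g S e x (orc S N b g h (F z₀))) (Classical.propDecidable _) := by
          rw [decide_eq_decide]
          exact key hls z z₀
        rw [h2]
      by_cases hls : lev S (e, x) < s
      · exact Or.inl (key2 hls.le fun z z' => hF.low _ hls z z')
      · rcases hF.blk (e, x) (not_lt.1 hls) hlT with ⟨h1, h2⟩ | h1
        · left
          rcases h2 with h2 | h2
          · exact key2 h2.le h1
          · refine ⟨(F z₀).bl (e, x) true w, fun z => ?_⟩
            rw [hval, h1 z z₀]
            cases @decide (Ac g S e x (orc S N b g h (F z))) (Classical.propDecidable _)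
            · rw [← h2 z₀]
            · rfl
        · rcases enc_cls l w with ⟨i, hi⟩ | h3
          · right
            left
            exact ⟨i, fun z => by rw [hval, h1, hi]⟩
          · left
            exact ⟨false, fun z => by rw [hval, h1, h3]⟩
    | np e i x hi =>
      right
      right
      refine ⟨{y | ∃ w : List Bool, w.length ≤ (h e).2.eval x.length ∧ y = pairBits w x}, (h e).1,
        (N e).eval x.length, ?_, ?_, fun z => ?_⟩
      · have h1 : (true :: false :: true :: cS e i x).length =
            (cI (Ix.np e i x hi : Ix S N b)).length := rfl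
        rw [← h1, List.length_cons, List.length_cons, List.length_cons, length_cS]
        omega
      · rintro y ⟨w, hw, rfl⟩
        exact hc.hbig e x w hw
      · rw [orc_on hc.big]
        constructor
        · rintro ⟨w, hw, hw'⟩
          exact ⟨_, ⟨w, hw, rfl⟩, hw'⟩
        · rintro ⟨_, ⟨w, hw, rfl⟩, hw'⟩
          exact ⟨w, hw, hw'⟩
  · push Not at hp
    have hoff : ∀ z, orc S N b g h (F z) q = base (F z) q := fun z => orc_off _ hp
    rcases q with _ | ⟨c₁, _ | ⟨c₂, u⟩⟩
    · exact Or.inl ⟨false, fun z => by rw [hoff]; rfl⟩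
    · exact Or.inl ⟨false, fun z => by rw [hoff]; cases c₁ <;> rfl⟩
    · cases c₁
      · cases c₂
        · exact Or.inl ⟨base (F z₀) (false :: false :: u), fun z => by rw [hoff]; rfl⟩
        · have hfr : ∀ z, orc S N b g h (F z) (false :: true :: u) =
              (F z).fr (lead u) (u.drop (2 * lead u + 1)) := fun z => by rw [hoff]; rfl
          by_cases hls : lead u < s
          · exact Or.inl ⟨(F z₀).fr (lead u) (u.drop (2 * lead u + 1)), fun z => by
              rw [hfr, hF.lowf _ hls z z₀]⟩
          · rcases hF.fr _ (not_lt.1 hls) with h1 | h1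
            · exact Or.inl ⟨(F z₀).fr (lead u) (u.drop (2 * lead u + 1)), fun z => by
                rw [hfr, h1 z z₀]⟩
            · rcases enc_cls l (u.drop (2 * lead u + 1)) with ⟨i, hi⟩ | h3
              · exact Or.inr (Or.inl ⟨i, fun z => by rw [hfr, h1, hi]⟩)
              · exact Or.inl ⟨false, fun z => by rw [hfr, h1, h3]⟩
      · exact Or.inl ⟨false, fun z => by rw [hoff]; cases c₂ <;> rfl⟩

/-- **Only one of the two contents matters.** -/
theorem orc_sel (hS : ∀ e n, n + e + 1 ≤ (S e).eval n) (B : ℕ × List Bool → Bool → List Bool → Bool)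
    (fr : ℕ → List Bool → Bool) (c : ℕ × List Bool) :
    ∃ t : Bool, ∀ u v : List Bool → Bool,
      orc S N b g h ⟨Function.update B c (mkp u v), fr⟩ =
        orc S N b g h ⟨Function.update B c (mkp (mkp u v t) (mkp u v t)), fr⟩ := by
  obtain ⟨e, x⟩ := c
  refine ⟨@decide (Ac g S e x (orc S N b g h ⟨B, fr⟩)) (Classical.propDecidable _), fun u v => ?_⟩
  set t := @decide (Ac g S e x (orc S N b g h ⟨B, fr⟩)) (Classical.propDecidable _) with ht
  have htv : ∀ v' : Bool → List Bool → Bool, @decide (Ac g S e x (orc S N b g h
      ⟨Function.update B (e, x) v', fr⟩)) (Classical.propDecidable _) = t := by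
    intro v'
    rw [ht, decide_eq_decide]
    refine ac_congr fun q hq => orc_loc hS (n := (S e).eval x.length)
      (D := ⟨Function.update B (e, x) v', fr⟩) (D' := ⟨B, fr⟩) (fun c hc => ?_)
      (fun s _ => rfl) _ q rfl hq
    show Function.update B (e, x) v' c = B c
    rw [Function.update_of_ne]
    rintro rfl
    exact absurd hc (lt_irrefl _)
  funext q
  generalize hm : q.length = m
  induction m using Nat.strong_induction_on generalizing q with
  | _ m ih =>
    by_cases hp : ∃ p : Ix S N b, q = cI p
    · obtain ⟨p, rfl⟩ := hp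
      have hA : ∀ z : List Bool, z.length < (cI p).length →
          orc S N b g h ⟨Function.update B (e, x) (mkp u v), fr⟩ z =
          orc S N b g h ⟨Function.update B (e, x) (mkp (mkp u v t) (mkp u v t)), fr⟩ z :=
        fun z hz => ih z.length (by omega) z rfl
      rw [Bool.eq_iff_iff, orc_on hS, orc_on hS]
      cases p with
      | far p =>
        exact cont_congr (g := g) (h := h) hS ⟨B, fr⟩ (Ix.far p : Ix S N b) hA
      | blk e' x' w hw =>
        show Function.update B (e, x) (mkp u v) (e', x') (@decide (Ac g S e' x' _)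
          (Classical.propDecidable _)) w = true ↔ Function.update B (e, x) (mkp (mkp u v t) (mkp u v t))
          (e', x') (@decide (Ac g S e' x' _) (Classical.propDecidable _)) w = true
        by_cases hc : (e', x') = (e, x)
        · obtain ⟨rfl, rfl⟩ := Prod.mk.inj hc
          rw [Function.update_self, Function.update_self, htv, htv]
          have : mkp (mkp u v t) (mkp u v t) t = mkp u v t := by
            unfold mkp
            split_ifs <;> rfl
          rw [this]
        · rw [Function.update_of_ne hc, Function.update_of_ne hc]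
          have h2 : ∀ A A' : Oracle, (∀ z : List Bool, z.length ≤ (S e').eval x'.length → A z = A' z) →
              @decide (Ac g S e' x' A) (Classical.propDecidable _) =
              @decide (Ac g S e' x' A') (Classical.propDecidable _) := by
            intro A A' hAA
            rw [decide_eq_decide]
            exact ac_congr hAA
          rw [h2 _ _ fun z hz => hA z (lt_of_le_of_lt hz (lt_blk e' x' w hw))]
      | np e' i x' hi =>
        exact cont_congr (g := g) (h := h) hS ⟨B, fr⟩ (Ix.np e' i x' hi : Ix S N b) hA
    · push Not at hp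
      rw [orc_off _ hp, orc_off _ hp]
      rcases q with _ | ⟨c₁, _ | ⟨c₂, u'⟩⟩
      · rfl
      · cases c₁ <;> rfl
      · cases c₁ <;> cases c₂ <;> rfl

end Pool.Agent.H9x.RT
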