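import Pool.Agent.H9x.RT.Ml
import Pool.Agent.H676.DT

/-!
# The second level of decision trees and of functions that become decision trees
-/

set_option autoImplicit false
set_option linter.unusedSectionVars false

namespace Pool.Agent.H9x.RT

open Finset H568R2 Pool.Agent.H676

variable {I : Type*} [Fintype I] [DecidableEq I]

theorem sum_update (i : I) (H : (I → Bool) → ℝ) :
    ∑ a, H a = (1 / 2) * ∑ b : Bool, ∑ a, H (Function.update a i b) := by
  have h1 : ∑ a, H a = ∑ a, H (Function.update a i (!a i)) := by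
    have hinv : Function.Involutive (fun a : I → Bool => Function.update a i (!a i)) := by
      intro a
      funext j
      by_cases hj : j = i
      · subst hj; simp
      · simp [hj]
    exact (Equiv.sum_comp (Function.Involutive.toPerm _ hinv) H).symm
  have h2 : ∀ a : I → Bool, H (Function.update a i true) + H (Function.update a i false) =
      H a + H (Function.update a i (!a i)) := by
    intro a
    have h3 : Function.update a i (a i) = a := Function.update_eq_self i a
    cases hai : a i
    · rw [hai] at h3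
      rw [h3]
      simp only [Bool.not_false]
      ring
    · rw [hai] at h3
      rw [h3]
      simp only [Bool.not_true]
  rw [Fintype.sum_bool, ← sum_add_distrib, sum_congr rfl fun a _ => h2 a, sum_add_distrib, ← h1]
  ring

theorem dS_split (S : Finset I) (i : I) (F : (I → Bool) → ℝ) :
    dS S F 0 = ∑ b : Bool, (if i ∈ S then sg b / 2 else 1 / 2) *
      dS (S.erase i) (fun a => F (Function.update a i b)) 0 := by
  have h1 : ∀ (b : Bool) (a : I → Bool), F (Function.update a i b) *
      ∏ j, (if j ∈ S then sg (Function.update a i b j) / 2 else (1 + sg (Function.update a i b j) *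
        (0 : I → ℝ) j) / 2) = 2 * (if i ∈ S then sg b / 2 else 1 / 2) *
      (F (Function.update a i b) * ∏ j, (if j ∈ S.erase i then sg (a j) / 2 else
        (1 + sg (a j) * (0 : I → ℝ) j) / 2)) := by
    intro b a
    have h2 : ∏ j, (if j ∈ S then sg (Function.update a i b j) / 2 else
        (1 + sg (Function.update a i b j) * (0 : I → ℝ) j) / 2) =
        2 * (if i ∈ S then sg b / 2 else 1 / 2) * ∏ j, (if j ∈ S.erase i then sg (a j) / 2 else
        (1 + sg (a j) * (0 : I → ℝ) j) / 2) := by
      rw [← mul_prod_erase univ _ (mem_univ i)]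
      rw [← mul_prod_erase univ (fun j => if j ∈ S.erase i then sg (a j) / 2 else
        (1 + sg (a j) * (0 : I → ℝ) j) / 2) (mem_univ i)]
      have h3 : ∏ j ∈ univ.erase i, (if j ∈ S then sg (Function.update a i b j) / 2 else
        (1 + sg (Function.update a i b j) * (0 : I → ℝ) j) / 2) =
          ∏ j ∈ univ.erase i, (if j ∈ S.erase i then sg (a j) / 2 else
        (1 + sg (a j) * (0 : I → ℝ) j) / 2) := by
        refine prod_congr rfl fun j hj => ?_
        have hji : j ≠ i := (mem_erase.1 hj).1
        rw [Function.update_of_ne hji]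
        simp only [mem_erase, ne_eq, hji, not_false_eq_true, true_and]
      rw [h3]
      simp only [Function.update_self, Pi.zero_apply, mul_zero, add_zero, mem_erase, ne_eq,
        not_true_eq_false, false_and, if_false]
      ring
    rw [h2]
    ring
  have h2 := sum_update i (fun a => F a * ∏ j, (if j ∈ S then sg (a j) / 2 else
    (1 + sg (a j) * (0 : I → ℝ) j) / 2))
  have h3 : dS S F 0 = ∑ a, F a * ∏ j, (if j ∈ S then sg (a j) / 2 else
    (1 + sg (a j) * (0 : I → ℝ) j) / 2) := rfl
  rw [h3, h2, mul_sum]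
  refine sum_congr rfl fun b _ => ?_
  rw [sum_congr rfl fun a _ => h1 b a, ← mul_sum]
  unfold dS
  ring

theorem dS_const {S : Finset I} (hS : S.Nonempty) (c : ℝ) : dS S (fun _ : I → Bool => c) 0 = 0 := by
  unfold dS
  rw [← mul_sum, sum_prod (fun i b => if i ∈ S then sg b / 2 else (1 + sg b * (0 : I → ℝ) i) / 2)]
  obtain ⟨i, hi⟩ := hS
  have : ∏ i, ∑ b, (if i ∈ S then sg b / 2 else (1 + sg b * (0 : I → ℝ) i) / 2) = 0 := by
    refine prod_eq_zero (mem_univ i) ?_
    rw [Fintype.sum_bool, if_pos hi, if_pos hi]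
    simp only [sg]
    norm_num
  rw [this, mul_zero]

theorem abs_br_le (f : (I → Bool) → Bool) (a : I → Bool) : |br f a| ≤ 1 := by
  unfold br
  split_ifs <;> norm_num

theorem lv_zero_le {F : (I → Bool) → ℝ} (hF : ∀ a, |F a| ≤ 1) : lv 0 F 0 ≤ 1 := by
  unfold lv
  rw [powersetCard_zero, sum_singleton]
  exact abs_dS_le hF (fun i => by simp) _

theorem lv_succ_le (k : ℕ) (i : I) (F : (I → Bool) → ℝ) :
    lv (k + 1) F 0 ≤ (1 / 2) * ∑ b : Bool, (lv (k + 1) (fun a => F (Function.update a i b)) 0 +
      lv k (fun a => F (Function.update a i b)) 0) := by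
  have h1 : ∀ S : Finset I, |dS S F 0| ≤ ∑ b : Bool, (1 / 2) *
      |dS (S.erase i) (fun a => F (Function.update a i b)) 0| := by
    intro S
    rw [dS_split S i F]
    refine (abs_sum_le_sum_abs _ _).trans (sum_le_sum fun b _ => ?_)
    rw [abs_mul]
    refine mul_le_mul_of_nonneg_right ?_ (abs_nonneg _)
    split_ifs
    · rw [abs_div, abs_sg]; norm_num
    · norm_num
  have h2 : ∀ g : Finset I → ℝ, (∀ S, 0 ≤ g S) →
      ∑ S ∈ powersetCard (k + 1) (univ : Finset I), g (S.erase i) ≤
      ∑ S ∈ powersetCard (k + 1) (univ : Finset I), g S +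
        ∑ S ∈ powersetCard k (univ : Finset I), g S := by
    intro g hg
    rw [← sum_filter_add_sum_filter_not (powersetCard (k + 1) (univ : Finset I)) (fun S => i ∉ S)]
    refine add_le_add ?_ ?_
    · rw [sum_congr rfl fun S hS => by rw [erase_eq_of_notMem (mem_filter.1 hS).2]]
      exact sum_le_sum_of_subset_of_nonneg (filter_subset _ _) fun S _ _ => hg S
    · have h3 : ∑ S ∈ (powersetCard (k + 1) (univ : Finset I)).filter (fun S => ¬ i ∉ S),
          g (S.erase i) = ∑ S ∈ ((powersetCard (k + 1) (univ : Finset I)).filter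
            (fun S => ¬ i ∉ S)).image (fun S => S.erase i), g S := by
        rw [sum_image]
        intro S hS T hT hST
        have h4 := (mem_filter.1 hS).2
        have h5 := (mem_filter.1 hT).2
        rw [not_not] at h4 h5
        simp only at hST
        rw [← insert_erase h4, ← insert_erase h5, hST]
      rw [h3]
      refine sum_le_sum_of_subset_of_nonneg ?_ fun S _ _ => hg S
      intro S hS
      obtain ⟨T, hT, rfl⟩ := mem_image.1 hS
      obtain ⟨h4, h5⟩ := mem_filter.1 hT
      rw [not_not] at h5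
      rw [mem_powersetCard]
      refine ⟨subset_univ _, ?_⟩
      rw [card_erase_of_mem h5, (mem_powersetCard.1 h4).2]
      rfl
  calc lv (k + 1) F 0 ≤ ∑ S ∈ powersetCard (k + 1) (univ : Finset I), ∑ b : Bool, (1 / 2) *
        |dS (S.erase i) (fun a => F (Function.update a i b)) 0| := sum_le_sum fun S _ => h1 S
    _ = (1 / 2) * ∑ b : Bool, ∑ S ∈ powersetCard (k + 1) (univ : Finset I),
        |dS (S.erase i) (fun a => F (Function.update a i b)) 0| := by
        rw [sum_comm, mul_sum]
        exact sum_congr rfl fun b _ => by rw [mul_sum]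
    _ ≤ _ := by
        refine mul_le_mul_of_nonneg_left (sum_le_sum fun b _ => ?_) (by norm_num)
        exact h2 (fun S => |dS S (fun a => F (Function.update a i b)) 0|) fun _ => abs_nonneg _

/-- **The levels of a decision tree.** -/
theorem lv_dtr : ∀ (t : ℕ) (f : (I → Bool) → Bool) (k : ℕ), DTr t f →
    lv k (br f) 0 ≤ (t.choose k : ℝ) := by
  have hconst : ∀ (f : (I → Bool) → Bool) (t k : ℕ), (∃ c, ∀ x, f x = c) →
      lv k (br f) 0 ≤ (t.choose k : ℝ) := by
    rintro f t k ⟨c, hc⟩
    cases k with
    | zero =>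
      rw [Nat.choose_zero_right]
      exact_mod_cast lv_zero_le (abs_br_le f)
    | succ k =>
      have h1 : br f = fun _ => (if c then (1 : ℝ) else 0) := by
        funext x; unfold br; rw [hc]
      have h2 : lv (k + 1) (br f) 0 = 0 := by
        unfold lv
        refine sum_eq_zero fun S hS => ?_
        have h3 := (mem_powersetCard.1 hS).2
        rw [h1, dS_const (card_pos.1 (by omega)), abs_zero]
      rw [h2]
      positivity
  intro t
  induction t with
  | zero => intro f k h; exact hconst f 0 k h
  | succ t ih =>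
    intro f k h
    rcases h with h | ⟨i, h⟩
    · exact hconst f _ k h
    · cases k with
      | zero =>
        rw [Nat.choose_zero_right]
        exact_mod_cast lv_zero_le (abs_br_le f)
      | succ k =>
        refine (lv_succ_le k i (br f)).trans ?_
        have h1 : ∀ b : Bool, lv (k + 1) (fun a => br f (Function.update a i b)) 0 +
            lv k (fun a => br f (Function.update a i b)) 0 ≤
            ((t.choose (k + 1) : ℝ)) + (t.choose k : ℝ) := fun b =>
          add_le_add (ih _ _ (h b)) (ih _ _ (h b))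
        have h2 : ((t + 1).choose (k + 1) : ℝ) = (t.choose (k + 1) : ℝ) + (t.choose k : ℝ) := by
          rw [Nat.choose_succ_succ]; push_cast; ring
        rw [h2, Fintype.sum_bool]
        have := h1 true
        have := h1 false
        linarith

theorem lv_two_crude {F : (I → Bool) → ℝ} (hF : ∀ a, |F a| ≤ 1) :
    lv 2 F 0 ≤ (Fintype.card I : ℝ) ^ 2 := by
  unfold lv
  refine (sum_le_card_nsmul _ _ 1 fun S _ => abs_dS_le hF (fun i => by simp) S).trans ?_
  rw [card_powersetCard, card_univ, nsmul_eq_mul, mul_one]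
  exact_mod_cast Nat.choose_le_pow _ _

open Classical in
/-- **The second level of a function that is a shallow decision tree after most restrictions.** -/
theorem lv_switch {t : ℕ} {p : ℝ} (h0 : 0 < p) (h1 : p ≤ 1) {β : ℝ} (f : (I → Bool) → Bool)
    (h : Ex (wq p) (fun ρ : Restr I => if ¬ DTr t (rs f ρ) then (1 : ℝ) else 0) ≤ β) :
    lv 2 (br f) 0 ≤ ((t : ℝ) ^ 2 + β * (Fintype.card I : ℝ) ^ 2) / p ^ 2 := by
  have h2 := lv_restr 2 h0 h1 (μ := (0 : I → ℝ)) (fun i => by simp) (br f)
  have h3 : (fun i => (1 - p) * (0 : I → ℝ) i) = 0 := by funext i; simp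
  rw [h3] at h2
  have h4 : ∀ ρ : Restr I, ∏ i, rwt p (0 : I → ℝ) i (ρ i) = ∏ i, wq p (ρ i) := by
    intro ρ
    refine prod_congr rfl fun i _ => ?_
    cases ρ i with
    | none => rfl
    | some b => simp only [rwt, wq, Pi.zero_apply, mul_zero, add_zero]; ring
  have h5 : ∑ ρ : Restr I, (∏ i, rwt p (0 : I → ℝ) i (ρ i)) * lv 2 (fun a => br f (ov ρ a)) 0 ≤
      Ex (wq p) (fun ρ : Restr I => (t : ℝ) ^ 2 + (Fintype.card I : ℝ) ^ 2 *
        (if ¬ DTr t (rs f ρ) then (1 : ℝ) else 0)) := by
    unfold Ex
    refine sum_le_sum fun ρ _ => ?_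
    rw [h4]
    refine mul_le_mul_of_nonneg_left ?_ (prod_nonneg fun i _ => wq_nonneg h0.le h1 _)
    show _ ≤ (t : ℝ) ^ 2 + (Fintype.card I : ℝ) ^ 2 *
      (if ¬ DTr t (rs f ρ) then (1 : ℝ) else 0)
    by_cases hd : DTr t (rs f ρ)
    · rw [if_neg (not_not.2 hd), mul_zero, add_zero]
      have h6 := lv_dtr t (rs f ρ) 2 hd
      have h7 : ((t.choose 2 : ℕ) : ℝ) ≤ (t : ℝ) ^ 2 := by exact_mod_cast Nat.choose_le_pow _ _
      exact h6.trans h7
    · rw [if_pos hd, mul_one]
      have h6 : lv 2 (fun a => br f (ov ρ a)) 0 ≤ (Fintype.card I : ℝ) ^ 2 :=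
        lv_two_crude fun a => abs_br_le f _
      have h7 : (0 : ℝ) ≤ (t : ℝ) ^ 2 := by positivity
      linarith
  rw [Ex_add, Ex_smul, Ex_const (wq_sum p)] at h5
  have h8 : (Fintype.card I : ℝ) ^ 2 * Ex (wq p) (fun ρ : Restr I =>
      if ¬ DTr t (rs f ρ) then (1 : ℝ) else 0) ≤ (Fintype.card I : ℝ) ^ 2 * β :=
    mul_le_mul_of_nonneg_left h (by positivity)
  rw [le_div_iff₀ (by positivity)]
  linarith

end Pool.Agent.H9x.RT
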