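import Pool.Agent.H9x.RT.Step
import Pool.Agent.H9x.RT.Lvl

/-!
# Forrelation is hard for functions with small second level
-/

set_option autoImplicit false
set_option linter.unusedSectionVars false

namespace Pool.Agent.H9x.RT

open Finset H568R2 Pool.Agent.H676

variable {X : Type*} [Fintype X] [DecidableEq X]

/-- an orthogonal symmetric matrix with small entries -/
structure Orth (H : X → X → ℝ) (γ : ℝ) : Prop where
  sym : ∀ x y, H x y = H y x
  orth : ∀ x y, ∑ z, H x z * H y z = if x = y then 1 else 0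
  le : ∀ x y, |H x y| ≤ γ
  one : γ ≤ 1

/-- the directions of the walk -/
def Wf (H : X → X → ℝ) : X ⊕ X → X → ℝ
  | .inl x, j => if x = j then 1 else 0
  | .inr y, j => H y j

/-- the forrelation of two Boolean functions -/
noncomputable def Fo (H : X → X → ℝ) (a : X ⊕ X → Bool) : ℝ :=
  (∑ x, ∑ y, H x y * (sg (a (.inl x)) * sg (a (.inr y)))) / Fintype.card X

variable {H : X → X → ℝ} {γ : ℝ}

theorem Orth.nonneg [Nonempty X] (hH : Orth H γ) : 0 ≤ γ :=
  (abs_nonneg _).trans (hH.le (Classical.arbitrary X) (Classical.arbitrary X))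

theorem inc_inl (H : X → X → ℝ) (u : X → Bool) (x : X) : inc (Wf H) u (.inl x) = sg (u x) := by
  unfold inc Wf
  simp

theorem inc_inr (H : X → X → ℝ) (u : X → Bool) (y : X) :
    inc (Wf H) u (.inr y) = ∑ j, H y j * sg (u j) := rfl

theorem gram_row (hH : Orth H γ) (i : X ⊕ X) : ∑ j, Wf H i j ^ 2 = 1 := by
  cases i with
  | inl x => simp [Wf]
  | inr y =>
    have := hH.orth y y
    rw [if_pos rfl] at this
    rw [← this]
    exact sum_congr rfl fun j _ => by simp only [Wf]; ring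

theorem gram_lr (hH : Orth H γ) (x y : X) :
    ∑ j, Wf H (.inl x) j * Wf H (.inr y) j = H x y := by
  simp only [Wf, ite_mul, one_mul, zero_mul]
  rw [sum_ite_eq univ x]
  simp [hH.sym x y]

theorem gram_ne [Nonempty X] (hH : Orth H γ) (i i' : X ⊕ X) (h : i ≠ i') :
    |∑ j, Wf H i j * Wf H i' j| ≤ γ := by
  have h0 := hH.nonneg
  cases i with
  | inl x =>
    cases i' with
    | inl x' =>
      have hx : x ≠ x' := fun h' => h (by rw [h'])
      have : ∑ j, Wf H (.inl x) j * Wf H (.inl x') j = 0 := by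
        simp only [Wf, ite_mul, one_mul, zero_mul]
        rw [sum_ite_eq univ x]
        simp [hx.symm]
      rw [this, abs_zero]
      exact h0
    | inr y =>
      rw [gram_lr hH]
      exact hH.le x y
  | inr y =>
    cases i' with
    | inl x =>
      have : ∑ j, Wf H (.inr y) j * Wf H (.inl x) j = H x y := by
        rw [← gram_lr hH x y]
        exact sum_congr rfl fun j _ => by ring
      rw [this]
      exact hH.le x y
    | inr y' =>
      have hy : y ≠ y' := fun h' => h (by rw [h'])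
      have : ∑ j, Wf H (.inr y) j * Wf H (.inr y') j = 0 := by
        have := hH.orth y y'
        rwa [if_neg hy] at this
      rw [this, abs_zero]
      exact h0

theorem inc_le (hH : Orth H γ) (u : X → Bool) (i : X ⊕ X) [Nonempty X] :
    |inc (Wf H) u i| ≤ Fintype.card X := by
  unfold inc
  refine (abs_sum_le_sum_abs _ _).trans ?_
  have h1 : ∀ j ∈ (univ : Finset X), |Wf H i j * sg (u j)| ≤ 1 := by
    intro j _
    rw [abs_mul, abs_sg, mul_one]
    cases i with
    | inl x => simp only [Wf]; split_ifs <;> norm_num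
    | inr y => exact (hH.le y j).trans hH.one
  refine (sum_le_card_nsmul _ _ 1 h1).trans ?_
  simp

theorem ml_sg2 {I : Type*} [Fintype I] [DecidableEq I] {i j : I} (hij : i ≠ j) (v : I → ℝ) :
    ml (fun a => sg (a i) * sg (a j)) v = v i * v j := by
  rw [ml_eq]
  have h1 : ∀ a : I → Bool, sg (a i) * sg (a j) * ∏ l, ((1 + sg (a l) * v l) / 2) =
      ∏ l, ((if l = i then sg (a l) else 1) * (if l = j then sg (a l) else 1) *
        ((1 + sg (a l) * v l) / 2)) := by
    intro a
    rw [prod_mul_distrib, prod_mul_distrib]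
    simp
  rw [sum_congr rfl fun a _ => h1 a,
    sum_prod (fun l b => (if l = i then sg b else 1) * (if l = j then sg b else 1) *
        ((1 + sg b * v l) / 2))]
  have h2 : ∀ l, ∑ b, (if l = i then sg b else 1) * (if l = j then sg b else 1) *
      ((1 + sg b * v l) / 2) = (if l = i then v i else 1) * (if l = j then v j else 1) := by
    intro l
    rw [Fintype.sum_bool]
    by_cases h3 : l = i
    · subst h3
      simp [hij, sg]
      ring
    · by_cases h4 : l = j
      · subst h4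
        simp [h3, sg]
        ring
      · simp [h3, h4, sg]
        ring
  rw [prod_congr rfl fun l _ => h2 l, prod_mul_distrib]
  simp

theorem ml_sum {I κ : Type*} [Fintype I] [DecidableEq I] (s : Finset κ)
    (F : κ → (I → Bool) → ℝ) (v : I → ℝ) : ml (fun a => ∑ k ∈ s, F k a) v = ∑ k ∈ s, ml (F k) v := by
  simp only [ml_eq, sum_mul]
  rw [sum_comm]

theorem ml_smul {I : Type*} [Fintype I] [DecidableEq I] (c : ℝ)
    (F : (I → Bool) → ℝ) (v : I → ℝ) : ml (fun a => c * F a) v = c * ml F v := by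
  simp only [ml_eq, mul_sum]
  exact sum_congr rfl fun a _ => by ring

/-- the forrelation as a bilinear form -/
theorem ml_Fo (H : X → X → ℝ) (v : X ⊕ X → ℝ) :
    ml (Fo H) v = (∑ x, ∑ y, H x y * (v (.inl x) * v (.inr y))) / Fintype.card X := by
  have h1 : (Fo H) = fun a => (1 / (Fintype.card X : ℝ)) *
      ∑ x, ∑ y, H x y * (sg (a (.inl x)) * sg (a (.inr y))) := by
    funext a
    unfold Fo
    ring
  rw [h1, ml_smul, ml_sum]
  have h2 : ∀ x, ml (fun a : X ⊕ X → Bool => ∑ y, H x y * (sg (a (.inl x)) * sg (a (.inr y)))) v =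
      ∑ y, H x y * (v (.inl x) * v (.inr y)) := by
    intro x
    rw [ml_sum]
    refine sum_congr rfl fun y _ => ?_
    rw [ml_smul, ml_sg2 (by simp)]
  rw [sum_congr rfl fun x _ => h2 x]
  ring

theorem sum_H_sq (hH : Orth H γ) : ∑ x, ∑ y, H x y * H x y = Fintype.card X := by
  have h1 : ∀ x, ∑ y, H x y * H x y = 1 := fun x => by rw [hH.orth x x, if_pos rfl]
  rw [sum_congr rfl fun x _ => h1 x]
  simp

/-- the drift of the forrelation -/
theorem St_Fo [Nonempty X] (hH : Orth H γ) {δ : ℝ} {v : X ⊕ X → ℝ} (hv : ∀ i, |v i| ≤ 1 / 2) :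
    St (Wf H) δ (ml (Fo H)) v = ml (Fo H) v + δ ^ 2 := by
  rw [St_in hv]
  have hN : (Fintype.card X : ℝ) ≠ 0 := by
    have := Fintype.card_pos (α := X)
    positivity
  have h1 : (fun u : X → Bool => ml (Fo H) (fun i => v i + δ * inc (Wf H) u i)) = fun u =>
      (1 / (Fintype.card X : ℝ)) * ∑ x, ∑ y, H x y * (((v (.inl x) * v (.inr y)) +
        (v (.inl x) * δ) * inc (Wf H) u (.inr y)) + ((v (.inr y) * δ) * inc (Wf H) u (.inl x) +
        δ ^ 2 * (inc (Wf H) u (.inl x) * inc (Wf H) u (.inr y)))) := by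
    funext u
    rw [ml_Fo, mul_sum, sum_div]
    refine sum_congr rfl fun x _ => ?_
    rw [mul_sum, sum_div]
    refine sum_congr rfl fun y _ => ?_
    ring
  rw [h1, Eu_smul, Eu_sum, ml_Fo]
  have h2 : ∀ x, Eu (fun u => ∑ y, H x y * (((v (.inl x) * v (.inr y)) +
        (v (.inl x) * δ) * inc (Wf H) u (.inr y)) + ((v (.inr y) * δ) * inc (Wf H) u (.inl x) +
        δ ^ 2 * (inc (Wf H) u (.inl x) * inc (Wf H) u (.inr y))))) =
      ∑ y, H x y * (v (.inl x) * v (.inr y)) + δ ^ 2 * ∑ y, H x y * H x y := by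
    intro x
    rw [Eu_sum, mul_sum, ← sum_add_distrib]
    refine sum_congr rfl fun y _ => ?_
    rw [Eu_smul, Eu_add, Eu_add, Eu_add, Eu_const, Eu_smul, Eu_smul, Eu_smul, Eu_inc, Eu_inc,
      Eu_inc2, gram_lr hH]
    ring
  rw [sum_congr rfl fun x _ => h2 x, sum_add_distrib, ← mul_sum, sum_H_sq hH]
  field_simp

theorem sum_Hw (hH : Orth H γ) (w : X → Bool) :
    ∑ x, (∑ y, H x y * sg (w y)) ^ 2 = Fintype.card X := by
  have h1 : ∀ x, (∑ y, H x y * sg (w y)) ^ 2 = ∑ y, ∑ y', (sg (w y) * sg (w y')) *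
      (H y x * H y' x) := by
    intro x
    rw [sq, sum_mul_sum]
    refine sum_congr rfl fun y _ => sum_congr rfl fun y' _ => ?_
    rw [hH.sym x y, hH.sym x y']
    ring
  rw [sum_congr rfl fun x _ => h1 x, sum_comm]
  have h2 : ∀ y, ∑ x, ∑ y', (sg (w y) * sg (w y')) * (H y x * H y' x) = 1 := by
    intro y
    rw [sum_comm]
    have h3 : ∀ y', ∑ x, (sg (w y) * sg (w y')) * (H y x * H y' x) = if y = y' then 1 else 0 := by
      intro y'
      rw [← mul_sum, hH.orth]
      split_ifs with h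
      · rw [h, sg_sq, mul_one]
      · rw [mul_zero]
    rw [sum_congr rfl fun y' _ => h3 y', sum_ite_eq univ y]
    simp
  rw [sum_congr rfl fun y _ => h2 y]
  simp

theorem Fo_eq (H : X → X → ℝ) (a : X ⊕ X → Bool) :
    Fo H a = (∑ x, sg (a (.inl x)) * ∑ y, H x y * sg (a (.inr y))) / Fintype.card X := by
  unfold Fo
  congr 1
  refine sum_congr rfl fun x _ => ?_
  rw [mul_sum]
  exact sum_congr rfl fun y _ => by ring

theorem abs_Fo_le [Nonempty X] (hH : Orth H γ) (a : X ⊕ X → Bool) : |Fo H a| ≤ 1 := by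
  have hN : (0 : ℝ) < Fintype.card X := by
    have := Fintype.card_pos (α := X)
    positivity
  rw [Fo_eq, abs_div, abs_of_pos hN, div_le_one hN]
  refine abs_le_of_sq_le_sq ?_ hN.le
  refine (sum_mul_sq_le_sq_mul_sq univ _ _).trans ?_
  rw [sum_Hw hH]
  have h1 : ∑ x, sg (a (.inl x)) ^ 2 = Fintype.card X := by
    have : ∀ x, sg (a (.inl x)) ^ 2 = 1 := fun x => by rw [sq, sg_sq]
    rw [sum_congr rfl fun x _ => this x]
    simp
  rw [h1]
  exact le_of_eq (by ring)

/-- the second moment of the forrelation -/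
theorem avg_Fo_sq [Nonempty X] (hH : Orth H γ) :
    ml (fun a => Fo H a ^ 2) 0 = 1 / Fintype.card X := by
  have hN : (Fintype.card X : ℝ) ≠ 0 := by
    have := Fintype.card_pos (α := X)
    positivity
  have h1 : ml (fun a => Fo H a ^ 2) 0 = Eu (fun w : X → Bool => Eu fun u : X → Bool =>
      Fo H (Sum.elim u w) ^ 2) := by
    rw [ml_zero]
    unfold Eu
    rw [← sum_div, div_div]
    congr 1
    · rw [← (Equiv.sumArrowEquivProdArrow X X Bool).symm.sum_comp, Fintype.sum_prod_type, sum_comm]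
      rfl
    · rw [Fintype.card_sum, pow_add]
  have h2 : ∀ w : X → Bool, Eu (fun u : X → Bool => Fo H (Sum.elim u w) ^ 2) =
      1 / Fintype.card X := by
    intro w
    have h3 : (fun u : X → Bool => Fo H (Sum.elim u w) ^ 2) = fun u =>
        inc (fun (_ : Unit) x => (∑ y, H x y * sg (w y)) / Fintype.card X) u () *
        inc (fun (_ : Unit) x => (∑ y, H x y * sg (w y)) / Fintype.card X) u () := by
      funext u
      have h4 : Fo H (Sum.elim u w) =
          inc (fun (_ : Unit) x => (∑ y, H x y * sg (w y)) / Fintype.card X) u () := by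
        rw [Fo_eq]
        unfold inc
        rw [sum_div]
        refine sum_congr rfl fun x _ => ?_
        simp only [Sum.elim_inl, Sum.elim_inr]
        ring
      rw [h4, sq]
    rw [h3, Eu_inc2]
    have h5 : ∀ x, (∑ y, H x y * sg (w y)) / (Fintype.card X : ℝ) *
        ((∑ y, H x y * sg (w y)) / (Fintype.card X : ℝ)) =
        (∑ y, H x y * sg (w y)) ^ 2 / (Fintype.card X : ℝ) ^ 2 := fun x => by ring
    rw [sum_congr rfl fun x _ => h5 x, ← sum_div, sum_Hw hH]
    field_simp
  rw [h1]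
  simp only [h2]
  exact Eu_const _

theorem ml_add' {I : Type*} [Fintype I] [DecidableEq I] (F G : (I → Bool) → ℝ) (v : I → ℝ) :
    ml (fun a => F a + G a) v = ml F v + ml G v := by
  simp only [ml_eq, add_mul, sum_add_distrib]

open Classical in
/-- **Forrelation is hard for functions with small second level.** -/
theorem core [Nonempty X] (hH : Orth H γ) (h : (X ⊕ X → Bool) → Bool) {L ε η : ℝ} (hL0 : 0 ≤ L)
    (hL : ∀ ρ : Restr (X ⊕ X), lv 2 (br (rs h ρ)) 0 ≤ L) (hε : 0 < ε) (hη : 0 < η)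
    (hp : 4 * (Fintype.card X : ℝ) * Real.exp (-(1 / (8 * ε))) ≤ 1 / 2)
    (hmain : ε * (γ * (4 * L)) + 1 / (Fintype.card X * η ^ 2) < ε / 4) :
    ∃ a : X ⊕ X → Bool, (ε / 4 ≤ Fo H a ∧ h a = false) ∨ (|Fo H a| ≤ η ∧ h a = true) := by
  by_contra hcon
  push Not at hcon
  have hN1 : 1 ≤ Fintype.card X := Fintype.card_pos
  have hN : (1 : ℝ) ≤ Fintype.card X := by exact_mod_cast hN1
  have hγ0 := hH.nonneg
  set N : ℝ := (Fintype.card X : ℝ) with hNdef
  set K : ℝ := 2 ^ Fintype.card (X ⊕ X) * N ^ Fintype.card (X ⊕ X) with hK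
  have hK1 : 1 ≤ K := by
    have h1 : (1 : ℝ) ≤ 2 ^ Fintype.card (X ⊕ X) := one_le_pow₀ (by norm_num)
    have h2 : (1 : ℝ) ≤ N ^ Fintype.card (X ⊕ X) := one_le_pow₀ hN
    nlinarith
  set s : ℝ := ε / 4 - (ε * (γ * (4 * L)) + 1 / (N * η ^ 2)) with hs
  have hs0 : 0 < s := by linarith
  -- the step size
  set δ₀ : ℝ := min 1 (min (1 / (2 * N)) (s / (2 * ε * K))) with hδ₀
  have hδ₀0 : 0 < δ₀ := by
    refine lt_min one_pos (lt_min (by positivity) (by positivity))
  obtain ⟨T, hT⟩ := exists_nat_gt (ε / δ₀ ^ 2)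
  have hT0 : (0 : ℝ) < T := lt_of_le_of_lt (by positivity) hT
  set δ : ℝ := Real.sqrt (ε / T) with hδ
  have hδ0 : 0 ≤ δ := Real.sqrt_nonneg _
  have hδsq : δ ^ 2 = ε / T := Real.sq_sqrt (by positivity)
  have hTδ : T * δ ^ 2 = ε := by rw [hδsq]; field_simp
  have hδle : δ ≤ δ₀ := by
    refine abs_le_of_sq_le_sq' ?_ hδ₀0.le |>.2
    rw [hδsq, div_le_iff₀ hT0]
    rw [div_lt_iff₀ (by positivity)] at hT
    linarith
  have hδ1 : δ ≤ 1 := hδle.trans (min_le_left _ _)
  have hδN : δ * N ≤ 1 / 2 := by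
    have h1 : δ ≤ 1 / (2 * N) := hδle.trans ((min_le_right _ _).trans (min_le_left _ _))
    rw [le_div_iff₀ (by positivity)] at h1
    linarith
  have hδK : ε * δ * K ≤ s / 2 := by
    have h1 : δ ≤ s / (2 * ε * K) := hδle.trans ((min_le_right _ _).trans (min_le_right _ _))
    rw [le_div_iff₀ (by positivity)] at h1
    linarith
  have hsm : Small (Wf H) δ := by
    intro u i
    rw [abs_mul, abs_of_nonneg hδ0]
    exact (mul_le_mul_of_nonneg_left (inc_le hH u i) hδ0).trans hδN
  -- the distance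
  have hdist := Sn_ml (W := Wf H) hδ0 hδ1 hN (fun u i => inc_le hH u i) hsm hγ0 (gram_ne hH)
    (F := br h) (abs_br_le h) hL0 hL T
  have hdist2 : T * (δ ^ 2 * γ * (4 * L) + δ ^ 3 * K) ≤ ε * (γ * (4 * L)) + s / 2 := by
    have e1 : T * (δ ^ 2 * γ * (4 * L) + δ ^ 3 * K) =
        (T * δ ^ 2) * (γ * (4 * L)) + (T * δ ^ 2) * δ * K := by ring
    rw [e1, hTδ]
    linarith
  have hdist3 := (abs_le.1 (hdist.trans hdist2)).2
  -- the exit probability
  have hout : ∀ t < T, Sn (Wf H) δ t (fun v => if ∀ i, |v i| ≤ 1 / 2 then (0 : ℝ) else 1) 0 ≤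
      1 / 2 := by
    intro t ht
    have h1 := Sn_out (W := Wf H) hsm (gram_row hH) (lam := 1 / (2 * ε)) (by positivity) t
    refine h1.trans (le_trans ?_ hp)
    have h2 : (t : ℝ) * ((1 / (2 * ε) * δ) ^ 2 / 2) ≤ 1 / (8 * ε) := by
      have h3 : (t : ℝ) ≤ T := by exact_mod_cast ht.le
      calc (t : ℝ) * ((1 / (2 * ε) * δ) ^ 2 / 2) ≤ T * ((1 / (2 * ε) * δ) ^ 2 / 2) :=
            mul_le_mul_of_nonneg_right h3 (by positivity)
        _ = (T * δ ^ 2) * (1 / (8 * ε ^ 2)) := by ring
        _ = 1 / (8 * ε) := by rw [hTδ]; field_simp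
    have h4 : Real.exp (t * ((1 / (2 * ε) * δ) ^ 2 / 2)) ≤ Real.exp (1 / (8 * ε)) :=
      Real.exp_le_exp.2 h2
    have h5 : (Fintype.card (X ⊕ X) : ℝ) = 2 * N := by
      rw [Fintype.card_sum, hNdef]; push_cast; ring
    have h6 : Real.exp (-(1 / (8 * ε))) = Real.exp (1 / (8 * ε)) *
        Real.exp (-(1 / (2 * ε)) / 2) := by
      rw [← Real.exp_add]
      congr 1
      field_simp
      ring
    rw [h5, h6]
    have h7 : (0 : ℝ) ≤ 2 * N * (2 * Real.exp (-(1 / (2 * ε)) / 2)) := by positivity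
    have h8 := mul_le_mul_of_nonneg_right h4 h7
    linarith
  -- the drift
  have hdr := Sn_drift (W := Wf H) hsm (g := ml (Fo H)) (c := δ ^ 2) (p := 1 / 2) (by positivity)
    (fun v hv => le_of_eq (St_Fo hH hv).symm) T hout
  have h0 : ml (Fo H) 0 = 0 := by
    rw [ml_Fo]
    simp
  rw [h0, zero_add] at hdr
  have hdr2 : ε / 2 ≤ Sn (Wf H) δ T (ml (Fo H)) 0 := by
    have : (T : ℝ) * (δ ^ 2 * (1 - 1 / 2)) = (T * δ ^ 2) / 2 := by ring
    rw [this, hTδ] at hdr
    exact hdr
  -- the lower bound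
  have hlow : ε / 4 ≤ Sn (Wf H) δ T (ml (br h)) 0 := by
    have h1 : ∀ v, Cube v → ml (Fo H) v + (-(ε / 4)) ≤ ml (br h) v := by
      intro v hv
      have h2 := ml_mono (F := fun a => Fo H a + (-(ε / 4))) (G := br h) (fun a => ?_) hv
      · rwa [ml_add', ml_const] at h2
      · have h3 := (abs_le.1 (abs_Fo_le hH a)).2
        unfold br
        by_cases h4 : ε / 4 ≤ Fo H a
        · have h5 : h a = true := by
            have := (hcon a).1 h4
            simpa using this
          rw [h5, if_pos rfl]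
          linarith
        · split_ifs <;> linarith
    have h2 := Sn_mono hsm T h1 0 cube_zero
    rw [Sn_add T (ml (Fo H)) (fun _ => -(ε / 4)), Sn_const] at h2
    linarith
  -- the upper bound
  have hup : ml (br h) 0 ≤ 1 / (N * η ^ 2) := by
    have h2 := ml_mono (F := br h) (G := fun a => (1 / η ^ 2) * Fo H a ^ 2) (fun a => ?_)
      (v := 0) cube_zero
    · rw [ml_smul, avg_Fo_sq hH] at h2
      refine h2.trans (le_of_eq ?_)
      rw [← hNdef]
      field_simp
    · unfold br
      by_cases h4 : |Fo H a| ≤ η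
      · have h5 := (hcon a).2 h4
        rw [if_neg h5]
        positivity
      · have h5 : (1 : ℝ) ≤ (1 / η ^ 2) * Fo H a ^ 2 := by
          rw [div_mul_eq_mul_div, one_mul, le_div_iff₀ (by positivity), one_mul, ← sq_abs (Fo H a)]
          exact pow_le_pow_left₀ hη.le (not_le.1 h4).le 2
        split_ifs
        · exact h5
        · linarith
  linarith

end Pool.Agent.H9x.RT
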