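import Pool.Agent.H9x.RT.Circ
import Pool.Agent.H9x.RT.Core

/-!
# The acceptance probability of the circuit
-/

set_option autoImplicit false
set_option linter.unusedSectionVars false

namespace Pool.Agent.H9x.RT

open Finset Pool.Agent.H9x.Q Pool.Agent.H620R2.Gauge

variable {m : ℕ}

/-- the basis state with the given contents -/
def mk (m n K : ℕ) (x : List Bool) (b : Bool) (u : Fin K → Bool) : Basis m := fun q =>
  if q.1 < n + 1 then x.getD q.1 false else if q.1 = n + 1 then true else if q.1 = n + 2 then b
    else if h : n + 5 ≤ q.1 ∧ q.1 - (n + 5) < K then u ⟨q.1 - (n + 5), h.2⟩ else false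

theorem bit_mk {n K : ℕ} {x : List Bool} {b : Bool} {u : Fin K → Bool} {q : ℕ} (hq : q < m) :
    bit (mk m n K x b u) q = if q < n + 1 then x.getD q false else if q = n + 1 then true else
      if q = n + 2 then b else if h : n + 5 ≤ q ∧ q - (n + 5) < K then u ⟨q - (n + 5), h.2⟩
      else false := by
  unfold bit
  rw [dif_pos hq]
  rfl

open Classical in
theorem sum_reg {n K : ℕ} (hm : n + 5 + K = m) (x : List Bool)
    (G : Bool → (Fin K → Bool) → ℝ) :
    ∑ z : Basis m, (if Reg n x z then G (bit z (n + 2)) (cw n K z) else 0) =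
      ∑ b, ∑ u, G b u := by
  rw [← sum_filter, ← Finset.sum_product', Finset.univ_product_univ]
  refine Finset.sum_bij' (i := fun z _ => (bit z (n + 2), cw n K z))
    (j := fun p _ => mk m n K x p.1 p.2) ?_ ?_ ?_ ?_ ?_
  · intro z _
    exact mem_univ _
  · intro p _
    rw [mem_filter]
    refine ⟨mem_univ _, fun q hq => ?_, ?_, ?_, ?_⟩
    · rw [bit_mk (by omega), if_pos hq]
    · rw [bit_mk (by omega), if_neg (by omega), if_pos rfl]
    · rw [bit_mk (by omega), if_neg (by omega), if_neg (by omega), if_neg (by omega),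
        dif_neg (by omega)]
    · rw [bit_mk (by omega), if_neg (by omega), if_neg (by omega), if_neg (by omega),
        dif_neg (by omega)]
  · intro z hz
    obtain ⟨h1, h2, h3, h4⟩ := (mem_filter.1 hz).2
    refine basis_ext fun q hq => ?_
    simp only
    rw [bit_mk hq]
    split_ifs with c1 c2 c3 c4
    · exact (h1 q c1).symm
    · rw [c2, h2]
    · rw [c3]
    · unfold cw
      simp only
      rw [show n + 5 + (q - (n + 5)) = q by omega]
    · have : q = n + 3 ∨ q = n + 4 := by omega
      rcases this with rfl | rfl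
      · exact h3.symm
      · exact h4.symm
  · intro p _
    refine Prod.ext ?_ ?_
    · simp only
      rw [bit_mk (by omega), if_neg (by omega), if_neg (by omega), if_pos rfl]
    · funext t
      have ht := t.2
      simp only [cw]
      rw [bit_mk (by omega), if_neg (by omega), if_neg (by omega), if_neg (by omega),
        dif_pos (by omega)]
      exact congrArg p.2 (Fin.ext (by show n + 5 + (t : ℕ) - (n + 5) = t; omega))
  · intro z _
    rfl

theorem sum_Psi {n K : ℕ} (hm : n + 5 + K = m) (x : List Bool) (a : (Fin K → Bool) → ℂ)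
    (c : (Fin K → Bool) → Bool) :
    ∑ z : Basis m, (if c (cw n K z) = true then ‖Psi n K x a z‖ ^ 2 else 0) =
      ∑ u, if c u = true then ‖a u‖ ^ 2 else 0 := by
  classical
  have h1 : ∀ z : Basis m, (if c (cw n K z) = true then ‖Psi n K x a z‖ ^ 2 else 0) =
      if Reg n x z then (fun (_ : Bool) u => (1 / 2 : ℝ) * if c u = true then ‖a u‖ ^ 2 else 0)
        (bit z (n + 2)) (cw n K z) else 0 := by
    intro z
    by_cases hr : Reg n x z
    · rw [if_pos hr, Psi_pos hr, norm_mul, mul_pow, norm_mu]
      by_cases hc : c (cw n K z) = true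
      · simp [hc]
      · simp [hc]
    · rw [if_neg hr, Psi_neg hr]
      simp
  rw [sum_congr rfl fun z _ => h1 z]
  refine (sum_reg hm x (fun (_ : Bool) u => (1 / 2 : ℝ) * if c u = true then ‖a u‖ ^ 2 else 0)).trans ?_
  simp only [Fintype.sum_bool]
  rw [← mul_sum]
  ring

theorem not_mem_fq {n K : ℕ} (ppre : List Bool) : 0 ∉ fq n ppre K := by
  intro h
  unfold fq at h
  rcases List.mem_append.1 h with h | h
  · obtain ⟨b, _, hb⟩ := List.mem_map.1 h
    unfold cidx at hb
    split_ifs at hb
  · obtain ⟨t, _, ht⟩ := List.mem_map.1 h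
    omega

theorem fq_bits {n K : ℕ} {x : List Bool} {z : Basis m} (h : Reg n x z) (ppre : List Bool) :
    (fq n ppre K).map (bit z) = ppre ++ List.ofFn (cw n K z) := by
  unfold fq
  rw [List.map_append, map_bit_cidx h, List.map_map]
  congr 1
  refine List.ext_getElem (by simp) fun i h2 h3 => ?_
  rw [List.getElem_map, List.getElem_range, List.getElem_ofFn]
  rfl

theorem prob_fin {n K : ℕ} (hm : n + 5 + K = m) {x : List Bool} (hx : x.length = n) (A : Oracle)
    (ppre : List Bool) (a : (Fin K → Bool) → ℂ) :
    ∑ z : Basis m, (if bit z 0 then ‖run A (fin n ppre K) (Psi n K x a) z‖ ^ 2 else 0) =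
      ∑ u, if A (ppre ++ List.ofFn u) = true then ‖a u‖ ^ 2 else 0 := by
  have c1 : ∀ (z : Basis m) b, (fun z : Basis m => bit z 0) (put z (n + 3) b) =
      (fun z : Basis m => bit z 0) z := fun z b => bit_put_ne (by omega) b
  have c2 : ∀ (z : Basis m) b, (fun z : Basis m => bit z (n + 3)) (put z 0 b) =
      (fun z : Basis m => bit z (n + 3)) z := fun z b => bit_put_ne (by omega) b
  have c3 : ∀ (z : Basis m) b, (fun z : Basis m => A ((fq n ppre K).map (bit z))) (put z 0 b) =
      (fun z : Basis m => A ((fq n ppre K).map (bit z))) z := fun z b => by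
    simp only [map_bit_put (not_mem_fq ppre) b]
  set F1 : Basis m → Basis m := flipBy (n + 3) (fun z => bit z 0) with hF1
  set F2 : Basis m → Basis m := flipBy 0 (fun z => bit z (n + 3)) with hF2
  set F3 : Basis m → Basis m := flipBy 0 (fun z => A ((fq n ppre K).map (bit z))) with hF3
  have h1 : ∀ z, run A (fin n ppre K) (Psi n K x a) z = Psi n K x a (F1 (F2 (F3 z))) := by
    intro z
    simp only [fin, run]
    rw [act_query A (not_mem_fq ppre), act_cnot A (show n + 3 ≠ 0 by omega),
      act_cnot A (show 0 ≠ n + 3 by omega)]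
  have h2 : ∑ z : Basis m, (if bit z 0 then ‖run A (fin n ppre K) (Psi n K x a) z‖ ^ 2 else 0) =
      ∑ z : Basis m, (if bit (F3 (F2 (F1 z))) 0 then ‖Psi n K x a z‖ ^ 2 else 0) := by
    rw [sum_congr rfl fun z _ => by rw [h1 z]]
    rw [← sum_flipBy (c := fun z : Basis m => A ((fq n ppre K).map (bit z))) c3]
    have e3 : ∀ z, F3 (F3 z) = z := flipBy_invol c3
    have e2 : ∀ z, F2 (F2 z) = z := flipBy_invol c2
    have e1 : ∀ z, F1 (F1 z) = z := flipBy_invol c1
    simp only [← hF3, e3]
    rw [← sum_flipBy (c := fun z : Basis m => bit z (n + 3)) c2]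
    simp only [← hF2, e2]
    rw [← sum_flipBy (c := fun z : Basis m => bit z 0) c1]
    simp only [← hF1, e1]
  rw [h2, ← sum_Psi hm x a (fun u => A (ppre ++ List.ofFn u))]
  refine sum_congr rfl fun z _ => ?_
  by_cases hr : Reg n x z
  · have hb1 : bit (F1 z) (n + 3) = bit z 0 := by
      rw [hF1]
      unfold flipBy
      rw [bit_put_self (by omega), hr.2.2.1]
      simp
    have hb0 : bit (F1 z) 0 = bit z 0 := by
      rw [hF1]
      unfold flipBy
      rw [bit_put_ne (by omega)]
    have hb2 : bit (F2 (F1 z)) 0 = false := by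
      rw [hF2]
      unfold flipBy
      rw [bit_put_self (by omega)]
      beta_reduce
      rw [hb1, hb0]
      simp
    have hmap : (fq n ppre K).map (bit (F2 (F1 z))) = ppre ++ List.ofFn (cw n K z) := by
      rw [← fq_bits hr ppre]
      refine List.map_congr_left fun q hq => ?_
      have hq0 : q ≠ 0 := by rintro rfl; exact not_mem_fq ppre hq
      have hq3 : q ≠ n + 3 := by
        rintro rfl
        revert hq
        unfold fq
        simp only [List.mem_append, List.mem_map, List.mem_range, cidx]
        rintro (⟨b, _, h⟩ | ⟨t, _, h⟩)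
        · split_ifs at h <;> omega
        · omega
      rw [hF2, hF1]
      unfold flipBy
      rw [bit_put_ne hq0, bit_put_ne hq3]
    have hb3 : bit (F3 (F2 (F1 z))) 0 = A (ppre ++ List.ofFn (cw n K z)) := by
      rw [hF3]
      unfold flipBy
      rw [bit_put_self (by omega)]
      beta_reduce
      rw [hb2, hmap]
      simp
    rw [hb3]
  · rw [Psi_neg hr]
    simp

/-- the amplitudes of one copy -/
noncomputable def beta (l : ℕ) (f g : (Fin l → Bool) → Bool) : (Fin l → Bool) → ℂ :=
  wal fun v => sgc (g v) * wal (fun v => sgc (f v) *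
    wal (fun v => if v = fun _ => false then 1 else 0) v) v

/-- **The acceptance probability.** -/
theorem prob_circ {n k l : ℕ} {x : List Bool} (hx : x.length = n) (A : Oracle)
    (pre ppre : List Bool) :
    prob A (circ n pre ppre l k) (n + 5 + k * l) x =
      ∑ u : Fin (k * l) → Bool, if A (ppre ++ List.ofFn u) = true then
        ‖∏ j : Fin k, beta l (fun v => A (pre ++ (x ++ (false :: List.ofFn v))))
          (fun v => A (pre ++ (x ++ (true :: List.ofFn v)))) (cpy u j)‖ ^ 2 else 0 := by
  have hd : (fun u : Fin (k * l) → Bool => if u = fun _ => false then (1 : ℂ) else 0) =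
      fun u => ∏ j : Fin k, (fun v : Fin l → Bool => if v = fun _ => false then (1 : ℂ) else 0)
        (cpy u j) := by
    funext u
    simp only
    rw [Fintype.prod_ite_zero]
    simp only [prod_const_one]
    congr 1
    refine propext ⟨fun h j => ?_, fun h => ?_⟩
    · rw [h]; rfl
    · funext t
      have := congrFun (h (finProdFinEquiv.symm t).1) (finProdFinEquiv.symm t).2
      unfold cpy at this
      rwa [Prod.mk.eta, Equiv.apply_symm_apply] at this
  unfold prob circ
  have hm : n + 5 + k * l = n + 5 + k * l := rfl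
  have e : run A (prep n ++ (hl n (k * l) ++ (pq n pre false l k ++ (hl n (k * l) ++
      (pq n pre true l k ++ (hl n (k * l) ++ fin n ppre (k * l))))))) (ket (inp (n + 5 + k * l) x)) =
      run A (fin n ppre (k * l)) (Psi n (k * l) x fun u => ∏ j : Fin k,
        beta l (fun v => A (pre ++ (x ++ (false :: List.ofFn v))))
          (fun v => A (pre ++ (x ++ (true :: List.ofFn v)))) (cpy u j)) := by
    rw [run_append, run_append, run_append, run_append, run_append, run_append,
      run_prep hx hm, hd, run_hl le_rfl,
      wal_cpy (fun v : Fin l → Bool => if v = fun _ => false then (1 : ℂ) else 0),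
      run_pq hx le_rfl]
    simp only [← prod_mul_distrib]
    rw [run_hl le_rfl, wal_cpy (fun v => sgc (A (pre ++ (x ++ false :: List.ofFn v))) *
      wal (fun v => if v = fun _ => false then 1 else 0) v), run_pq hx le_rfl]
    simp only [← prod_mul_distrib]
    rw [run_hl le_rfl, wal_cpy (fun v => sgc (A (pre ++ (x ++ true :: List.ofFn v))) *
      wal (fun v => sgc (A (pre ++ (x ++ false :: List.ofFn v))) *
      wal (fun v => if v = fun _ => false then 1 else 0) v) v)]
    rfl
  rw [e]
  exact prob_fin rfl hx A ppre _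

end Pool.Agent.H9x.RT
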