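import Mathlib

/-!
# Hadamard gates on product functions
-/

set_option autoImplicit false
set_option linter.unusedSectionVars false

namespace Pool.Agent.H9x.RT

open Finset

section

variable {T : Type*} [Fintype T] [DecidableEq T]

/-- the square root of two -/
noncomputable def s2 : ℂ := (Real.sqrt 2 : ℂ)

theorem s2_sq : s2 * s2 = 2 := by
  unfold s2
  rw [← Complex.ofReal_mul, Real.mul_self_sqrt (by norm_num)]
  simp

theorem s2_ne : s2 ≠ 0 := by
  intro h
  have := s2_sq
  rw [h] at this
  norm_num at this

theorem norm_s2_sq : ‖s2‖ ^ 2 = 2 := by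
  unfold s2
  rw [Complex.norm_real, Real.norm_eq_abs, sq_abs, Real.sq_sqrt (by norm_num)]

/-- the Hadamard gate on the coordinate `t` -/
noncomputable def hd (t : T) (a : (T → Bool) → ℂ) : (T → Bool) → ℂ := fun u =>
  (a (Function.update u t false) + (if u t then -1 else 1) * a (Function.update u t true)) / s2

/-- the Hadamard gate on functions of one bit -/
noncomputable def hb (b : Bool → ℂ) : Bool → ℂ := fun x =>
  (b false + (if x then -1 else 1) * b true) / s2

theorem hd_prod (t : T) (b : T → Bool → ℂ) :
    hd t (fun u => ∏ s, b s (u s)) = fun u => ∏ s, (if s = t then hb (b s) else b s) (u s) := by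
  funext u
  unfold hd
  have h1 : ∀ c : Bool, ∏ s, b s (Function.update u t c s) = b t c * ∏ s ∈ univ.erase t, b s (u s) := by
    intro c
    rw [← mul_prod_erase univ _ (mem_univ t), Function.update_self]
    congr 1
    exact prod_congr rfl fun s hs => by rw [Function.update_of_ne (mem_erase.1 hs).1]
  beta_reduce
  rw [h1, h1, ← mul_prod_erase univ (fun s => (if s = t then hb (b s) else b s) (u s)) (mem_univ t)]
  have h2 : ∏ s ∈ univ.erase t, (if s = t then hb (b s) else b s) (u s) =
      ∏ s ∈ univ.erase t, b s (u s) :=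
    prod_congr rfl fun s hs => by rw [if_neg (mem_erase.1 hs).1]
  rw [h2, if_pos rfl]
  unfold hb
  ring

theorem hd_sum {κ : Type*} (S : Finset κ) (t : T) (c : κ → ℂ) (f : κ → (T → Bool) → ℂ) :
    hd t (fun u => ∑ i ∈ S, c i * f i u) = fun u => ∑ i ∈ S, c i * hd t (f i) u := by
  funext u
  unfold hd
  rw [mul_sum, ← sum_add_distrib, sum_div]
  refine sum_congr rfl fun i _ => ?_
  ring

/-- Hadamard gates on the coordinates in a list -/
noncomputable def hds : List T → ((T → Bool) → ℂ) → ((T → Bool) → ℂ)
  | [], a => a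
  | t :: L, a => hds L (hd t a)

theorem hds_sum {κ : Type*} (S : Finset κ) : ∀ (L : List T) (c : κ → ℂ) (f : κ → (T → Bool) → ℂ),
    hds L (fun u => ∑ i ∈ S, c i * f i u) = fun u => ∑ i ∈ S, c i * hds L (f i) u := by
  intro L
  induction L with
  | nil => intro c f; rfl
  | cons t L ih =>
    intro c f
    simp only [hds]
    rw [hd_sum, ih]

theorem hds_prod : ∀ (L : List T), L.Nodup → ∀ b : T → Bool → ℂ,
    hds L (fun u => ∏ s, b s (u s)) = fun u => ∏ s, (if s ∈ L then hb (b s) else b s) (u s) := by
  intro L
  induction L with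
  | nil => intro _ b; simp [hds]
  | cons t L ih =>
    intro hL b
    rw [List.nodup_cons] at hL
    simp only [hds]
    rw [hd_prod, ih hL.2]
    funext u
    refine prod_congr rfl fun s _ => ?_
    by_cases hs : s = t
    · subst hs
      simp [hL.1]
    · simp [hs]

/-- the matrix entry of the Hadamard gate -/
noncomputable def hk (x y : Bool) : ℂ := (if x && y then -1 else 1) / s2

theorem hk_symm (x y : Bool) : hk x y = hk y x := by
  unfold hk
  rw [Bool.and_comm]

theorem hb_delta (y x : Bool) : hb (fun z => if z = y then 1 else 0) x = hk x y := by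
  unfold hb hk
  cases x <;> cases y <;> simp

/-- the Walsh-Hadamard transform -/
noncomputable def wal (a : (T → Bool) → ℂ) (u : T → Bool) : ℂ := ∑ v, a v * ∏ t, hk (u t) (v t)

theorem delta_prod (v u : T → Bool) : (if u = v then (1 : ℂ) else 0) =
    ∏ s, (if u s = v s then (1 : ℂ) else 0) := by
  rw [Fintype.prod_ite_zero]
  simp only [prod_const_one]
  congr 1
  exact propext ⟨fun h i => congrFun h i, fun h => funext h⟩

theorem hds_all (L : List T) (hL : L.Nodup) (hall : ∀ t, t ∈ L) (a : (T → Bool) → ℂ) :
    hds L a = wal a := by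
  have h1 : a = fun u => ∑ v, a v * ∏ s, (fun z => if z = v s then (1 : ℂ) else 0) (u s) := by
    funext u
    rw [sum_eq_single u]
    · simp
    · intro v _ hv
      have := delta_prod v u
      rw [if_neg (Ne.symm hv)] at this
      simp only
      rw [← this, mul_zero]
    · intro h
      exact absurd (mem_univ u) h
  conv_lhs => rw [h1]
  rw [hds_sum univ L a (fun v u => ∏ s, (fun z => if z = v s then (1 : ℂ) else 0) (u s))]
  funext u
  unfold wal
  refine sum_congr rfl fun v _ => ?_
  rw [hds_prod L hL (fun s z => if z = v s then (1 : ℂ) else 0)]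
  congr 1
  refine prod_congr rfl fun s _ => ?_
  rw [if_pos (hall s)]
  exact hb_delta _ _

end

/-! ### Products over the copies -/

section

variable {k l : ℕ}

/-- the copy number `j` -/
def cpy (u : Fin (k * l) → Bool) (j : Fin k) : Fin l → Bool := fun i => u (finProdFinEquiv (j, i))

/-- all copies -/
def cpys : (Fin (k * l) → Bool) ≃ (Fin k → Fin l → Bool) where
  toFun u j := cpy u j
  invFun w t := w (finProdFinEquiv.symm t).1 (finProdFinEquiv.symm t).2
  left_inv u := by
    funext t
    show u (finProdFinEquiv (finProdFinEquiv.symm t)) = u t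
    rw [Equiv.apply_symm_apply]
  right_inv w := by
    funext j i
    show w (finProdFinEquiv.symm (finProdFinEquiv (j, i))).1
      (finProdFinEquiv.symm (finProdFinEquiv (j, i))).2 = w j i
    rw [Equiv.symm_apply_apply]

/-- the sum of a product over the copies -/
theorem sum_cpy {R : Type*} [CommRing R] (f : Fin k → (Fin l → Bool) → R) :
    ∑ u : Fin (k * l) → Bool, ∏ j, f j (cpy u j) = ∏ j, ∑ v, f j v := by
  classical
  rw [Finset.prod_univ_sum, Fintype.piFinset_univ]
  exact Equiv.sum_comp (cpys (k := k) (l := l)) (fun w => ∏ j, f j (w j))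

theorem prod_cpy {R : Type*} [CommRing R] (f : Fin (k * l) → R) :
    ∏ t, f t = ∏ j : Fin k, ∏ i : Fin l, f (finProdFinEquiv (j, i)) := by
  rw [← finProdFinEquiv.prod_comp, Fintype.prod_prod_type]

theorem wal_cpy (b : (Fin l → Bool) → ℂ) :
    wal (fun u : Fin (k * l) → Bool => ∏ j, b (cpy u j)) = fun u => ∏ j, wal b (cpy u j) := by
  funext u
  unfold wal
  rw [← sum_cpy (fun j v => b v * ∏ t, hk (cpy u j t) (v t))]
  refine sum_congr rfl fun v _ => ?_
  rw [prod_mul_distrib, prod_cpy (fun t => hk (u t) (v t))]
  rfl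

end

end Pool.Agent.H9x.RT
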