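import Pool.Agent.H9x.Q.Hyb
import Pool.Agent.H9x.RT.Wal

/-!
# A quantum circuit for forrelation
-/

set_option autoImplicit false
set_option linter.unusedSectionVars false

namespace Pool.Agent.H9x.RT

open Finset Pool.Agent.H9x.Q Pool.Agent.H620R2.Gauge

/-- a qubit with the constant value `b` -/
def cidx (n : ℕ) (b : Bool) : ℕ := if b then n + 1 else n + 4

/-- negation of a qubit -/
def xg (q : ℕ) : List Gate := [.had q, .tgate q, .tgate q, .tgate q, .tgate q, .had q]

/-- preparation of the constants -/
def prep (n : ℕ) : List Gate := xg (n + 1) ++ (xg (n + 2) ++ [.had (n + 2)])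

/-- Hadamard gates on all copies -/
def hl (n K : ℕ) : List Gate := (List.range K).map fun t => Gate.had (n + 5 + t)

/-- the qubits with the question for the copy number `j` -/
def qs (n : ℕ) (pre : List Bool) (side : Bool) (l j : ℕ) : List ℕ :=
  pre.map (cidx n) ++ (List.range n ++
    (cidx n side :: (List.range l).map fun i => n + 5 + (i + l * j)))

/-- questions for all copies -/
def pq (n : ℕ) (pre : List Bool) (side : Bool) (l k : ℕ) : List Gate :=
  (List.range k).map fun j => Gate.query (qs n pre side l j) (n + 2)

/-- the qubits with the last question -/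
def fq (n : ℕ) (ppre : List Bool) (K : ℕ) : List ℕ :=
  ppre.map (cidx n) ++ (List.range K).map fun t => n + 5 + t

/-- the last gates -/
def fin (n : ℕ) (ppre : List Bool) (K : ℕ) : List Gate :=
  [.cnot 0 (n + 3), .cnot (n + 3) 0, .query (fq n ppre K) 0]

/-- the circuit -/
def circ (n : ℕ) (pre ppre : List Bool) (l k : ℕ) : List Gate :=
  prep n ++ (hl n (k * l) ++ (pq n pre false l k ++ (hl n (k * l) ++ (pq n pre true l k ++
    (hl n (k * l) ++ fin n ppre (k * l))))))

theorem run_append {m : ℕ} (A : Oracle) (C C' : List Gate) : ∀ ψ : Basis m → ℂ,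
    run A (C ++ C') ψ = run A C' (run A C ψ) := by
  induction C with
  | nil => intro ψ; rfl
  | cons g C ih => intro ψ; exact ih _

variable {m : ℕ}

/-- the registers have the right contents -/
def Reg (n : ℕ) (x : List Bool) (z : Basis m) : Prop :=
  (∀ q < n + 1, bit z q = x.getD q false) ∧ bit z (n + 1) = true ∧ bit z (n + 3) = false ∧
    bit z (n + 4) = false

/-- the contents of the copies -/
def cw (n K : ℕ) (z : Basis m) : Fin K → Bool := fun t => bit z (n + 5 + t)

/-- the sign -/
def sgc (b : Bool) : ℂ := if b then -1 else 1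

/-- the amplitudes of the qubit `n + 2` -/
noncomputable def mu (b : Bool) : ℂ := sgc b / s2

open Classical in
/-- the state with the amplitudes `a` -/
noncomputable def Psi (n K : ℕ) (x : List Bool) (a : (Fin K → Bool) → ℂ) : Basis m → ℂ := fun z =>
  if Reg n x z then mu (bit z (n + 2)) * a (cw n K z) else 0

theorem Psi_pos {n K : ℕ} {x : List Bool} {z : Basis m} (h : Reg n x z)
    (a : (Fin K → Bool) → ℂ) : Psi n K x a z = mu (bit z (n + 2)) * a (cw n K z) := by
  unfold Psi
  rw [if_pos h]

theorem Psi_neg {n K : ℕ} {x : List Bool} {z : Basis m} (h : ¬ Reg n x z)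
    (a : (Fin K → Bool) → ℂ) : Psi n K x a z = 0 := by
  unfold Psi
  rw [if_neg h]

theorem norm_mu (b : Bool) : ‖mu b‖ ^ 2 = 1 / 2 := by
  unfold mu sgc
  rw [norm_div, div_pow, norm_s2_sq]
  cases b <;> simp

theorem basis_ext {z z' : Basis m} (h : ∀ q < m, bit z q = bit z' q) : z = z' := by
  funext i
  have := h i.1 i.2
  unfold bit at this
  rw [dif_pos i.2, dif_pos i.2] at this
  exact this

/-- the negation -/
theorem run_xg (A : Oracle) {q : ℕ} (hq : q < m) (ψ : Basis m → ℂ) :
    run A (xg q) ψ = fun z => ψ (put z q (!bit z q)) := by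
  have hT : ∀ φ : Basis m → ℂ, run A [.tgate q, .tgate q, .tgate q, .tgate q] φ =
      fun z => sgc (bit z q) * φ z := by
    intro φ
    funext z
    simp only [run, Gate.act]
    cases bit z q
    · simp [sgc]
    · simp only [if_true, sgc]
      have h4 : Complex.exp (Real.pi / 4 * Complex.I) * (Complex.exp (Real.pi / 4 * Complex.I) *
          (Complex.exp (Real.pi / 4 * Complex.I) * (Complex.exp (Real.pi / 4 * Complex.I)))) = -1 := by
        rw [← Complex.exp_add, ← Complex.exp_add, ← Complex.exp_add, ← Complex.exp_pi_mul_I]
        congr 1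
        ring
      calc _ = (Complex.exp (Real.pi / 4 * Complex.I) * (Complex.exp (Real.pi / 4 * Complex.I) *
          (Complex.exp (Real.pi / 4 * Complex.I) * (Complex.exp (Real.pi / 4 * Complex.I))))) *
          φ z := by ring
        _ = _ := by rw [h4]
  have hxg : xg q = [Gate.had q] ++ ([.tgate q, .tgate q, .tgate q, .tgate q] ++ [Gate.had q]) := rfl
  rw [hxg, run_append, run_append, hT]
  funext z
  simp only [run, Gate.act, if_pos hq, bit_put_self hq, put_put, sgc]
  have h2 : (Real.sqrt 2 : ℂ) ≠ 0 := s2_ne
  have h3 : (Real.sqrt 2 : ℂ) * (Real.sqrt 2 : ℂ) = 2 := s2_sq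
  cases hb : bit z q
  · simp only [Bool.false_eq_true, if_false, if_true, Bool.not_false]
    field_simp
    rw [sq, h3]
    ring
  · simp only [Bool.false_eq_true, if_false, if_true, Bool.not_true]
    field_simp
    rw [sq, h3]
    ring

theorem reg_put {n : ℕ} {x : List Bool} {z : Basis m} {q : ℕ} (hq : n + 5 ≤ q) (b : Bool) :
    Reg n x (put z q b) ↔ Reg n x z := by
  unfold Reg
  rw [bit_put_ne (by omega), bit_put_ne (by omega), bit_put_ne (by omega)]
  have : ∀ r < n + 1, bit (put z q b) r = bit z r := fun r hr => bit_put_ne (by omega) b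
  exact and_congr (forall₂_congr fun r hr => by rw [this r hr]) Iff.rfl

theorem reg_put2 {n : ℕ} {x : List Bool} {z : Basis m} (b : Bool) :
    Reg n x (put z (n + 2) b) ↔ Reg n x z := by
  unfold Reg
  rw [bit_put_ne (by omega), bit_put_ne (by omega), bit_put_ne (by omega)]
  have : ∀ r < n + 1, bit (put z (n + 2) b) r = bit z r := fun r hr => bit_put_ne (by omega) b
  exact and_congr (forall₂_congr fun r hr => by rw [this r hr]) Iff.rfl

theorem cw_put {n K : ℕ} (hm : n + 5 + K ≤ m) (z : Basis m) (t : Fin K) (b : Bool) :
    cw n K (put z (n + 5 + t) b) = Function.update (cw n K z) t b := by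
  funext s
  unfold cw
  by_cases hs : s = t
  · subst hs
    rw [Function.update_self, bit_put_self (by omega)]
  · rw [Function.update_of_ne hs, bit_put_ne]
    intro h
    exact hs (Fin.ext (by omega))

theorem cw_put2 {n K : ℕ} (z : Basis m) (b : Bool) :
    cw n K (put z (n + 2) b) = cw n K z := by
  funext s
  unfold cw
  rw [bit_put_ne (by omega)]

theorem act_had {n K : ℕ} (hm : n + 5 + K ≤ m) (A : Oracle) (x : List Bool)
    (a : (Fin K → Bool) → ℂ) (t : Fin K) :
    (Gate.had (n + 5 + t)).act A (Psi n K x a : Basis m → ℂ) = Psi n K x (hd t a) := by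
  funext z
  have ht := t.2
  simp only [Gate.act]
  rw [if_pos (by omega)]
  by_cases hr : Reg n x z
  · rw [Psi_pos hr, Psi_pos ((reg_put (by omega) _).2 hr), Psi_pos ((reg_put (by omega) _).2 hr),
      cw_put hm, cw_put hm, bit_put_ne (by omega), bit_put_ne (by omega)]
    unfold hd
    have : bit z (n + 5 + t) = cw n K z t := rfl
    rw [this]
    unfold s2
    ring
  · rw [Psi_neg hr, Psi_neg (fun h => hr ((reg_put (by omega) _).1 h)),
      Psi_neg (fun h => hr ((reg_put (by omega) _).1 h))]
    simp

theorem run_hds {n K : ℕ} (hm : n + 5 + K ≤ m) (A : Oracle) (x : List Bool) :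
    ∀ (L : List (Fin K)) (a : (Fin K → Bool) → ℂ),
      run A (L.map fun (t : Fin K) => Gate.had (n + 5 + t)) (Psi n K x a : Basis m → ℂ) =
        Psi n K x (hds L a) := by
  intro L
  induction L with
  | nil => intro a; rfl
  | cons t L ih =>
    intro a
    simp only [List.map_cons, run, hds]
    rw [act_had hm, ih]

theorem run_hl {n K : ℕ} (hm : n + 5 + K ≤ m) (A : Oracle) (x : List Bool)
    (a : (Fin K → Bool) → ℂ) :
    run A (hl n K) (Psi n K x a : Basis m → ℂ) = Psi n K x (wal a) := by
  have h1 : hl n K = (List.finRange K).map fun (t : Fin K) => Gate.had (n + 5 + t) := by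
    unfold hl
    rw [← List.map_coe_finRange_eq_range, List.map_map]
    rfl
  rw [h1, run_hds hm, hds_all _ (List.nodup_finRange K) (List.mem_finRange)]

theorem map_bit_cidx {n : ℕ} {x : List Bool} {z : Basis m} (h : Reg n x z) (pre : List Bool) :
    (pre.map (cidx n)).map (bit z) = pre := by
  rw [List.map_map]
  conv_rhs => rw [← List.map_id pre]
  refine List.map_congr_left fun b _ => ?_
  simp only [Function.comp, cidx, id]
  cases b
  · rw [if_neg (by simp)]; exact h.2.2.2
  · rw [if_pos rfl]; exact h.2.1

theorem map_bit_x {n : ℕ} {x : List Bool} (hx : x.length = n) {z : Basis m} (h : Reg n x z) :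
    (List.range n).map (bit z) = x := by
  refine List.ext_getElem (by simp [hx]) fun i h1 h2 => ?_
  rw [List.getElem_map, List.getElem_range, h.1 i (by omega), List.getD_eq_getElem _ _ h2]

theorem qs_bits {n k l : ℕ} {x : List Bool} (hx : x.length = n) {z : Basis m} (h : Reg n x z)
    (pre : List Bool) (side : Bool) (j : Fin k) :
    (qs n pre side l j).map (bit z) =
      pre ++ (x ++ (side :: List.ofFn (cpy (cw n (k * l) z) j))) := by
  unfold qs
  rw [List.map_append, List.map_append, List.map_cons, map_bit_cidx h, map_bit_x hx h]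
  have h1 : bit z (cidx n side) = side := by
    have := map_bit_cidx h [side]
    simpa using this
  rw [h1, List.map_map]
  congr 3
  refine List.ext_getElem (by simp) fun i h2 h3 => ?_
  rw [List.getElem_map, List.getElem_range, List.getElem_ofFn]
  simp only [Function.comp, cpy, cw, finProdFinEquiv_apply_val]

theorem not_mem_qs {n l j : ℕ} (pre : List Bool) (side : Bool) : n + 2 ∉ qs n pre side l j := by
  unfold qs
  simp only [List.mem_append, List.mem_map, List.mem_cons, List.mem_range, not_or, not_exists,
    not_and, cidx]
  refine ⟨fun b _ => by split_ifs <;> omega, by omega, by split_ifs <;> omega, fun i _ => by omega⟩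

theorem act_q {n k l : ℕ} {x : List Bool} (hx : x.length = n) (hm : n + 5 + k * l ≤ m)
    (A : Oracle) (pre : List Bool) (side : Bool) (j : Fin k) (a : (Fin (k * l) → Bool) → ℂ) :
    (Gate.query (qs n pre side l j) (n + 2)).act A (Psi n (k * l) x a : Basis m → ℂ) =
      Psi n (k * l) x (fun u => sgc (A (pre ++ (x ++ (side :: List.ofFn (cpy u j))))) * a u) := by
  rw [act_query A (not_mem_qs pre side)]
  funext z
  simp only [flipBy]
  by_cases hr : Reg n x z
  · rw [Psi_pos hr, Psi_pos ((reg_put2 _).2 hr), cw_put2, bit_put_self (by omega), qs_bits hx hr]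
    unfold mu sgc
    cases bit z (n + 2) <;>
      cases A (pre ++ (x ++ side :: List.ofFn (cpy (cw n (k * l) z) j))) <;> simp <;> ring
  · rw [Psi_neg hr, Psi_neg (fun h => hr ((reg_put2 _).1 h))]

theorem run_pq {n k l : ℕ} {x : List Bool} (hx : x.length = n) (hm : n + 5 + k * l ≤ m)
    (A : Oracle) (pre : List Bool) (side : Bool) (a : (Fin (k * l) → Bool) → ℂ) :
    run A (pq n pre side l k) (Psi n (k * l) x a : Basis m → ℂ) =
      Psi n (k * l) x (fun u =>
        (∏ j : Fin k, sgc (A (pre ++ (x ++ (side :: List.ofFn (cpy u j)))))) * a u) := by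
  have h1 : pq n pre side l k =
      (List.finRange k).map fun (j : Fin k) => Gate.query (qs n pre side l j) (n + 2) := by
    unfold pq
    rw [← List.map_coe_finRange_eq_range, List.map_map]
    rfl
  have h2 : ∀ (L : List (Fin k)) (a : (Fin (k * l) → Bool) → ℂ),
      run A (L.map fun (j : Fin k) => Gate.query (qs n pre side l j) (n + 2))
        (Psi n (k * l) x a : Basis m → ℂ) = Psi n (k * l) x (fun u =>
        (L.map fun j => sgc (A (pre ++ (x ++ (side :: List.ofFn (cpy u j)))))).prod * a u) := by
    intro L
    induction L with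
    | nil => intro a; simp [run]
    | cons j L ih =>
      intro a
      simp only [List.map_cons, run]
      rw [act_q hx hm, ih]
      congr 1
      funext u
      rw [List.prod_cons]
      ring
  rw [h1, h2]
  congr 1

theorem bit_inp (x : List Bool) {q : ℕ} (hq : q < m) : bit (inp m x) q = x.getD q false := by
  unfold bit inp
  rw [dif_pos hq]

open Classical in
/-- the prepared state -/
theorem run_prep {n K : ℕ} {x : List Bool} (hx : x.length = n) (hm : n + 5 + K = m) (A : Oracle) :
    run A (prep n) (ket (inp m x)) =
      Psi n K x (fun u => if u = fun _ => false then 1 else 0) := by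
  unfold prep
  rw [run_append, run_append, run_xg A (by omega), run_xg A (by omega)]
  funext z
  simp only [run, Gate.act]
  rw [if_pos (by omega)]
  simp only [bit_put_self (show n + 2 < m by omega), put_put,
    bit_put_ne (show n + 1 ≠ n + 2 by omega), Bool.not_false, Bool.not_true]
  have h1 : ∀ b, ket (inp m x) (put (put z (n + 2) b) (n + 1) (!bit z (n + 1))) =
      if b = false ∧ Reg n x z ∧ cw n K z = (fun _ => false) then 1 else 0 := by
    intro b
    unfold ket
    congr 1
    refine propext ⟨fun h => ?_, fun h => ?_⟩
    · have h2 : ∀ q < m, bit (put (put z (n + 2) b) (n + 1) (!bit z (n + 1))) q =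
          x.getD q false := fun q hq => by rw [h, bit_inp x hq]
      have h3 : ∀ q, n ≤ q → x.getD q false = false := fun q hq =>
        List.getD_eq_default _ _ (by omega)
      refine ⟨?_, ⟨fun q hq => ?_, ?_, ?_, ?_⟩, ?_⟩
      · have := h2 (n + 2) (by omega)
        rw [bit_put_ne (by omega), bit_put_self (by omega), h3 _ (by omega)] at this
        exact this
      · have := h2 q (by omega)
        rw [bit_put_ne (by omega), bit_put_ne (by omega)] at this
        exact this
      · have := h2 (n + 1) (by omega)
        rw [bit_put_self (by omega), h3 _ (by omega)] at this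
        simpa using this
      · have := h2 (n + 3) (by omega)
        rw [bit_put_ne (by omega), bit_put_ne (by omega), h3 _ (by omega)] at this
        exact this
      · have := h2 (n + 4) (by omega)
        rw [bit_put_ne (by omega), bit_put_ne (by omega), h3 _ (by omega)] at this
        exact this
      · funext t
        have ht := t.2
        have := h2 (n + 5 + t) (by omega)
        rw [bit_put_ne (by omega), bit_put_ne (by omega), h3 _ (by omega)] at this
        exact this
    · obtain ⟨rfl, ⟨h2, h3, h4, h5⟩, h6⟩ := h
      refine basis_ext fun q hq => ?_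
      rw [bit_inp x hq]
      rcases Nat.lt_or_ge q (n + 1) with hq1 | hq1
      · rw [bit_put_ne (by omega), bit_put_ne (by omega)]
        exact h2 q hq1
      · rw [List.getD_eq_default _ _ (by omega)]
        rcases Nat.lt_or_ge q (n + 5) with hq2 | hq2
        · have hq5 : q - n < 5 := by omega
          interval_cases hqq : q - n
          · omega
          · have hq3 : q = n + 1 := by omega
            subst hq3
            rw [bit_put_self (by omega), h3]
            rfl
          · have hq3 : q = n + 2 := by omega
            subst hq3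
            rw [bit_put_ne (by omega), bit_put_self (by omega)]
          · have hq3 : q = n + 3 := by omega
            subst hq3
            rw [bit_put_ne (by omega), bit_put_ne (by omega), h4]
          · have hq3 : q = n + 4 := by omega
            subst hq3
            rw [bit_put_ne (by omega), bit_put_ne (by omega), h5]
        · rw [bit_put_ne (by omega), bit_put_ne (by omega)]
          have := congrFun h6 ⟨q - (n + 5), by omega⟩
          unfold cw at this
          simp only at this
          rwa [show n + 5 + (q - (n + 5)) = q by omega] at this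
  rw [h1, h1]
  by_cases hr : Reg n x z
  · rw [Psi_pos hr]
    unfold mu sgc s2
    by_cases hc : cw n K z = fun _ => false
    · simp [hr, hc]
    · simp [hr, hc]
  · rw [Psi_neg hr]
    simp [hr]

end Pool.Agent.H9x.RT
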