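import Pool.Agent.H9x.RT.Core

/-!
# The distribution of the walk: most pairs of functions are forrelated
-/

set_option autoImplicit false
set_option linter.unusedSectionVars false

namespace Pool.Agent.H9x.RT

open Finset H568R2 Pool.Agent.H676

section General

variable {I J : Type*} [Fintype I] [DecidableEq I] [Fintype J] [DecidableEq J]
variable {W : I → J → ℝ} {δ : ℝ}

theorem St_sum {κ : Type*} (s : Finset κ) (c : κ → ℝ) (g : κ → (I → ℝ) → ℝ) :
    St W δ (fun v => ∑ k ∈ s, c k * g k v) = fun v => ∑ k ∈ s, c k * St W δ (g k) v := by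
  funext v
  by_cases hb : ∀ i, |v i| ≤ 1 / 2
  · rw [St_in hb, Eu_sum]
    refine sum_congr rfl fun k _ => ?_
    rw [St_in hb, Eu_smul]
  · rw [St_out hb]
    refine sum_congr rfl fun k _ => ?_
    rw [St_out hb]

theorem Sn_sum {κ : Type*} (s : Finset κ) : ∀ (T : ℕ) (c : κ → ℝ) (g : κ → (I → ℝ) → ℝ),
    Sn W δ T (fun v => ∑ k ∈ s, c k * g k v) = fun v => ∑ k ∈ s, c k * Sn W δ T (g k) v := by
  intro T
  induction T with
  | zero => intro c g; rfl
  | succ T ih =>
    intro c g
    show Sn W δ T (St W δ fun v => ∑ k ∈ s, c k * g k v) = _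
    rw [St_sum, ih]
    rfl

/-- the probability of the point `a` -/
noncomputable def wD (W : I → J → ℝ) (δ : ℝ) (T : ℕ) (a : I → Bool) : ℝ :=
  Sn W δ T (ml fun b => if b = a then 1 else 0) 0

theorem wD_nonneg (hs : Small W δ) (T : ℕ) (a : I → Bool) : 0 ≤ wD W δ T a := by
  have h1 := Sn_mono hs T (g := fun _ => (0 : ℝ)) (h := ml fun b => if b = a then 1 else 0)
    (fun v hv => by
      have := ml_mono (F := fun _ => (0 : ℝ)) (G := fun b : I → Bool => if b = a then (1 : ℝ) else 0)
        (fun b => by positivity) hv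
      rwa [ml_const] at this) 0 cube_zero
  rw [Sn_const] at h1
  exact h1

theorem sum_wD (T : ℕ) (F : (I → Bool) → ℝ) :
    ∑ a, F a * wD W δ T a = Sn W δ T (ml F) 0 := by
  have h1 : ml F = fun v => ∑ a, F a * ml (fun b => if b = a then 1 else 0) v := by
    funext v
    simp only [ml_eq]
    refine sum_congr rfl fun a _ => ?_
    simp
  rw [h1, Sn_sum]
  rfl

theorem sum_wD_one (T : ℕ) : ∑ a, wD W δ T a = 1 := by
  have h1 := sum_wD (W := W) (δ := δ) T (fun _ : I → Bool => (1 : ℝ))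
  have h2 : ml (fun _ : I → Bool => (1 : ℝ)) = fun _ => 1 := by
    funext v
    exact ml_const 1 v
  rw [h2, Sn_const] at h1
  simpa using h1

/-- the second moment of a linear form -/
theorem ml_lin_sq (c : I → ℝ) {v : I → ℝ} :
    ml (fun a => (∑ i, c i * sg (a i)) ^ 2) v ≤ (∑ i, c i * v i) ^ 2 + ∑ i, c i ^ 2 := by
  have h1 : (fun a : I → Bool => (∑ i, c i * sg (a i)) ^ 2) =
      fun a => ∑ i, ∑ j, (c i * c j) * (sg (a i) * sg (a j)) := by
    funext a
    rw [sq, sum_mul_sum]
    exact sum_congr rfl fun i _ => sum_congr rfl fun j _ => by ring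
  rw [h1, ml_sum]
  have h2 : ∀ i, ml (fun a : I → Bool => ∑ j, (c i * c j) * (sg (a i) * sg (a j))) v =
      ∑ j, (c i * c j) * (v i * v j) + c i ^ 2 * (1 - v i ^ 2) := by
    intro i
    rw [ml_sum]
    have h3 : ∀ j, ml (fun a : I → Bool => (c i * c j) * (sg (a i) * sg (a j))) v =
        (c i * c j) * (v i * v j) + if i = j then c i ^ 2 * (1 - v i ^ 2) else 0 := by
      intro j
      rw [ml_smul]
      by_cases hij : i = j
      · subst hij
        rw [if_pos rfl]
        have : (fun a : I → Bool => sg (a i) * sg (a i)) = fun _ => 1 := by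
          funext a
          exact sg_sq _
        rw [this, ml_const]
        ring
      · rw [if_neg hij, ml_sg2 hij]
        ring
    rw [sum_congr rfl fun j _ => h3 j, sum_add_distrib, sum_ite_eq univ i]
    simp
  rw [sum_congr rfl fun i _ => h2 i, sum_add_distrib]
  have h4 : (∑ i, c i * v i) ^ 2 = ∑ i, ∑ j, (c i * c j) * (v i * v j) := by
    rw [sq, sum_mul_sum]
    exact sum_congr rfl fun i _ => sum_congr rfl fun j _ => by ring
  rw [h4]
  refine add_le_add le_rfl (sum_le_sum fun i _ => ?_)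
  nlinarith [sq_nonneg (c i), sq_nonneg (v i), mul_nonneg (sq_nonneg (c i)) (sq_nonneg (v i))]

end General

variable {X : Type*} [Fintype X] [DecidableEq X]
variable {H : X → X → ℝ} {γ : ℝ}

theorem ml_two (F : (X ⊕ X → Bool) → ℝ) (v : X ⊕ X → ℝ) :
    ml F v = ml (fun t => ml (fun s => F (Sum.elim s t)) (fun x => v (.inl x)))
      (fun y => v (.inr y)) := by
  simp only [ml_eq, sum_mul]
  rw [← (Equiv.sumArrowEquivProdArrow X X Bool).symm.sum_comp, Fintype.sum_prod_type, sum_comm]
  refine sum_congr rfl fun t _ => sum_congr rfl fun s _ => ?_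
  have h1 : (Equiv.sumArrowEquivProdArrow X X Bool).symm (s, t) = Sum.elim s t := rfl
  rw [h1, Fintype.prod_sum_type]
  simp only [Sum.elim_inl, Sum.elim_inr]
  ring

theorem sum_H_sq_le (hH : Orth H γ) (w : X → ℝ) :
    ∑ x, (∑ y, H x y * w y) ^ 2 = ∑ y, w y ^ 2 := by
  have h1 : ∀ x, (∑ y, H x y * w y) ^ 2 = ∑ y, ∑ y', (w y * w y') * (H y x * H y' x) := by
    intro x
    rw [sq, sum_mul_sum]
    refine sum_congr rfl fun y _ => sum_congr rfl fun y' _ => ?_
    rw [hH.sym x y, hH.sym x y']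
    ring
  rw [sum_congr rfl fun x _ => h1 x, sum_comm]
  refine sum_congr rfl fun y _ => ?_
  rw [sum_comm]
  have h3 : ∀ y', ∑ x, (w y * w y') * (H y x * H y' x) = if y = y' then w y ^ 2 else 0 := by
    intro y'
    rw [← mul_sum, hH.orth]
    split_ifs with h
    · rw [← h, mul_one, sq]
    · rw [mul_zero]
  rw [sum_congr rfl fun y' _ => h3 y', sum_ite_eq univ y]
  simp

theorem sum_H_sq_le' (hH : Orth H γ) (w : X → ℝ) :
    ∑ y, (∑ x, H x y * w x) ^ 2 = ∑ x, w x ^ 2 := by
  rw [← sum_H_sq_le hH w]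
  refine sum_congr rfl fun y _ => ?_
  congr 1
  exact sum_congr rfl fun x _ => by rw [hH.sym x y]

/-- the second moment of the forrelation of a product distribution -/
theorem ml_Fo_sq [Nonempty X] (hH : Orth H γ) {v : X ⊕ X → ℝ} (hv : ∀ i, |v i| ≤ 1) :
    ml (fun a => Fo H a ^ 2) v ≤ (ml (Fo H) v) ^ 2 + 2 / Fintype.card X := by
  have hN : (0 : ℝ) < Fintype.card X := by
    have := Fintype.card_pos (α := X)
    positivity
  have hv2 : ∀ i, v i ^ 2 ≤ 1 := by
    intro i
    rw [← sq_abs]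
    exact pow_le_one₀ (abs_nonneg _) (hv i)
  rw [ml_two]
  have h1 : ∀ t : X → Bool, ml (fun s => Fo H (Sum.elim s t) ^ 2) (fun x => v (.inl x)) ≤
      (∑ x, (∑ y, H x y * sg (t y)) / Fintype.card X * v (.inl x)) ^ 2 + 1 / Fintype.card X := by
    intro t
    have h2 : (fun s : X → Bool => Fo H (Sum.elim s t) ^ 2) = fun s =>
        (∑ x, (∑ y, H x y * sg (t y)) / Fintype.card X * sg (s x)) ^ 2 := by
      funext s
      rw [Fo_eq, sum_div]
      congr 1
      refine sum_congr rfl fun x _ => ?_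
      simp only [Sum.elim_inl, Sum.elim_inr]
      ring
    rw [h2]
    refine (ml_lin_sq _).trans (add_le_add le_rfl (le_of_eq ?_))
    simp only [div_pow]
    rw [← sum_div, sum_Hw hH, sq, div_mul_eq_div_div, div_self hN.ne']
  have h3 : ∀ t : X → Bool, (∑ x, (∑ y, H x y * sg (t y)) / Fintype.card X * v (.inl x)) =
      ∑ y, (∑ x, H x y * v (.inl x)) / Fintype.card X * sg (t y) := by
    intro t
    simp only [sum_div, sum_mul]
    rw [sum_comm]
    exact sum_congr rfl fun y _ => sum_congr rfl fun x _ => by ring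
  refine (ml_mono (fun t => h1 t) (fun y => hv (.inr y))).trans ?_
  rw [ml_add', ml_const]
  simp only [h3]
  have h4 := ml_lin_sq (fun y => (∑ x, H x y * v (.inl x)) / (Fintype.card X : ℝ))
    (v := fun y => v (.inr y))
  have h5 : ∑ y, ((∑ x, H x y * v (.inl x)) / (Fintype.card X : ℝ)) ^ 2 ≤ 1 / Fintype.card X := by
    simp only [div_pow]
    rw [← sum_div, sum_H_sq_le' hH (fun x => v (.inl x)), div_le_div_iff₀ (by positivity) hN]
    have h6 : ∑ x, v (.inl x) ^ 2 ≤ (Fintype.card X : ℝ) := by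
      refine (sum_le_card_nsmul _ _ 1 fun x _ => hv2 _).trans ?_
      simp
    nlinarith
  have h7 : ∑ y, (∑ x, H x y * v (.inl x)) / (Fintype.card X : ℝ) * v (.inr y) = ml (Fo H) v := by
    rw [ml_Fo]
    simp only [sum_div, sum_mul]
    rw [sum_comm]
    exact sum_congr rfl fun x _ => sum_congr rfl fun y _ => by ring
  rw [h7] at h4
  have h8 : (2 : ℝ) / Fintype.card X = 1 / Fintype.card X + 1 / Fintype.card X := by ring
  rw [h8]
  linarith

/-- one step of the forrelation -/
theorem Fo_step [Nonempty X] (hH : Orth H γ) (v : X ⊕ X → ℝ) (δ : ℝ) (u : X → Bool) :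
    ml (Fo H) (fun i => v i + δ * inc (Wf H) u i) = (ml (Fo H) v + δ ^ 2) +
      δ * inc (fun (_ : Unit) x => (v (.inl x) + ∑ y, H x y * v (.inr y)) / Fintype.card X) u () := by
  have hN : (Fintype.card X : ℝ) ≠ 0 := by
    have := Fintype.card_pos (α := X)
    positivity
  simp only [ml_Fo, inc_inl, inc_inr]
  have hHH : ∀ x, ∑ y, H x y * ∑ j, H y j * sg (u j) = sg (u x) := by
    intro x
    simp only [mul_sum]
    rw [sum_comm]
    have : ∀ j, ∑ y, H x y * (H y j * sg (u j)) = if x = j then sg (u x) else 0 := by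
      intro j
      have h1 : ∀ y, H x y * (H y j * sg (u j)) = (H x y * H j y) * sg (u j) := by
        intro y
        rw [hH.sym y j]
        ring
      rw [sum_congr rfl fun y _ => h1 y, ← sum_mul, hH.orth]
      split_ifs with h
      · rw [h, one_mul]
      · rw [zero_mul]
    rw [sum_congr rfl fun j _ => this j, sum_ite_eq univ x]
    simp
  have h1 : ∑ x, ∑ y, H x y * ((v (.inl x) + δ * sg (u x)) *
      (v (.inr y) + δ * ∑ j, H y j * sg (u j))) =
      ∑ x, ∑ y, H x y * (v (.inl x) * v (.inr y)) +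
      (δ * ∑ x, sg (u x) * (v (.inl x) + ∑ y, H x y * v (.inr y)) +
        δ ^ 2 * Fintype.card X) := by
    have h2 : ∀ x, ∑ y, H x y * ((v (.inl x) + δ * sg (u x)) *
        (v (.inr y) + δ * ∑ j, H y j * sg (u j))) =
        ∑ y, H x y * (v (.inl x) * v (.inr y)) +
          (δ * (sg (u x) * (v (.inl x) + ∑ y, H x y * v (.inr y))) + δ ^ 2) := by
      intro x
      have h3 : ∀ y, H x y * ((v (.inl x) + δ * sg (u x)) *
          (v (.inr y) + δ * ∑ j, H y j * sg (u j))) =
          H x y * (v (.inl x) * v (.inr y)) + ((δ * sg (u x)) * (H x y * v (.inr y)) +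
          (δ * v (.inl x) + δ ^ 2 * sg (u x)) * (H x y * ∑ j, H y j * sg (u j))) := by
        intro y; ring
      rw [sum_congr rfl fun y _ => h3 y, sum_add_distrib, sum_add_distrib, ← mul_sum, ← mul_sum,
        hHH x]
      have := sg_sq (u x)
      linear_combination δ ^ 2 * this
    rw [sum_congr rfl fun x _ => h2 x, sum_add_distrib, sum_add_distrib, ← mul_sum]
    simp
    ring
  rw [h1]
  unfold inc
  have h4 : ∑ j, (v (.inl j) + ∑ y, H j y * v (.inr y)) / (Fintype.card X : ℝ) * sg (u j) =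
      (∑ x, sg (u x) * (v (.inl x) + ∑ y, H x y * v (.inr y))) / Fintype.card X := by
    rw [sum_div]
    exact sum_congr rfl fun j _ => by ring
  rw [h4]
  field_simp
  ring

theorem var_le [Nonempty X] (hH : Orth H γ) {v : X ⊕ X → ℝ} (hv : ∀ i, |v i| ≤ 1 / 2) :
    ∑ x, ((v (.inl x) + ∑ y, H x y * v (.inr y)) / (Fintype.card X : ℝ)) ^ 2 ≤
      1 / Fintype.card X := by
  have hN : (0 : ℝ) < Fintype.card X := by
    have := Fintype.card_pos (α := X)
    positivity
  have hv2 : ∀ i, v i ^ 2 ≤ 1 / 4 := by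
    intro i
    rw [← sq_abs]
    have := pow_le_pow_left₀ (abs_nonneg _) (hv i) 2
    norm_num at this ⊢
    exact this
  have h1 : ∀ x, ((v (.inl x) + ∑ y, H x y * v (.inr y)) / (Fintype.card X : ℝ)) ^ 2 ≤
      2 * (v (.inl x) ^ 2 + (∑ y, H x y * v (.inr y)) ^ 2) / (Fintype.card X : ℝ) ^ 2 := by
    intro x
    rw [div_pow]
    refine div_le_div_of_nonneg_right ?_ (by positivity)
    nlinarith [sq_nonneg (v (.inl x) - ∑ y, H x y * v (.inr y))]
  refine (sum_le_sum fun x _ => h1 x).trans ?_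
  rw [← sum_div, ← mul_sum, sum_add_distrib, sum_H_sq_le hH (fun y => v (.inr y)),
    div_le_div_iff₀ (by positivity) hN]
  have h2 : ∑ x, v (.inl x) ^ 2 ≤ (Fintype.card X : ℝ) * (1 / 4) := by
    refine (sum_le_card_nsmul _ _ (1 / 4) fun x _ => hv2 _).trans ?_
    simp
  have h3 : ∑ x, v (.inr x) ^ 2 ≤ (Fintype.card X : ℝ) * (1 / 4) := by
    refine (sum_le_card_nsmul _ _ (1 / 4) fun x _ => hv2 _).trans ?_
    simp
  nlinarith

open Classical in
/-- the second moment of the forrelation in the box -/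
theorem Sn_sq [Nonempty X] (hH : Orth H γ) {δ : ℝ} (hs : Small (Wf H) δ) (c : ℝ) : ∀ (T k : ℕ),
    Sn (Wf H) δ T (fun v => if ∀ i, |v i| ≤ 1 / 2 then
      (ml (Fo H) v + k * δ ^ 2 - c) ^ 2 + k * (δ ^ 2 / Fintype.card X) else 0) 0 ≤
      ((T + k : ℕ) * δ ^ 2 - c) ^ 2 + (T + k : ℕ) * (δ ^ 2 / Fintype.card X) := by
  have hN : (0 : ℝ) < Fintype.card X := by
    have := Fintype.card_pos (α := X)
    positivity
  intro T
  induction T with
  | zero =>
    intro k
    have h0 : ml (Fo H) 0 = 0 := by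
      rw [ml_Fo]
      simp
    simp only [Sn]
    rw [if_pos (fun i => by simp), h0]
    simp
  | succ T ih =>
    intro k
    have h1 : ∀ v, Cube v → St (Wf H) δ (fun v => if ∀ i, |v i| ≤ 1 / 2 then
        (ml (Fo H) v + k * δ ^ 2 - c) ^ 2 + k * (δ ^ 2 / Fintype.card X) else 0) v ≤
        (fun v => if ∀ i, |v i| ≤ 1 / 2 then
        (ml (Fo H) v + (k + 1 : ℕ) * δ ^ 2 - c) ^ 2 + (k + 1 : ℕ) * (δ ^ 2 / Fintype.card X)
        else 0) v := by
      intro v _
      by_cases hb : ∀ i, |v i| ≤ 1 / 2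
      · simp only [St_in hb, if_pos hb]
        have h2 : ∀ u : X → Bool, (if ∀ i, |v i + δ * inc (Wf H) u i| ≤ 1 / 2 then
            (ml (Fo H) (fun i => v i + δ * inc (Wf H) u i) + k * δ ^ 2 - c) ^ 2 +
              k * (δ ^ 2 / Fintype.card X) else 0) ≤
            ((ml (Fo H) v + (k + 1 : ℕ) * δ ^ 2 - c) ^ 2 + k * (δ ^ 2 / Fintype.card X)) +
            ((2 * (ml (Fo H) v + (k + 1 : ℕ) * δ ^ 2 - c) * δ) * inc (fun (_ : Unit) x =>
              (v (.inl x) + ∑ y, H x y * v (.inr y)) / Fintype.card X) u () +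
            δ ^ 2 * (inc (fun (_ : Unit) x =>
              (v (.inl x) + ∑ y, H x y * v (.inr y)) / Fintype.card X) u () *
              inc (fun (_ : Unit) x =>
              (v (.inl x) + ∑ y, H x y * v (.inr y)) / Fintype.card X) u ())) := by
          intro u
          rw [Fo_step hH]
          set z := inc (fun (_ : Unit) x =>
              (v (.inl x) + ∑ y, H x y * v (.inr y)) / (Fintype.card X : ℝ)) u ()
          have h3 : (ml (Fo H) v + δ ^ 2 + δ * z + k * δ ^ 2 - c) ^ 2 + k * (δ ^ 2 / Fintype.card X) =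
              ((ml (Fo H) v + (k + 1 : ℕ) * δ ^ 2 - c) ^ 2 + k * (δ ^ 2 / Fintype.card X)) +
            ((2 * (ml (Fo H) v + (k + 1 : ℕ) * δ ^ 2 - c) * δ) * z + δ ^ 2 * (z * z)) := by
            push_cast
            ring
          rw [← h3]
          split_ifs
          · exact le_rfl
          · positivity
        refine (Eu_mono h2).trans ?_
        rw [Eu_add, Eu_const, Eu_add, Eu_smul, Eu_smul, Eu_inc, Eu_inc2, mul_zero, zero_add]
        have h4 := var_le hH hb
        have h5 : ∑ j, (v (.inl j) + ∑ y, H j y * v (.inr y)) / (Fintype.card X : ℝ) *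
            ((v (.inl j) + ∑ y, H j y * v (.inr y)) / (Fintype.card X : ℝ)) =
            ∑ x, ((v (.inl x) + ∑ y, H x y * v (.inr y)) / (Fintype.card X : ℝ)) ^ 2 :=
          sum_congr rfl fun j _ => by ring
        rw [h5]
        have h6 := mul_le_mul_of_nonneg_left h4 (sq_nonneg δ)
        have h7 : δ ^ 2 * (1 / (Fintype.card X : ℝ)) = δ ^ 2 / Fintype.card X := by ring
        rw [h7] at h6
        push_cast
        linarith
      · simp only [St_out hb, if_neg hb]
        exact le_rfl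
    have h2 := Sn_mono hs T h1 0 cube_zero
    have h3 := ih (k + 1)
    have h5 : Sn (Wf H) δ (T + 1) (fun v => if ∀ i, |v i| ≤ 1 / 2 then
        (ml (Fo H) v + k * δ ^ 2 - c) ^ 2 + k * (δ ^ 2 / Fintype.card X) else 0) 0 =
        Sn (Wf H) δ T (St (Wf H) δ (fun v => if ∀ i, |v i| ≤ 1 / 2 then
        (ml (Fo H) v + k * δ ^ 2 - c) ^ 2 + k * (δ ^ 2 / Fintype.card X) else 0)) 0 := rfl
    rw [h5]
    refine h2.trans (h3.trans (le_of_eq ?_))
    have h6 : T + (k + 1) = T + 1 + k := by ring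
    rw [h6]

end Pool.Agent.H9x.RT
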