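import Mathlib
import Pool.Agent.H568R2.Switch

/-!
# Multilinear extensions and their derivatives
-/

set_option autoImplicit false
set_option linter.unusedSectionVars false

namespace Pool.Agent.H9x.RT

open Finset H568R2

variable {I : Type*} [Fintype I] [DecidableEq I]

/-- the sign of a bit -/
def sg (b : Bool) : ℝ := if b then -1 else 1

theorem sg_true : sg true = -1 := rfl
theorem sg_false : sg false = 1 := rfl
theorem sg_sq (b : Bool) : sg b * sg b = 1 := by cases b <;> norm_num [sg]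
theorem abs_sg (b : Bool) : |sg b| = 1 := by cases b <;> norm_num [sg]

/-- the derivative in the directions in `S` of the multilinear extension of `F`, at the point `v` -/
noncomputable def dS (S : Finset I) (F : (I → Bool) → ℝ) (v : I → ℝ) : ℝ :=
  ∑ a : I → Bool, F a * ∏ i, (if i ∈ S then sg (a i) / 2 else (1 + sg (a i) * v i) / 2)

/-- the multilinear extension -/
noncomputable def ml (F : (I → Bool) → ℝ) (v : I → ℝ) : ℝ := dS ∅ F v

theorem prod_ite_split (S : Finset I) (f g : I → ℝ) :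
    ∏ i, (if i ∈ S then f i else g i) = (∏ i ∈ S, f i) * ∏ i ∈ univ \ S, g i := by
  rw [← Finset.prod_sdiff (subset_univ S), mul_comm]
  congr 1
  · exact prod_congr rfl fun i hi => by rw [if_pos hi]
  · exact prod_congr rfl fun i hi => by rw [if_neg (mem_sdiff.1 hi).2]

theorem sum_prod {A : Type*} [Fintype A] (k : I → A → ℝ) :
    ∑ a : I → A, ∏ i, k i (a i) = ∏ i, ∑ x, k i x := by
  classical
  rw [Finset.prod_univ_sum, Fintype.piFinset_univ]

/-- Taylor expansion -/
theorem ml_add (F : (I → Bool) → ℝ) (v w : I → ℝ) :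
    ml F (fun i => v i + w i) = ∑ S ∈ (univ : Finset I).powerset, (∏ i ∈ S, w i) * dS S F v := by
  unfold ml dS
  simp only [mul_sum]
  rw [sum_comm]
  refine sum_congr rfl fun a _ => ?_
  have h1 : ∏ i, (if i ∈ (∅ : Finset I) then sg (a i) / 2 else (1 + sg (a i) * (v i + w i)) / 2) =
      ∏ i, (sg (a i) * w i / 2 + (1 + sg (a i) * v i) / 2) := by
    refine prod_congr rfl fun i _ => ?_
    rw [if_neg (notMem_empty i)]
    ring
  rw [h1, Finset.prod_add, mul_sum]
  refine sum_congr rfl fun S _ => ?_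
  rw [prod_ite_split]
  have h2 : ∏ i ∈ S, (sg (a i) * w i / 2) = (∏ i ∈ S, w i) * ∏ i ∈ S, sg (a i) / 2 := by
    rw [← prod_mul_distrib]
    exact prod_congr rfl fun i _ => by ring
  rw [h2]
  ring

theorem abs_dS_le {F : (I → Bool) → ℝ} (hF : ∀ a, |F a| ≤ 1) {v : I → ℝ} (hv : ∀ i, |v i| ≤ 1)
    (S : Finset I) : |dS S F v| ≤ 1 := by
  unfold dS
  refine (abs_sum_le_sum_abs _ _).trans ?_
  have h1 : ∀ a : I → Bool, |F a * ∏ i, (if i ∈ S then sg (a i) / 2 else
      (1 + sg (a i) * v i) / 2)| ≤ ∏ i, (if i ∈ S then (1 / 2 : ℝ) else (1 + sg (a i) * v i) / 2) := by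
    intro a
    rw [abs_mul, abs_prod]
    calc |F a| * ∏ i, |if i ∈ S then sg (a i) / 2 else (1 + sg (a i) * v i) / 2| ≤
        1 * ∏ i, |if i ∈ S then sg (a i) / 2 else (1 + sg (a i) * v i) / 2| :=
          mul_le_mul_of_nonneg_right (hF a) (prod_nonneg fun _ _ => abs_nonneg _)
      _ = ∏ i, (if i ∈ S then (1 / 2 : ℝ) else (1 + sg (a i) * v i) / 2) := by
          rw [one_mul]
          refine prod_congr rfl fun i _ => ?_
          split_ifs
          · rw [abs_div, abs_sg]; norm_num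
          · rw [abs_of_nonneg]
            have := abs_le.1 (hv i)
            cases a i <;> simp [sg] <;> linarith [this.1, this.2]
  refine (sum_le_sum fun a _ => h1 a).trans ?_
  rw [sum_prod (fun i b => if i ∈ S then (1 / 2 : ℝ) else (1 + sg b * v i) / 2)]
  refine le_of_eq (prod_eq_one fun i _ => ?_)
  rw [Fintype.sum_bool]
  split_ifs
  · norm_num
  · simp only [sg]; norm_num; ring

theorem ml_eq (F : (I → Bool) → ℝ) (v : I → ℝ) :
    ml F v = ∑ a, F a * ∏ i, ((1 + sg (a i) * v i) / 2) := by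
  unfold ml dS
  simp

theorem wt_nonneg {v : I → ℝ} (hv : ∀ i, |v i| ≤ 1) (a : I → Bool) :
    0 ≤ ∏ i, ((1 + sg (a i) * v i) / 2) := by
  refine prod_nonneg fun i _ => ?_
  have := abs_le.1 (hv i)
  cases a i <;> simp [sg] <;> linarith [this.1, this.2]

theorem ml_mono {F G : (I → Bool) → ℝ} (h : ∀ a, F a ≤ G a) {v : I → ℝ} (hv : ∀ i, |v i| ≤ 1) :
    ml F v ≤ ml G v := by
  rw [ml_eq, ml_eq]
  exact sum_le_sum fun a _ => mul_le_mul_of_nonneg_right (h a) (wt_nonneg hv a)

theorem ml_const (c : ℝ) (v : I → ℝ) : ml (fun _ => c) v = c := by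
  rw [ml_eq, ← mul_sum, sum_prod (fun i b => (1 + sg b * v i) / 2)]
  have : ∏ i, ∑ b, (1 + sg b * v i) / 2 = 1 := prod_eq_one fun i _ => by
    rw [Fintype.sum_bool]; simp only [sg]; norm_num; ring
  rw [this, mul_one]

theorem ml_zero (F : (I → Bool) → ℝ) :
    ml F 0 = (∑ a, F a) / 2 ^ Fintype.card I := by
  rw [ml_eq, sum_div]
  refine sum_congr rfl fun a _ => ?_
  simp only [Pi.zero_apply, mul_zero, add_zero, prod_const, card_univ]
  rw [one_div, inv_pow]
  ring

/-- push forward of a product weight -/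
theorem push {A : Type*} [Fintype A] [DecidableEq A] (k : I → A → ℝ) (φ : A → Bool)
    (F : (I → Bool) → ℝ) :
    ∑ ω : I → A, F (fun i => φ (ω i)) * ∏ i, k i (ω i) =
      ∑ c, F c * ∏ i, ∑ x ∈ univ.filter (fun x => φ x = c i), k i x := by
  rw [← Finset.sum_fiberwise univ (fun (ω : I → A) i => φ (ω i))]
  refine sum_congr rfl fun c _ => ?_
  rw [Finset.prod_univ_sum, mul_sum]
  refine sum_congr ?_ fun ω hω => ?_
  · ext ω
    rw [mem_filter, Fintype.mem_piFinset]
    simp only [mem_univ, true_and, mem_filter]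
    exact ⟨fun h i => congrFun h i, fun h => funext h⟩
  · rw [Fintype.mem_piFinset] at hω
    congr 2
    funext i
    exact (mem_filter.1 (hω i)).2

/-- weights of a random restriction -/
noncomputable def rwt (p : ℝ) (μ : I → ℝ) (i : I) : Option Bool → ℝ
  | none => p
  | some b => (1 - p) * ((1 + sg b * μ i) / 2)

theorem rwt_sum (p : ℝ) (μ : I → ℝ) : ∑ ρ : Restr I, ∏ i, rwt p μ i (ρ i) = 1 := by
  rw [sum_prod (fun i x => rwt p μ i x)]
  refine prod_eq_one fun i _ => ?_
  rw [Fintype.sum_option, Fintype.sum_bool]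
  simp only [rwt, sg]
  norm_num
  ring

theorem rwt_nonneg {p : ℝ} (h0 : 0 ≤ p) (h1 : p ≤ 1) {μ : I → ℝ} (hμ : ∀ i, |μ i| ≤ 1)
    (ρ : Restr I) : 0 ≤ ∏ i, rwt p μ i (ρ i) := by
  refine prod_nonneg fun i _ => ?_
  have := abs_le.1 (hμ i)
  cases ρ i with
  | none => exact h0
  | some b =>
    refine mul_nonneg (by linarith) ?_
    cases b <;> simp [sg] <;> linarith [this.1, this.2]

/-- **Derivatives of random restrictions.** -/
theorem avg_restr (p : ℝ) (μ : I → ℝ) (S : Finset I) (F : (I → Bool) → ℝ) :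
    ∑ ρ : Restr I, (∏ i, rwt p μ i (ρ i)) * dS S (fun a => F (ov ρ a)) 0 =
      p ^ S.card * dS S F (fun i => (1 - p) * μ i) := by
  have h1 : ∑ ρ : Restr I, (∏ i, rwt p μ i (ρ i)) * dS S (fun a => F (ov ρ a)) 0 =
      ∑ ω : I → Option Bool × Bool, F (fun i => (ω i).1.getD (ω i).2) *
        ∏ i, (rwt p μ i (ω i).1 * (if i ∈ S then sg (ω i).2 / 2 else 1 / 2)) := by
    unfold dS
    simp only [mul_sum]
    rw [← Finset.sum_product', Finset.univ_product_univ]
    symm
    refine Fintype.sum_equiv (Equiv.arrowProdEquivProdArrow I (fun _ => Option Bool) (fun _ => Bool))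
      _ _ fun ω => ?_
    simp only [Equiv.arrowProdEquivProdArrow, Equiv.coe_fn_mk]
    rw [prod_mul_distrib]
    simp only [Pi.zero_apply, mul_zero, add_zero]
    have h0 : ov (fun c => (ω c).1) (fun c => (ω c).2) = fun i => (ω i).1.getD (ω i).2 := rfl
    rw [h0]
    ring
  refine h1.trans ((push (fun i (x : Option Bool × Bool) => rwt p μ i x.1 *
    (if i ∈ S then sg x.2 / 2 else 1 / 2)) (fun x => x.1.getD x.2) F).trans ?_)
  unfold dS
  rw [mul_sum]
  refine sum_congr rfl fun c _ => ?_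
  have h2 : ∀ i, ∑ x ∈ univ.filter (fun x : Option Bool × Bool => x.1.getD x.2 = c i),
      rwt p μ i x.1 * (if i ∈ S then sg x.2 / 2 else 1 / 2) =
      if i ∈ S then p * (sg (c i) / 2) else (1 + sg (c i) * ((1 - p) * μ i)) / 2 := by
    intro i
    rw [sum_filter, Fintype.sum_prod_type]
    simp only [Fintype.sum_option, Fintype.sum_bool]
    by_cases hS : i ∈ S
    · simp only [if_pos hS]
      cases c i <;> simp [rwt, sg] <;> ring
    · simp only [if_neg hS]
      cases c i <;> simp [rwt, sg] <;> ring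
  rw [prod_congr rfl fun i _ => h2 i, prod_ite_split, prod_ite_split, prod_mul_distrib, prod_const]
  ring

/-- the sum of the absolute values of the derivatives of order `k` -/
noncomputable def lv (k : ℕ) (F : (I → Bool) → ℝ) (v : I → ℝ) : ℝ :=
  ∑ S ∈ powersetCard k (univ : Finset I), |dS S F v|

theorem lv_nonneg (k : ℕ) (F : (I → Bool) → ℝ) (v : I → ℝ) : 0 ≤ lv k F v :=
  sum_nonneg fun _ _ => abs_nonneg _

theorem lv_restr (k : ℕ) {p : ℝ} (h0 : 0 < p) (h1 : p ≤ 1) {μ : I → ℝ} (hμ : ∀ i, |μ i| ≤ 1)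
    (F : (I → Bool) → ℝ) : p ^ k * lv k F (fun i => (1 - p) * μ i) ≤
      ∑ ρ : Restr I, (∏ i, rwt p μ i (ρ i)) * lv k (fun a => F (ov ρ a)) 0 := by
  unfold lv
  simp only [mul_sum]
  rw [sum_comm (s := (univ : Finset (Restr I)))]
  refine sum_le_sum fun S hS => ?_
  have h2 := avg_restr p μ S F
  rw [(mem_powersetCard.1 hS).2] at h2
  have h3 : p ^ k * |dS S F (fun i => (1 - p) * μ i)| = |p ^ k * dS S F (fun i => (1 - p) * μ i)| := by
    rw [abs_mul, abs_of_nonneg (pow_nonneg h0.le k)]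
  rw [h3, ← h2]
  refine (abs_sum_le_sum_abs _ _).trans (sum_le_sum fun ρ _ => ?_)
  rw [abs_mul, abs_of_nonneg (rwt_nonneg h0.le h1 hμ ρ)]

/-- the derivatives in the box -/
theorem lv_box {F : (I → Bool) → ℝ} {L : ℝ} (hL : ∀ ρ : Restr I, lv 2 (fun a => F (ov ρ a)) 0 ≤ L)
    {v : I → ℝ} (hv : ∀ i, |v i| ≤ 1 / 2) : lv 2 F v ≤ 4 * L := by
  have h1 := lv_restr 2 (p := 1 / 2) (by norm_num) (by norm_num) (μ := fun i => 2 * v i)
    (fun i => by rw [abs_mul]; have := hv i; norm_num; linarith) F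
  have h2 : (fun i => (1 - 1 / 2 : ℝ) * (2 * v i)) = v := by funext i; ring
  rw [h2] at h1
  have h3 : ∑ ρ : Restr I, (∏ i, rwt (1 / 2) (fun i => 2 * v i) i (ρ i)) *
      lv 2 (fun a => F (ov ρ a)) 0 ≤ ∑ ρ : Restr I, (∏ i, rwt (1 / 2) (fun i => 2 * v i) i (ρ i)) * L :=
    sum_le_sum fun ρ _ => mul_le_mul_of_nonneg_left (hL ρ) (rwt_nonneg (by norm_num) (by norm_num)
      (fun i => by rw [abs_mul]; have := hv i; norm_num; linarith) ρ)
  rw [← sum_mul, rwt_sum, one_mul] at h3
  linarith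

end Pool.Agent.H9x.RT
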