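import Pool.Agent.H9x.RT.Nest
import Pool.Agent.H9x.RT.Fam
import Pool.Agent.H9x.RT.Pair
import Pool.Agent.H9x.V1.Up

/-!
# The oracle
-/

set_option autoImplicit false

namespace Pool.Agent.H9x.RT

open Pool.Agent.NPC Pool.Agent.H622R2 Pool.Agent.H620R2.Gauge Pool.Agent.H622R2.Exp
  Pool.Agent.TH678.ETH Pool.Agent.TH678.SETH Pool.Agent.TH678.RS

open Pool.Agent.H9x.V1 (Ac ac_congr poly_rep poly_cS)

/-- the number of address bits -/
def ll (s : ℕ) : ℕ := 8 * s + 40

/-- the data: the contents of the blocks (for both truth values) and of the free blocks -/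
structure Dat : Type where
  bl : ℕ × List Bool → Bool → List Bool → Bool
  fr : ℕ → List Bool → Bool

/-- the level of a block -/
def lev (S : ℕ → Polynomial ℕ) (c : ℕ × List Bool) : ℕ := (S c.1).eval c.2.length

/-- indices of codes -/
inductive Ix (S N : ℕ → Polynomial ℕ) (b : ℕ → ℕ) : Type
  | far (p : IB S b) : Ix S N b
  | blk (e : ℕ) (x w : List Bool) (hw : w.length = ll ((S e).eval x.length) + 1) : Ix S N b
  | np (e i : ℕ) (x : List Bool) (hi : (N e).eval x.length ^ 2 ≤ i) : Ix S N b

variable {S N : ℕ → Polynomial ℕ} {b : ℕ → ℕ}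

/-- addresses of codes -/
def cI : Ix S N b → List Bool
  | .far p => true :: true :: cB S b p
  | .blk e x w _ => true :: false :: false :: cS e ((S e).eval x.length) (x ++ w)
  | .np e i x _ => true :: false :: true :: cS e i x

theorem cI_inj : Function.Injective (cI : Ix S N b → List Bool) := by
  intro p q h
  cases p with
  | far p =>
    cases q with
    | far q =>
      simp only [cI, List.cons.injEq, true_and] at h
      rw [cB_inj S b h]
    | blk e x w hw => simp [cI] at h
    | np e i x hi => simp [cI] at h
  | blk e x w hw =>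
    cases q with
    | far q => simp [cI] at h
    | blk e' x' w' hw' =>
      simp only [cI, List.cons.injEq, true_and] at h
      obtain ⟨h1, h2, h3⟩ := cS_inj h
      subst h1
      have h4 : w.length = w'.length := by rw [hw, hw', h2]
      obtain ⟨h5, h6⟩ := List.append_inj' h3 h4
      subst h5
      subst h6
      rfl
    | np e' i' x' hi' => simp [cI] at h
  | np e i x hi =>
    cases q with
    | far q => simp [cI] at h
    | blk e' x' w' hw' => simp [cI] at h
    | np e' i' x' hi' =>
      simp only [cI, List.cons.injEq, true_and] at h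
      obtain ⟨h1, h2, h3⟩ := cS_inj h
      subst h1
      subst h2
      subst h3
      rfl

/-- the number of leading ones -/
def lead (u : List Bool) : ℕ := (u.takeWhile fun c => c).length

theorem lead_rep : ∀ (s : ℕ) (r : List Bool), lead (List.replicate s true ++ false :: r) = s
  | 0, r => by simp [lead]
  | s + 1, r => by
    have := lead_rep s r
    unfold lead at this ⊢
    rw [List.replicate_succ, List.cons_append, List.takeWhile_cons]
    simp [this]

theorem lead_le (u : List Bool) : lead u ≤ u.length := by
  unfold lead
  exact (List.takeWhile_sublist _).length_le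

/-- the bit of the free blocks -/
def frd (fr : ℕ → List Bool → Bool) (u : List Bool) : Bool := fr (lead u) (u.drop (2 * lead u + 1))

theorem frd_rep (fr : ℕ → List Bool → Bool) (s : ℕ) (x r : List Bool) (hx : x.length = s) :
    frd fr (List.replicate s true ++ false :: (x ++ r)) = fr s r := by
  unfold frd
  rw [lead_rep]
  congr 1
  have h1 : List.replicate s true ++ false :: (x ++ r) =
      (List.replicate s true ++ false :: x) ++ r := by simp
  rw [h1, List.drop_append_of_le_length (by simp [hx]; omega)]
  rw [List.drop_of_length_le (by simp [hx]; omega)]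
  rfl

/-- the strings that contain a copy of the zero string -/
def HZ (v : List Bool) : Prop :=
  ∃ (l k : ℕ) (u : Fin (k * l) → Bool), v = List.replicate l true ++ false :: List.ofFn u ∧
    ∃ j, cpy u j = fun _ => false

theorem HZ_iff {l k : ℕ} (hl : 1 ≤ l) (u : Fin (k * l) → Bool) :
    HZ (List.replicate l true ++ false :: List.ofFn u) ↔ ∃ j, cpy u j = fun _ => false := by
  constructor
  · rintro ⟨l', k', u', h1, h2⟩
    obtain ⟨h3, h4⟩ := CC.rep_inj _ _ _ _ h1
    subst h3
    have h5 : k * l = k' * l := by
      have := congrArg List.length h4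
      simpa using this
    have h6 : k = k' := Nat.eq_of_mul_eq_mul_right (by omega) h5
    subst h6
    rw [List.ofFn_injective h4]
    exact h2
  · intro h
    exact ⟨l, k, u, rfl, h⟩

open Classical in
/-- the base oracle -/
noncomputable def base (D : Dat) : Oracle
  | false :: false :: v => decide (HZ v)
  | false :: true :: u => frd D.fr u
  | _ => false

variable (g : ℕ → SAlg × Polynomial ℕ) (h : ℕ → Alg × Polynomial ℕ)

open Classical in
/-- the content of a code -/
def cont (D : Dat) : Ix S N b → Oracle → Prop
  | .far p, A => Ac g S p.1.1 p.1.2.2 A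
  | .blk e x w _, A => D.bl (e, x) (decide (Ac g S e x A)) w = true
  | .np e _ x _, A => ∃ w : List Bool, w.length ≤ (h e).2.eval x.length ∧
      (h e).1.out (CC.cut ((N e).eval x.length) A) (pairBits w x) = some [true]

/-- the bounds -/
structure Kq (S N : ℕ → Polynomial ℕ) : Prop where
  big : ∀ e n, n + e + 1 ≤ (S e).eval n
  loc : ∀ e (x a : List Bool), a.length ≤ (g e).2.eval x.length →
    ((g e).1.act (pairBits x a)).length ≤ (S e).eval x.length
  hbig : ∀ (e : ℕ) (x w : List Bool), w.length ≤ (h e).2.eval x.length →
    (h e).1.p.eval (pairBits w x).length ≤ (N e).eval x.length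
  hloc : ∀ (e : ℕ) (x w : List Bool) (A : Oracle), w.length ≤ (h e).2.eval x.length →
    (h e).1.out (CC.cut ((N e).eval x.length) A) (pairBits w x) = (h e).1.out A (pairBits w x)

theorem exists_kq : ∃ S N : ℕ → Polynomial ℕ, Kq g h S N := by
  choose bb hbb using fun e : ℕ => CC.act_length (g e).1 (g e).2
  choose qb hqb using fun e : ℕ => (h e).1.out_local
  set S : ℕ → Polynomial ℕ := fun e => bb e + Polynomial.X + Polynomial.C (e + 1) with hS
  have hSe : ∀ e n, (S e).eval n = (bb e).eval n + n + (e + 1) := by
    intro e n
    rw [hS]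
    simp
  set R : ℕ → Polynomial ℕ := fun e => Polynomial.C 2 * (h e).2 + Polynomial.C 1 + Polynomial.X
    with hR
  have hRe : ∀ e n, (R e).eval n = 2 * (h e).2.eval n + 1 + n := by
    intro e n
    rw [hR]
    simp
  set N : ℕ → Polynomial ℕ := fun e => (h e).1.p.comp (R e) + (qb e).comp (R e) with hN
  have hNe : ∀ e n, (N e).eval n = (h e).1.p.eval ((R e).eval n) + (qb e).eval ((R e).eval n) := by
    intro e n
    rw [hN]
    simp [Polynomial.eval_comp]
  have hlen : ∀ (e : ℕ) (x w : List Bool), w.length ≤ (h e).2.eval x.length →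
      (pairBits w x).length ≤ (R e).eval x.length := by
    intro e x w hw
    rw [length_pairBits, hRe]
    omega
  refine ⟨S, N, fun e n => by rw [hSe]; omega, fun e x a ha => ?_, fun e x w hw => ?_,
    fun e x w A hw => ?_⟩
  · have h3 := hbb e x a ha
    rw [hSe]
    omega
  · have h3 := eval_mono (h e).1.p (hlen e x w hw)
    rw [hNe]
    omega
  · obtain ⟨Q, _, h2, h3⟩ := hqb e A (pairBits w x)
    refine h3 _ fun q hq => ?_
    unfold CC.cut
    rw [if_pos]
    have h4 := h2 q hq
    have h5 := eval_mono (qb e) (hlen e x w hw)
    rw [hNe]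
    omega

variable {g h}

theorem lt_far (hS : ∀ e n, n + e + 1 ≤ (S e).eval n) (p : IB S b) :
    (S p.1.1).eval p.1.2.2.length < (cI (Ix.far p : Ix S N b)).length := by
  obtain ⟨⟨e, i, y⟩, h⟩ := p
  show (S e).eval y.length < (true :: true :: cS e i y).length
  have h1 : (S e).eval y.length ^ (b ((S e).eval y.length) + 1) ≤ i := h
  have h3 : (S e).eval y.length ≤ i := by
    have h1' : 1 ≤ (S e).eval y.length := le_trans (by omega) (hS e _)
    exact (Nat.le_self_pow (by omega) _).trans h1
  rw [List.length_cons, List.length_cons, length_cS]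
  omega

theorem lt_blk (e : ℕ) (x w : List Bool) (hw : w.length = ll ((S e).eval x.length) + 1) :
    (S e).eval x.length < (cI (Ix.blk e x w hw : Ix S N b)).length := by
  show (S e).eval x.length < (true :: false :: false :: cS e _ (x ++ w)).length
  rw [List.length_cons, List.length_cons, List.length_cons, length_cS]
  omega

theorem lt_np (e i : ℕ) (x : List Bool) (hi : (N e).eval x.length ^ 2 ≤ i) :
    (N e).eval x.length < (cI (Ix.np e i x hi : Ix S N b)).length := by
  show (N e).eval x.length < (true :: false :: true :: cS e i x).length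
  have h1 : (N e).eval x.length ≤ (N e).eval x.length ^ 2 := Nat.le_self_pow (by norm_num) _
  rw [List.length_cons, List.length_cons, List.length_cons, length_cS]
  omega

theorem cut_congr {m : ℕ} {A A' : Oracle} (hA : ∀ z : List Bool, z.length ≤ m → A z = A' z) :
    CC.cut m A = CC.cut m A' := by
  funext z
  unfold CC.cut
  split_ifs with hz
  · exact hA z hz
  · rfl

theorem cont_congr (hS : ∀ e n, n + e + 1 ≤ (S e).eval n) (D : Dat) (p : Ix S N b) {A A' : Oracle}
    (hA : ∀ z : List Bool, z.length < (cI p).length → A z = A' z) :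
    cont g h D p A ↔ cont g h D p A' := by
  cases p with
  | far p =>
    exact ac_congr fun z hz => hA z (lt_of_le_of_lt hz (lt_far hS p))
  | blk e x w hw =>
    have h1 : Ac g S e x A ↔ Ac g S e x A' :=
      ac_congr fun z hz => hA z (lt_of_le_of_lt hz (lt_blk e x w hw))
    show D.bl (e, x) (@decide (Ac g S e x A) (Classical.propDecidable _)) w = true ↔
      D.bl (e, x) (@decide (Ac g S e x A') (Classical.propDecidable _)) w = true
    have h2 : @decide (Ac g S e x A) (Classical.propDecidable _) =
        @decide (Ac g S e x A') (Classical.propDecidable _) := by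
      rw [decide_eq_decide]
      exact h1
    rw [h2]
  | np e i x hi =>
    show (∃ w : List Bool, _ ∧ _) ↔ (∃ w : List Bool, _ ∧ _)
    rw [cut_congr fun z hz => hA z (lt_of_le_of_lt hz (lt_np e i x hi))]

variable (g h S N b) in
/-- the oracle -/
noncomputable def orc (D : Dat) : Oracle :=
  C1.Phi (cI : Ix S N b → List Bool) (cont g h D) (base D)

theorem orc_on (hS : ∀ e n, n + e + 1 ≤ (S e).eval n) (D : Dat) (p : Ix S N b) :
    orc S N b g h D (cI p) = true ↔ cont g h D p (orc S N b g h D) :=
  C1.Phi_code _ cI_inj _ _ (fun p _ _ hA => cont_congr hS D p hA) p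

theorem orc_off (D : Dat) {y : List Bool} (hy : ∀ p : Ix S N b, y ≠ cI p) :
    orc S N b g h D y = base D y := C1.Phi_not _ _ _ _ hy

/-- the truth values are determined below the level of a block -/
theorem tv_congr {D D' : Dat} {e : ℕ} {x : List Bool}
    (hA : ∀ z : List Bool, z.length ≤ (S e).eval x.length →
      orc S N b g h D z = orc S N b g h D' z) :
    Ac g S e x (orc S N b g h D) ↔ Ac g S e x (orc S N b g h D') := ac_congr hA

/-- **Locality.** -/
theorem orc_loc (hS : ∀ e n, n + e + 1 ≤ (S e).eval n) {n : ℕ} {D D' : Dat}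
    (hb : ∀ c, lev S c < n → D.bl c = D'.bl c) (hf : ∀ s < n, D.fr s = D'.fr s) :
    ∀ (m : ℕ) (q : List Bool), q.length = m → m ≤ n →
      orc S N b g h D q = orc S N b g h D' q := by
  intro m
  induction m using Nat.strong_induction_on with
  | _ m ih =>
    intro q hq hqn
    by_cases hp : ∃ p : Ix S N b, q = cI p
    · obtain ⟨p, rfl⟩ := hp
      have hA : ∀ z : List Bool, z.length < (cI p).length →
          orc S N b g h D z = orc S N b g h D' z :=
        fun z hz => ih z.length (by omega) z rfl (by omega)
      rw [Bool.eq_iff_iff, orc_on hS, orc_on hS, cont_congr hS D p hA]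
      cases p with
      | far p => exact Iff.rfl
      | blk e x w hw =>
        show D.bl (e, x) _ w = true ↔ D'.bl (e, x) _ w = true
        have h1 := lt_blk (N := N) (b := b) e x w hw
        rw [hb (e, x) (by show (S e).eval x.length < n; omega)]
      | np e i x hi => exact Iff.rfl
    · push Not at hp
      rw [orc_off D hp, orc_off D' hp]
      rcases q with _ | ⟨c₁, _ | ⟨c₂, u⟩⟩
      · rfl
      · cases c₁ <;> rfl
      · cases c₁
        · cases c₂
          · rfl
          · show frd D.fr u = frd D'.fr u
            unfold frd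
            have h1 := lead_le u
            have h2 : (false :: true :: u).length = m := hq
            rw [List.length_cons, List.length_cons] at h2
            rw [hf (lead u) (by omega)]
        · cases c₂ <;> rfl

end Pool.Agent.H9x.RT
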