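import Pool.Agent.H9x.RT.Walk

/-!
# One step of the walk: multilinear functions and the exit probability
-/

set_option autoImplicit false
set_option linter.unusedSectionVars false

namespace Pool.Agent.H9x.RT

open Finset H568R2

variable {I J : Type*} [Fintype I] [DecidableEq I] [Fintype J] [DecidableEq J]
variable {W : I → J → ℝ} {δ : ℝ}

theorem St_ml {γ M : ℝ} (h0 : 0 ≤ δ) (h1 : δ ≤ 1) (hM : 1 ≤ M) (hW : ∀ u i, |inc W u i| ≤ M)
    (hγ : ∀ i i', i ≠ i' → |∑ j, W i j * W i' j| ≤ γ) {F : (I → Bool) → ℝ} (hF : ∀ a, |F a| ≤ 1)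
    {v : I → ℝ} (hv : ∀ i, |v i| ≤ 1 / 2) :
    |St W δ (ml F) v - ml F v| ≤ δ ^ 2 * γ * lv 2 F v +
      δ ^ 3 * (2 ^ Fintype.card I * M ^ Fintype.card I) := by
  have hv1 : ∀ i, |v i| ≤ 1 := fun i => (hv i).trans (by norm_num)
  rw [St_in hv]
  have e1 : (fun u : J → Bool => ml F (fun i => v i + δ * inc W u i)) =
      fun u => ∑ S ∈ (univ : Finset I).powerset, (∏ i ∈ S, (δ * inc W u i)) * dS S F v := by
    funext u
    exact ml_add F v (fun i => δ * inc W u i)
  rw [e1, Eu_sum]
  have e2 : ml F v = ∑ S ∈ (univ : Finset I).powerset, (if S = ∅ then 1 else 0) * dS S F v := by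
    rw [sum_eq_single (∅ : Finset I)]
    · rw [if_pos rfl, one_mul]; rfl
    · intro S _ hS
      rw [if_neg hS, zero_mul]
    · intro h
      exact absurd (empty_mem_powerset _) h
  rw [e2, ← sum_sub_distrib]
  refine (abs_sum_le_sum_abs _ _).trans ?_
  have key : ∀ S ∈ (univ : Finset I).powerset,
      |Eu (fun u => (∏ i ∈ S, (δ * inc W u i)) * dS S F v) - (if S = ∅ then 1 else 0) * dS S F v| ≤
      (if S.card = 2 then δ ^ 2 * γ * |dS S F v| else 0) + δ ^ 3 * M ^ Fintype.card I := by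
    intro S _
    rw [Eu_smul', ← sub_mul, abs_mul]
    have hd := abs_dS_le hF hv1 S
    have hM0 : (0 : ℝ) ≤ δ ^ 3 * M ^ Fintype.card I := by positivity
    rcases Nat.lt_or_ge S.card 3 with hc | hc
    · interval_cases hS : S.card
      · rw [card_eq_zero] at hS
        subst hS
        simp only [prod_empty, Eu_const, if_true, sub_self, abs_zero, zero_mul]
        simp
        exact hM0
      · obtain ⟨i, rfl⟩ := card_eq_one.1 hS
        simp only [prod_singleton, singleton_ne_empty, if_false, sub_zero]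
        rw [Eu_smul, Eu_inc, mul_zero, abs_zero, zero_mul]
        simp
        exact hM0
      · obtain ⟨i, i', hne, rfl⟩ := card_eq_two.1 hS
        rw [if_neg (insert_ne_empty _ _), sub_zero, if_pos rfl]
        have e3 : (fun u : J → Bool => ∏ l ∈ ({i, i'} : Finset I), (δ * inc W u l)) =
            fun u => δ ^ 2 * (inc W u i * inc W u i') := by
          funext u
          rw [prod_pair hne]
          ring
        rw [e3, Eu_smul, Eu_inc2, abs_mul, abs_of_nonneg (pow_nonneg h0 2)]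
        have h3 := hγ i i' hne
        have h4 : δ ^ 2 * |∑ j, W i j * W i' j| * |dS {i, i'} F v| ≤ δ ^ 2 * γ * |dS {i, i'} F v| :=
          mul_le_mul_of_nonneg_right (mul_le_mul_of_nonneg_left h3 (by positivity)) (abs_nonneg _)
        linarith
    · have hSe : S ≠ ∅ := by
        rintro rfl
        simp at hc
      rw [if_neg hSe, sub_zero, if_neg (by omega), zero_add]
      have h5 : |Eu (fun u => ∏ i ∈ S, (δ * inc W u i))| ≤ δ ^ 3 * M ^ Fintype.card I := by
        refine (Eu_abs _).trans ?_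
        refine (Eu_mono (H := fun _ => δ ^ 3 * M ^ Fintype.card I) fun u => ?_).trans
          (le_of_eq (Eu_const _))
        rw [abs_prod]
        have h6 : ∏ i ∈ S, |δ * inc W u i| ≤ ∏ i ∈ S, (δ * M) := by
          refine prod_le_prod (fun _ _ => abs_nonneg _) fun i _ => ?_
          rw [abs_mul, abs_of_nonneg h0]
          exact mul_le_mul_of_nonneg_left (hW u i) h0
        refine h6.trans ?_
        rw [prod_const, mul_pow]
        refine mul_le_mul ?_ ?_ (by positivity) (by positivity)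
        · exact pow_le_pow_of_le_one h0 h1 hc
        · exact pow_le_pow_right₀ hM (card_le_univ S)
      calc |Eu (fun u => ∏ i ∈ S, (δ * inc W u i))| * |dS S F v| ≤
          (δ ^ 3 * M ^ Fintype.card I) * 1 := mul_le_mul h5 hd (abs_nonneg _) hM0
        _ = _ := mul_one _
  refine (sum_le_sum key).trans ?_
  rw [sum_add_distrib, sum_const, card_powerset, card_univ, nsmul_eq_mul]
  refine add_le_add ?_ (le_of_eq (by push_cast; ring))
  unfold lv
  rw [mul_sum, ← sum_filter]
  refine le_of_eq (sum_congr ?_ fun _ _ => rfl)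
  ext S
  simp [mem_powersetCard]

/-- the distance to the multilinear extension at the origin -/
theorem Sn_ml {γ M : ℝ} (h0 : 0 ≤ δ) (h1 : δ ≤ 1) (hM : 1 ≤ M) (hW : ∀ u i, |inc W u i| ≤ M)
    (hs : Small W δ) (hγ0 : 0 ≤ γ)
    (hγ : ∀ i i', i ≠ i' → |∑ j, W i j * W i' j| ≤ γ) {F : (I → Bool) → ℝ} (hF : ∀ a, |F a| ≤ 1)
    {L : ℝ} (hL0 : 0 ≤ L) (hL : ∀ ρ : Restr I, lv 2 (fun a => F (ov ρ a)) 0 ≤ L) (T : ℕ) :
    |Sn W δ T (ml F) 0 - ml F 0| ≤ T * (δ ^ 2 * γ * (4 * L) +
      δ ^ 3 * (2 ^ Fintype.card I * M ^ Fintype.card I)) := by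
  refine Sn_tel hs (fun v hv => ?_) (by positivity) T
  refine (St_ml h0 h1 hM hW hγ hF hv).trans ?_
  have := mul_le_mul_of_nonneg_left (lv_box hL hv) (by positivity : (0 : ℝ) ≤ δ ^ 2 * γ)
  linarith

/-! ### The exit probability -/

/-- the potential -/
noncomputable def pot (lam : ℝ) (v : I → ℝ) : ℝ :=
  ∑ i, 2 * Real.exp (-lam / 2) * Real.cosh (lam * v i)

theorem pot_nonneg (lam : ℝ) (v : I → ℝ) : 0 ≤ pot lam v :=
  sum_nonneg fun i _ => by have := Real.cosh_pos (lam * v i); positivity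

theorem pot_out {lam : ℝ} (hl : 0 ≤ lam) {v : I → ℝ} (h : ¬ ∀ i, |v i| ≤ 1 / 2) :
    1 ≤ pot lam v := by
  push Not at h
  obtain ⟨i, hi⟩ := h
  have h1 : 1 ≤ 2 * Real.exp (-lam / 2) * Real.cosh (lam * v i) := by
    have h2 : Real.exp (lam / 2) / 2 ≤ Real.cosh (lam * v i) := by
      rw [← Real.cosh_abs, Real.cosh_eq]
      have h3 : lam / 2 ≤ |lam * v i| := by
        rw [abs_mul, abs_of_nonneg hl]
        have := mul_le_mul_of_nonneg_left hi.le hl
        linarith
      have h4 := Real.exp_le_exp.2 h3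
      have h5 := (Real.exp_pos (-|lam * v i|)).le
      linarith
    have h6 : 2 * Real.exp (-lam / 2) * (Real.exp (lam / 2) / 2) = 1 := by
      have : Real.exp (-lam / 2) * Real.exp (lam / 2) = 1 := by
        rw [← Real.exp_add]
        simp
        ring
      linarith
    have h7 := mul_le_mul_of_nonneg_left h2 (by positivity : (0 : ℝ) ≤ 2 * Real.exp (-lam / 2))
    linarith
  refine h1.trans ?_
  unfold pot
  exact single_le_sum (f := fun i => 2 * Real.exp (-lam / 2) * Real.cosh (lam * v i))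
    (fun i _ => by have := Real.cosh_pos (lam * v i); positivity) (mem_univ i)

theorem Eu_exp {i : I} (hrow : ∑ j, W i j ^ 2 = 1) (x : ℝ) :
    Eu (fun u => Real.exp (x * inc W u i)) ≤ Real.exp (x ^ 2 / 2) := by
  have h1 : (fun u : J → Bool => Real.exp (x * inc W u i)) =
      fun u => ∏ j, Real.exp (x * W i j * sg (u j)) := by
    funext u
    rw [← Real.exp_sum]
    congr 1
    unfold inc
    rw [mul_sum]
    exact sum_congr rfl fun j _ => by ring
  rw [h1, Eu_prod (fun j b => Real.exp (x * W i j * sg b))]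
  have h2 : ∏ j, ((Real.exp (x * W i j * sg true) + Real.exp (x * W i j * sg false)) / 2) ≤
      ∏ j, Real.exp ((x * W i j) ^ 2 / 2) := by
    refine prod_le_prod (fun j _ => by positivity) fun j _ => ?_
    have h3 := Real.cosh_le_exp_half_sq (x * W i j)
    rw [Real.cosh_eq] at h3
    refine le_trans (le_of_eq ?_) h3
    simp only [sg]
    norm_num
    ring
  refine h2.trans ?_
  rw [← Real.exp_sum]
  refine le_of_eq ?_
  congr 1
  have h4 : ∀ j, (x * W i j) ^ 2 / 2 = x ^ 2 / 2 * W i j ^ 2 := fun j => by ring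
  rw [sum_congr rfl fun j _ => h4 j, ← mul_sum, hrow, mul_one]

theorem St_pot (hrow : ∀ i, ∑ j, W i j ^ 2 = 1) (lam : ℝ) {v : I → ℝ} (hv : ∀ i, |v i| ≤ 1 / 2) :
    St W δ (pot lam) v ≤ Real.exp ((lam * δ) ^ 2 / 2) * pot lam v := by
  rw [St_in hv]
  unfold pot
  rw [Eu_sum, mul_sum]
  refine sum_le_sum fun i _ => ?_
  have h1 : (fun u : J → Bool => 2 * Real.exp (-lam / 2) * Real.cosh (lam * (v i + δ * inc W u i))) =
      fun u => (Real.exp (-lam / 2) * Real.exp (lam * v i)) * Real.exp ((lam * δ) * inc W u i) +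
        (Real.exp (-lam / 2) * Real.exp (-(lam * v i))) * Real.exp ((-(lam * δ)) * inc W u i) := by
    funext u
    rw [Real.cosh_eq]
    have h2 : Real.exp (lam * (v i + δ * inc W u i)) =
        Real.exp (lam * v i) * Real.exp ((lam * δ) * inc W u i) := by
      rw [← Real.exp_add]; congr 1; ring
    have h3 : Real.exp (-(lam * (v i + δ * inc W u i))) =
        Real.exp (-(lam * v i)) * Real.exp ((-(lam * δ)) * inc W u i) := by
      rw [← Real.exp_add]; congr 1; ring
    rw [h2, h3]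
    ring
  rw [h1, Eu_add, Eu_smul, Eu_smul, Real.cosh_eq]
  have h4 := Eu_exp (hrow i) (lam * δ)
  have h5 := Eu_exp (hrow i) (-(lam * δ))
  rw [neg_sq] at h5
  have h6 := mul_le_mul_of_nonneg_left h4
    (by positivity : (0 : ℝ) ≤ Real.exp (-lam / 2) * Real.exp (lam * v i))
  have h7 := mul_le_mul_of_nonneg_left h5
    (by positivity : (0 : ℝ) ≤ Real.exp (-lam / 2) * Real.exp (-(lam * v i)))
  refine (add_le_add h6 h7).trans (le_of_eq ?_)
  ring

open Classical in
/-- the exit probability -/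
theorem Sn_out (hs : Small W δ) (hrow : ∀ i, ∑ j, W i j ^ 2 = 1) {lam : ℝ} (hl : 0 ≤ lam) (T : ℕ) :
    Sn W δ T (fun v => if ∀ i, |v i| ≤ 1 / 2 then (0 : ℝ) else 1) 0 ≤
      Real.exp (T * ((lam * δ) ^ 2 / 2)) * (Fintype.card I * (2 * Real.exp (-lam / 2))) := by
  have h1 := Sn_mono hs T (g := fun v => if ∀ i, |v i| ≤ 1 / 2 then (0 : ℝ) else 1)
    (h := pot lam) (fun v _ => by
      by_cases hb : ∀ i, |v i| ≤ 1 / 2
      · simp only [if_pos hb]; exact pot_nonneg _ _
      · simp only [if_neg hb]; exact pot_out hl hb) 0 cube_zero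
  have h2 := Sn_grow hs (g := pot lam) (c := Real.exp ((lam * δ) ^ 2 / 2)) (pot_nonneg lam)
    (Real.one_le_exp (by positivity)) (fun v hv => St_pot hrow lam hv) T
  refine h1.trans (h2.trans (le_of_eq ?_))
  rw [← Real.exp_nat_mul]
  congr 1
  unfold pot
  simp

open Classical in
/-- a function with positive drift in the box -/
theorem Sn_drift (hs : Small W δ) {g : (I → ℝ) → ℝ} {c p : ℝ} (hc : 0 ≤ c)
    (h : ∀ v, (∀ i, |v i| ≤ 1 / 2) → g v + c ≤ St W δ g v) (T : ℕ)
    (hp : ∀ t < T, Sn W δ t (fun v => if ∀ i, |v i| ≤ 1 / 2 then (0 : ℝ) else 1) 0 ≤ p) :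
    g 0 + T * (c * (1 - p)) ≤ Sn W δ T g 0 := by
  induction T with
  | zero => simp [Sn]
  | succ T ih =>
    have h1 : ∀ v, Cube v → (g v + c) + (-c) * (if ∀ i, |v i| ≤ 1 / 2 then (0 : ℝ) else 1) ≤
        St W δ g v := by
      intro v _
      by_cases hb : ∀ i, |v i| ≤ 1 / 2
      · rw [if_pos hb, mul_zero, add_zero]
        exact h v hb
      · rw [if_neg hb, St_out hb]
        linarith
    have h2 := Sn_mono hs T h1 0 cube_zero
    rw [Sn_add T (fun v => g v + c), Sn_add T g (fun _ => c), Sn_const, Sn_smul] at h2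
    have h3 := hp T (Nat.lt_succ_self T)
    have h4 := ih fun t ht => hp t (by omega)
    have h5 : Sn W δ (T + 1) g 0 = Sn W δ T (St W δ g) 0 := rfl
    rw [h5]
    have h6 := mul_le_mul_of_nonneg_left h3 hc
    push_cast
    simp only at h2
    linarith

end Pool.Agent.H9x.RT
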