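import Pool.Agent.H9x.RT.Num

/-!
# One step of the construction
-/

set_option autoImplicit false

namespace Pool.Agent.H9x.RT

open Pool.Agent.NPC Pool.Agent.H622R2 Pool.Agent.H620R2.Gauge Pool.Agent.H622R2.Exp
  Pool.Agent.TH678.ETH Pool.Agent.TH678.SETH Pool.Agent.TH678.RS Finset H568R2 Pool.Agent.H676

/-- the forrelation of a content -/
noncomputable def FoC (c : List Bool → Bool) (l : ℕ) : ℝ :=
  Fo (Hm l) (two (fun v => c (false :: List.ofFn v)) (fun v => c (true :: List.ofFn v)))

theorem FoC_enc (l : ℕ) (z : (Fin l → Bool) ⊕ (Fin l → Bool) → Bool) :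
    FoC (enc l z) l = Fo (Hm l) z := by
  unfold FoC
  congr 1
  funext i
  rcases i with v | v
  · show enc l z (false :: List.ofFn v) = _
    rw [enc_ofFn]
    rfl
  · show enc l z (true :: List.ofFn v) = _
    rw [enc_ofFn]
    rfl

/-- large forrelation -/
def Yes (s : ℕ) (c : List Bool → Bool) : Prop := 1 / (64 * ((ll s : ℕ) : ℝ)) ≤ FoC c (ll s)

/-- small forrelation -/
def No (s : ℕ) (c : List Bool → Bool) : Prop := |FoC c (ll s)| ≤ 1 / (256 * ((ll s : ℕ) : ℝ))

theorem not_yes {s : ℕ} {c : List Bool → Bool} (h : No s c) : ¬ Yes s c := by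
  intro h2
  unfold No at h
  unfold Yes at h2
  have h3 := (abs_le.1 h).2
  have h4 : (0 : ℝ) < ((ll s : ℕ) : ℝ) := by unfold ll; positivity
  have h5 : 1 / (256 * ((ll s : ℕ) : ℝ)) < 1 / (64 * ((ll s : ℕ) : ℝ)) := by
    apply one_div_lt_one_div_of_lt (by positivity)
    linarith
  linarith

/-- the data are good -/
structure Good (S : ℕ → Polynomial ℕ) (D : Dat) : Prop where
  bl : ∀ c, Yes (lev S c) (D.bl c true) ∧ No (lev S c) (D.bl c false)
  fr : ∀ s, Yes s (D.fr s) ∨ No s (D.fr s)

variable {S N : ℕ → Polynomial ℕ} {b : ℕ → ℕ} {g : ℕ → SAlg × Polynomial ℕ}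
  {h : ℕ → Alg × Polynomial ℕ}

/-- the list of the blocks in the order of their levels -/
theorem exists_list (hS : ∀ e n, n + e + 1 ≤ (S e).eval n) (n T : ℕ) :
    ∃ C : List (ℕ × List Bool), C.Nodup ∧ (∀ c, c ∈ C ↔ n ≤ lev S c ∧ lev S c ≤ T) ∧
      C.Pairwise (fun a b => lev S a ≤ lev S b) ∧
      ∀ d : ℕ × List Bool → ℝ, (C.map d).sum = ∑ c ∈ UU S n T, d c := by
  refine ⟨(UU S n T).toList.mergeSort (fun a b => decide (lev S a ≤ lev S b)), ?_, ?_, ?_, ?_⟩
  · exact (List.mergeSort_perm _ _).nodup_iff.2 (nodup_toList _)
  · intro c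
    rw [(List.mergeSort_perm _ _).mem_iff, mem_toList, mem_UU hS]
  · have h1 := List.pairwise_mergeSort (le := fun a b : ℕ × List Bool => decide (lev S a ≤ lev S b))
      (fun a b c => by simp only [decide_eq_true_eq]; exact le_trans)
      (fun a b => by simp only [Bool.or_eq_true, decide_eq_true_eq]; exact le_total _ _)
      (UU S n T).toList
    exact h1.imp fun h => by simpa using h
  · intro d
    rw [((List.mergeSort_perm _ _).map d).sum_eq, sum_map_toList]

/-- the two contents of one block -/
theorem block_diff {Z : Type*} [Fintype Z] {P Q : Z → ℝ} (hP1 : ∑ z, P z = 1)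
    (hQ1 : ∑ z, Q z = 1) {φ : Z → Z → ℝ} {H : Z → ℝ} {t : Bool} {δ : ℝ} (hδ : 0 ≤ δ)
    (hφ : ∀ z z', φ z z' = H (if t then z else z')) (hφ' : ∀ z, φ z z = H z)
    (hH : |∑ z, P z * H z - ∑ z, Q z * H z| ≤ δ) :
    |∑ z, ∑ z', P z * (Q z' * φ z z') - ∑ z', Q z' * φ z' z'| ≤ δ := by
  have h2 : ∑ z', Q z' * φ z' z' = ∑ z', Q z' * H z' := sum_congr rfl fun z _ => by rw [hφ']
  rw [h2]
  cases t with
  | true =>
    have h1 : ∑ z, ∑ z', P z * (Q z' * φ z z') = ∑ z, P z * H z := by
      refine sum_congr rfl fun z _ => ?_
      rw [← mul_sum]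
      congr 1
      rw [sum_congr rfl fun z' _ => by rw [hφ, if_pos rfl], ← sum_mul, hQ1, one_mul]
    rw [h1]
    exact hH
  | false =>
    have h1 : ∑ z, ∑ z', P z * (Q z' * φ z z') = ∑ z', Q z' * H z' := by
      have h3 : ∀ z, ∑ z', P z * (Q z' * φ z z') = P z * ∑ z', Q z' * H z' := by
        intro z
        rw [mul_sum]
        exact sum_congr rfl fun z' _ => by rw [hφ, if_neg (by simp)]
      rw [sum_congr rfl fun z _ => h3 z, ← sum_mul, hP1, one_mul]
    rw [h1, sub_self, abs_zero]
    exact hδ

theorem one_step (hc : Kq g h S N) {n T J : ℕ} (M : Alg) (hn : 1 ≤ n) (hnT : n ≤ T)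
    (hJ : T ≤ n ^ 2 ^ J)
    (hgap : ∀ s', n ≤ s' → T < s' ^ (b s' + 1)) (hr : M.p.eval n ≤ T)
    (hcut : ∀ A : Oracle, M.out (CC.cut T A) (List.replicate n false) =
      M.out A (List.replicate n false))
    (hnum : 535 * (T + 1) * LL J T < 2 ^ n) (D : Dat) (hD : Good S D) :
    ∃ D' : Dat, Good S D' ∧ (∀ c, lev S c < n → D'.bl c = D.bl c) ∧
      (∀ s < n, D'.fr s = D.fr s) ∧
      ¬ (Yes n (D'.fr n) ↔ M.out (orc S N b g h D') (List.replicate n false) = some [true]) := by
  classical
  by_contra hcon
  push Not at hcon
  set x := List.replicate n false with hx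
  have hxl : x.length = n := by simp [hx]
  choose P Q hP0 hP1 hPG hQ0 hQ1 hQG hPQ using fun s : ℕ =>
    exists_dist (l := ll s) (by unfold ll; omega)
  obtain ⟨C, hCn, hCm, hCp, hCs⟩ := exists_list hc.big n T
  set out : Dat → Bool := fun D => decide (M.out (orc S N b g h D) x = some [true]) with hout
  set frn : ((Fin (ll n) → Bool) ⊕ (Fin (ll n) → Bool) → Bool) → ℕ → List Bool → Bool :=
    fun y => Function.update D.fr n (enc (ll n) y) with hfrn
  set φ : ((Fin (ll n) → Bool) ⊕ (Fin (ll n) → Bool) → Bool) →
    (ℕ × List Bool → Bool → List Bool → Bool) → ℝ :=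
    fun y B => if out ⟨B, frn y⟩ then 1 else 0 with hφ
  set F : (ℕ × List Bool → Bool → List Bool → Bool) → ℝ := fun B =>
    ∑ y, P n y * φ y B - ∑ y, Q n y * φ y B with hF
  set L : ℝ := (LL J T : ℝ) with hL
  have hT1 : 1 ≤ T := hn.trans hnT
  have hL1 : 1 ≤ L := by rw [hL]; exact_mod_cast one_le_LL hT1
  have hdel : ∀ s, 0 ≤ del (ll s) L := fun s => by
    unfold del
    have := sqrt2_pos
    positivity
  -- the hybrid argument
  have hhyb := hyb (P := fun c => P (lev S c)) (Q := fun c => Q (lev S c))
    (enc := fun c => enc (ll (lev S c))) (fun c => hP0 _) (fun c => hP1 _) (fun c => hQ0 _)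
    (fun c => hQ1 _) F (fun c => 2 * del (ll (lev S c)) L) C hCn (by
      intro c C₂ hsuf D' hcol
      have hcC : c ∈ C := hsuf.subset List.mem_cons_self
      obtain ⟨hc1, hc2⟩ := (hCm c).1 hcC
      have hafter : ∀ c', lev S c < lev S c' → lev S c' ≤ T → c' ∈ C₂ := by
        intro c' h1 h2
        have h3 : c' ∈ C := (hCm c').2 ⟨by omega, h2⟩
        obtain ⟨C₁, hC₁⟩ := hsuf
        rw [← hC₁, List.mem_append] at h3
        rw [← hC₁, List.pairwise_append] at hCp
        rcases h3 with h3 | h3
        · have := hCp.2.2 c' h3 c List.mem_cons_self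
          omega
        · rcases List.mem_cons.1 h3 with h3 | h3
          · subst h3
            exact absurd h1 (lt_irrefl _)
          · exact h3
      have claim : ∀ y, |∑ z, ∑ z', P (lev S c) z * (Q (lev S c) z' *
          φ y (Function.update D' c (mkp (enc (ll (lev S c)) z) (enc (ll (lev S c)) z')))) -
          ∑ z', Q (lev S c) z' * φ y (Function.update D' c (mkp (enc (ll (lev S c)) z')
            (enc (ll (lev S c)) z')))| ≤ del (ll (lev S c)) L := by
        intro y
        obtain ⟨t, ht⟩ := orc_sel (N := N) (b := b) (g := g) (h := h) hc.big D' (frn y) c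
        set hh : ((Fin (ll (lev S c)) → Bool) ⊕ (Fin (ll (lev S c)) → Bool) → Bool) → Bool :=
          fun z => out ⟨Function.update D' c (mkp (enc (ll (lev S c)) z)
            (enc (ll (lev S c)) z)), frn y⟩ with hhh
        refine block_diff (hP1 _) (hQ1 _) (H := br hh) (t := t) (hdel _) (fun z z' => ?_)
          (fun z => rfl) ?_
        · show (if out ⟨_, frn y⟩ then (1 : ℝ) else 0) = if hh _ then 1 else 0
          have h1 : out ⟨Function.update D' c (mkp (enc (ll (lev S c)) z)
              (enc (ll (lev S c)) z')), frn y⟩ = hh (if t then z else z') := by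
            rw [hhh, hout]
            simp only
            rw [ht]
            cases t <;> rfl
          rw [h1]
        · refine hPQ _ hh L hL1 fun ρ => ?_
          refine Fam.lv_le (F := fun z => ⟨Function.update D' c (mkp (enc (ll (lev S c)) z)
            (enc (ll (lev S c)) z)), frn y⟩) (b := b) hc ?_ (fun s' hs' => hgap s' (by omega)) hT1
            hc2 ?_ (M := M) (x := x) (by rw [hxl]; exact hr) hcut (f := hh) (fun z => ?_) ρ
          · refine ⟨fun c' h1 z z' => ?_, fun s' _ z z' => rfl, fun c' h1 h2 => ?_,
              fun s' _ => Or.inl fun z z' => rfl⟩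
            · have hne : c' ≠ c := by rintro rfl; exact absurd h1 (lt_irrefl _)
              show Function.update D' c _ c' = Function.update D' c _ c'
              rw [Function.update_of_ne hne, Function.update_of_ne hne]
            · by_cases hne : c' = c
              · right
                intro z t
                subst hne
                show Function.update D' c' _ c' t = _
                rw [Function.update_self]
                cases t <;> rfl
              · left
                refine ⟨fun z z' => ?_, ?_⟩
                · show Function.update D' c _ c' = Function.update D' c _ c'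
                  rw [Function.update_of_ne hne, Function.update_of_ne hne]
                · rcases h1.eq_or_lt with h3 | h3
                  · exact Or.inl h3.symm
                  · right
                    intro z
                    show Function.update D' c _ c' true = Function.update D' c _ c' false
                    rw [Function.update_of_ne hne]
                    exact hcol c' (hafter c' h3 h2)
          · exact hJ.trans (Nat.pow_le_pow_left hc1 _)
          · rw [hhh, hout]
            simp only [decide_eq_true_eq]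
      -- combine
      set X : ((ℕ × List Bool → Bool → List Bool → Bool) → ℝ) → ℝ := fun G =>
        ∑ z, ∑ z', P (lev S c) z * (Q (lev S c) z' *
          G (Function.update D' c (mkp (enc (ll (lev S c)) z) (enc (ll (lev S c)) z')))) -
          ∑ z', Q (lev S c) z' * G (Function.update D' c (mkp (enc (ll (lev S c)) z')
            (enc (ll (lev S c)) z'))) with hX
      have hlin : ∀ w : ((Fin (ll n) → Bool) ⊕ (Fin (ll n) → Bool) → Bool) → ℝ,
          X (fun B => ∑ y, w y * φ y B) = ∑ y, w y * X (φ y) := by
        intro w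
        rw [hX]
        simp only [mul_sub, mul_sum, sum_sub_distrib]
        congr 1
        · rw [sum_congr rfl fun z _ => sum_comm, sum_comm]
          exact sum_congr rfl fun y _ => sum_congr rfl fun z _ => sum_congr rfl fun z' _ => by ring
        · rw [sum_comm]
          exact sum_congr rfl fun y _ => sum_congr rfl fun z' _ => by ring
      have hsub : X F = X (fun B => ∑ y, P n y * φ y B) - X (fun B => ∑ y, Q n y * φ y B) := by
        rw [hX, hF]
        simp only [mul_sub, sum_sub_distrib]
        ring
      have hbd : ∀ w : ((Fin (ll n) → Bool) ⊕ (Fin (ll n) → Bool) → Bool) → ℝ, (∀ y, 0 ≤ w y) →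
          ∑ y, w y = 1 → |∑ y, w y * X (φ y)| ≤ del (ll (lev S c)) L := by
        intro w hw hw1
        refine (abs_sum_le_sum_abs _ _).trans ?_
        have h1 : ∀ y, |w y * X (φ y)| ≤ w y * del (ll (lev S c)) L := fun y => by
          rw [abs_mul, abs_of_nonneg (hw y)]
          exact mul_le_mul_of_nonneg_left (claim y) (hw y)
        refine (sum_le_sum fun y _ => h1 y).trans ?_
        rw [← sum_mul, hw1, one_mul]
      show |X F| ≤ _
      rw [hsub, hlin, hlin]
      have h1 := abs_le.1 (hbd (P n) (hP0 n) (hP1 n))
      have h2 := abs_le.1 (hbd (Q n) (hQ0 n) (hQ1 n))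
      rw [abs_le]
      constructor <;> linarith [h1.1, h1.2, h2.1, h2.2]) D.bl
  -- the support
  have hEE : EE (fun c => P (lev S c)) (fun c => Q (lev S c)) (fun c => enc (ll (lev S c))) C F
      D.bl = 1 := by
    refine EE_eq (G := fun c v => Yes (lev S c) (v true) ∧ No (lev S c) (v false))
      (fun c => hP1 _) (fun c => hQ1 _) (fun c z z' hz hz' => ⟨?_, ?_⟩) C D.bl fun B hB hB' => ?_
    · show Yes _ (enc _ z)
      unfold Yes
      rw [FoC_enc]
      exact hPG _ z hz
    · show No _ (enc _ z')
      unfold No
      rw [FoC_enc]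
      exact hQG _ z' hz'
    · have hgood : ∀ y, (Yes n (enc (ll n) y) ∨ No n (enc (ll n) y)) →
          (Yes n (enc (ll n) y) ↔ out ⟨B, frn y⟩ = true) := by
        intro y hy
        have h1 := hcon ⟨B, frn y⟩ ⟨fun c => ?_, fun s => ?_⟩ (fun c hc' => ?_) (fun s hs => ?_)
        · have h2 : frn y n = enc (ll n) y := by rw [hfrn]; exact Function.update_self ..
          change Yes n (frn y n) ↔ _ at h1
          rw [h2] at h1
          rw [h1, hout]
          simp only [decide_eq_true_eq]
        · by_cases hcC : c ∈ C
          · exact hB c hcC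
          · show Yes _ (B c true) ∧ No _ (B c false)
            rw [hB' c hcC]
            exact hD.bl c
        · by_cases hs : s = n
          · subst hs
            have h2 : frn y s = enc (ll s) y := by rw [hfrn]; exact Function.update_self ..
            show Yes s (frn y s) ∨ No s (frn y s)
            rw [h2]
            exact hy
          · have h2 : frn y s = D.fr s := by rw [hfrn]; exact Function.update_of_ne hs ..
            show Yes s (frn y s) ∨ No s (frn y s)
            rw [h2]
            exact hD.fr s
        · exact hB' c fun h2 => by have := ((hCm c).1 h2).1; omega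
        · show frn y s = D.fr s
          rw [hfrn]
          exact Function.update_of_ne (by omega) ..
      have h1 : ∀ y, P n y * φ y B = P n y := by
        intro y
        by_cases hy : P n y = 0
        · rw [hy, zero_mul]
        · have h2 : Yes n (enc (ll n) y) := by
            unfold Yes
            rw [FoC_enc]
            exact hPG _ y hy
          have h3 := (hgood y (Or.inl h2)).1 h2
          rw [hφ]
          simp only [h3, if_true, mul_one]
      have h2 : ∀ y, Q n y * φ y B = 0 := by
        intro y
        by_cases hy : Q n y = 0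
        · rw [hy, zero_mul]
        · have h2 : No n (enc (ll n) y) := by
            unfold No
            rw [FoC_enc]
            exact hQG _ y hy
          have h3 : out ⟨B, frn y⟩ = false := by
            by_contra h4
            exact not_yes h2 ((hgood y (Or.inr h2)).2 (by simpa using h4))
          rw [hφ]
          simp only [h3, Bool.false_eq_true, if_false, mul_zero]
      rw [hF]
      simp only [h1, h2, hP1, sum_const_zero, sub_zero]
  -- the free block
  have hEC : |EC (fun c => Q (lev S c)) (fun c => enc (ll (lev S c))) C F D.bl| ≤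
      del (ll n) L := by
    refine EC_le (fun c => hQ0 _) (fun c => hQ1 _) C D.bl fun B hB _ => ?_
    show |∑ y, P n y * φ y B - ∑ y, Q n y * φ y B| ≤ _
    refine hPQ n (fun y => out ⟨B, frn y⟩) L hL1 fun ρ => ?_
    refine Fam.lv_le (F := fun y => ⟨B, frn y⟩) (b := b) hc ?_ hgap hT1 hnT hJ (M := M) (x := x)
      (by rw [hxl]; exact hr) hcut (f := fun y => out ⟨B, frn y⟩) (fun y => ?_) ρ
    · refine ⟨fun c' _ z z' => rfl, fun s' hs' z z' => ?_, fun c' h1 h2 => ?_, fun s' hs' => ?_⟩
      · show frn z s' = frn z' s'
        have hne : s' ≠ n := by omega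
        rw [hfrn]
        show Function.update D.fr n _ s' = Function.update D.fr n _ s'
        rw [Function.update_of_ne hne, Function.update_of_ne hne]
      · left
        exact ⟨fun z z' => rfl, Or.inr fun z => hB c' ((hCm c').2 ⟨h1, h2⟩)⟩
      · by_cases hs : s' = n
        · right
          intro z
          subst hs
          show frn z s' = _
          rw [hfrn]
          exact Function.update_self ..
        · left
          intro z z'
          show frn z s' = frn z' s'
          rw [hfrn]
          show Function.update D.fr n _ s' = Function.update D.fr n _ s'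
          rw [Function.update_of_ne hs, Function.update_of_ne hs]
    · rw [hout]
      simp only [decide_eq_true_eq]
  -- the contradiction
  rw [hEE, hCs, ← mul_sum] at hhyb
  have h1 := sum_del_le hc.big n T (by linarith : (0 : ℝ) ≤ L)
  have h2 := del_le n (by linarith : (0 : ℝ) ≤ L)
  have h3 := abs_le.1 hhyb
  have h4 := abs_le.1 hEC
  have h5 : 107 * L / 8 ^ n ≤ 107 * L / 2 ^ n :=
    div_le_div_of_nonneg_left (by linarith) (by positivity)
      (pow_le_pow_left₀ (by norm_num) (by norm_num) n)
  have h6 : 535 * ((T : ℝ) + 1) * L < 2 ^ n := by rw [hL]; exact_mod_cast hnum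
  have h7 : 2 * (((T : ℝ) + 1) * (214 * L / 2 ^ n)) + 107 * L / 2 ^ n < 1 := by
    have h8 : 2 * (((T : ℝ) + 1) * (214 * L / 2 ^ n)) + 107 * L / 2 ^ n =
        (428 * (T + 1) * L + 107 * L) / 2 ^ n := by ring
    rw [h8, div_lt_one (by positivity)]
    have h9 : (0 : ℝ) ≤ T * L := by positivity
    nlinarith
  linarith [h3.1, h3.2, h4.1, h4.2]

end Pool.Agent.H9x.RT
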