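import Pool.Agent.H9x.RT.Ml

/-!
# The stopped random walk
-/

set_option autoImplicit false
set_option linter.unusedSectionVars false

namespace Pool.Agent.H9x.RT

open Finset H568R2

variable {I J : Type*} [Fintype I] [DecidableEq I] [Fintype J] [DecidableEq J]

/-- the average over the signs -/
noncomputable def Eu (G : (J → Bool) → ℝ) : ℝ := (∑ u, G u) / 2 ^ Fintype.card J

theorem Eu_mono {G H : (J → Bool) → ℝ} (h : ∀ u, G u ≤ H u) : Eu G ≤ Eu H := by
  unfold Eu
  exact div_le_div_of_nonneg_right (sum_le_sum fun u _ => h u) (by positivity)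

theorem Eu_const (c : ℝ) : Eu (fun _ : J → Bool => c) = c := by
  unfold Eu
  rw [sum_const, card_univ, Fintype.card_fun, Fintype.card_bool, nsmul_eq_mul]
  push_cast
  field_simp

theorem Eu_add (G H : (J → Bool) → ℝ) : Eu (fun u => G u + H u) = Eu G + Eu H := by
  unfold Eu
  rw [sum_add_distrib]
  ring

theorem Eu_sub (G H : (J → Bool) → ℝ) : Eu (fun u => G u - H u) = Eu G - Eu H := by
  unfold Eu
  rw [sum_sub_distrib]
  ring

theorem Eu_smul (c : ℝ) (G : (J → Bool) → ℝ) : Eu (fun u => c * G u) = c * Eu G := by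
  unfold Eu
  rw [← mul_sum]
  ring

theorem Eu_smul' (c : ℝ) (G : (J → Bool) → ℝ) : Eu (fun u => G u * c) = Eu G * c := by
  unfold Eu
  rw [← sum_mul]
  ring

theorem Eu_sum {κ : Type*} (s : Finset κ) (G : κ → (J → Bool) → ℝ) :
    Eu (fun u => ∑ k ∈ s, G k u) = ∑ k ∈ s, Eu (G k) := by
  unfold Eu
  rw [sum_comm, sum_div]

theorem Eu_abs (G : (J → Bool) → ℝ) : |Eu G| ≤ Eu fun u => |G u| := by
  unfold Eu
  rw [abs_div, abs_of_nonneg (by positivity : (0 : ℝ) ≤ 2 ^ Fintype.card J)]
  exact div_le_div_of_nonneg_right (abs_sum_le_sum_abs _ _) (by positivity)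

theorem Eu_prod (k : J → Bool → ℝ) :
    Eu (fun u => ∏ j, k j (u j)) = ∏ j, ((k j true + k j false) / 2) := by
  unfold Eu
  rw [sum_prod, prod_div_distrib, prod_const, card_univ]
  congr 1
  exact prod_congr rfl fun j _ => Fintype.sum_bool _

/-- the average of a product of signs -/
theorem Eu_sg (i j : J) : Eu (fun u => sg (u i) * sg (u j)) = if i = j then 1 else 0 := by
  have h1 : ∀ u : J → Bool, sg (u i) * sg (u j) = ∏ l, ((if l = i then sg (u l) else 1) *
      (if l = j then sg (u l) else 1)) := by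
    intro u
    rw [prod_mul_distrib]
    simp
  simp only [h1]
  rw [Eu_prod (fun l b => (if l = i then sg b else 1) * (if l = j then sg b else 1))]
  split_ifs with h
  · subst h
    refine prod_eq_one fun l _ => ?_
    split_ifs <;> simp [sg]
  · refine prod_eq_zero (mem_univ i) ?_
    simp [h, sg]

theorem Eu_sg1 (i : J) : Eu (fun u => sg (u i)) = 0 := by
  have h1 : ∀ u : J → Bool, sg (u i) = ∏ l, (if l = i then sg (u l) else 1) := by
    intro u
    simp
  simp only [h1]
  rw [Eu_prod (fun l b => (if l = i then sg b else 1))]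
  refine prod_eq_zero (mem_univ i) ?_
  simp [sg]

/-- the increments -/
noncomputable def inc (W : I → J → ℝ) (u : J → Bool) (i : I) : ℝ := ∑ j, W i j * sg (u j)

theorem Eu_inc (W : I → J → ℝ) (i : I) : Eu (fun u => inc W u i) = 0 := by
  unfold inc
  rw [Eu_sum]
  refine sum_eq_zero fun j _ => ?_
  rw [Eu_smul, Eu_sg1, mul_zero]

theorem Eu_inc2 (W : I → J → ℝ) (i i' : I) :
    Eu (fun u => inc W u i * inc W u i') = ∑ j, W i j * W i' j := by
  unfold inc
  simp only [sum_mul_sum]
  rw [Eu_sum]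
  refine sum_congr rfl fun j _ => ?_
  rw [Eu_sum]
  have h1 : ∀ j', Eu (fun u => W i j * sg (u j) * (W i' j' * sg (u j'))) =
      if j = j' then W i j * W i' j else 0 := by
    intro j'
    have h2 : (fun u : J → Bool => W i j * sg (u j) * (W i' j' * sg (u j'))) =
        fun u => (W i j * W i' j') * (sg (u j) * sg (u j')) := by funext u; ring
    rw [h2, Eu_smul, Eu_sg]
    split_ifs with h
    · rw [h, mul_one]
    · rw [mul_zero]
  rw [sum_congr rfl fun j' _ => h1 j', sum_ite_eq univ j]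
  simp

open Classical in
/-- one step of the walk, stopped outside the box -/
noncomputable def St (W : I → J → ℝ) (δ : ℝ) (g : (I → ℝ) → ℝ) (v : I → ℝ) : ℝ :=
  if ∀ i, |v i| ≤ 1 / 2 then Eu (fun u => g (fun i => v i + δ * inc W u i)) else g v

/-- the cube -/
def Cube (v : I → ℝ) : Prop := ∀ i, |v i| ≤ 1

variable {W : I → J → ℝ} {δ : ℝ}

theorem St_in {g : (I → ℝ) → ℝ} {v : I → ℝ} (h : ∀ i, |v i| ≤ 1 / 2) :
    St W δ g v = Eu (fun u => g (fun i => v i + δ * inc W u i)) := by
  unfold St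
  rw [if_pos h]

theorem St_out {g : (I → ℝ) → ℝ} {v : I → ℝ} (h : ¬ ∀ i, |v i| ≤ 1 / 2) :
    St W δ g v = g v := by
  unfold St
  rw [if_neg h]

/-- the steps are small -/
def Small (W : I → J → ℝ) (δ : ℝ) : Prop := ∀ (u : J → Bool) (i : I), |δ * inc W u i| ≤ 1 / 2

theorem Small.cube (hs : Small W δ) {v : I → ℝ} (h : ∀ i, |v i| ≤ 1 / 2) (u : J → Bool) :
    Cube (fun i => v i + δ * inc W u i) := by
  intro i
  have h1 := h i
  have h2 := hs u i
  have h3 := abs_add_le (v i) (δ * inc W u i)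
  linarith

theorem St_mono (hs : Small W δ) {g h : (I → ℝ) → ℝ} (hgh : ∀ v, Cube v → g v ≤ h v)
    (v : I → ℝ) (hv : Cube v) : St W δ g v ≤ St W δ h v := by
  by_cases hb : ∀ i, |v i| ≤ 1 / 2
  · rw [St_in hb, St_in hb]
    exact Eu_mono fun u => hgh _ (hs.cube hb u)
  · rw [St_out hb, St_out hb]
    exact hgh v hv

theorem St_const (c : ℝ) : St W δ (fun _ => c) = fun _ => c := by
  funext v
  by_cases hb : ∀ i, |v i| ≤ 1 / 2
  · rw [St_in hb, Eu_const]
  · rw [St_out hb]

theorem St_add (g h : (I → ℝ) → ℝ) :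
    St W δ (fun v => g v + h v) = fun v => St W δ g v + St W δ h v := by
  funext v
  by_cases hb : ∀ i, |v i| ≤ 1 / 2
  · rw [St_in hb, St_in hb, St_in hb, Eu_add]
  · rw [St_out hb, St_out hb, St_out hb]

theorem St_smul (c : ℝ) (g : (I → ℝ) → ℝ) :
    St W δ (fun v => c * g v) = fun v => c * St W δ g v := by
  funext v
  by_cases hb : ∀ i, |v i| ≤ 1 / 2
  · rw [St_in hb, St_in hb, Eu_smul]
  · rw [St_out hb, St_out hb]

/-- `T` steps -/
noncomputable def Sn (W : I → J → ℝ) (δ : ℝ) : ℕ → ((I → ℝ) → ℝ) → (I → ℝ) → ℝ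
  | 0, g => g
  | T + 1, g => Sn W δ T (St W δ g)

theorem Sn_mono (hs : Small W δ) : ∀ (T : ℕ) {g h : (I → ℝ) → ℝ}, (∀ v, Cube v → g v ≤ h v) →
    ∀ v, Cube v → Sn W δ T g v ≤ Sn W δ T h v := by
  intro T
  induction T with
  | zero => intro g h hgh v hv; exact hgh v hv
  | succ T ih => intro g h hgh v hv; exact ih (St_mono hs hgh) v hv

theorem Sn_const (c : ℝ) : ∀ T : ℕ, Sn W δ T (fun _ => c) = fun _ => c := by
  intro T
  induction T with
  | zero => rfl
  | succ T ih =>
    show Sn W δ T (St W δ fun _ => c) = _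
    rw [St_const, ih]

theorem Sn_add : ∀ (T : ℕ) (g h : (I → ℝ) → ℝ),
    Sn W δ T (fun v => g v + h v) = fun v => Sn W δ T g v + Sn W δ T h v := by
  intro T
  induction T with
  | zero => intro g h; rfl
  | succ T ih =>
    intro g h
    show Sn W δ T (St W δ fun v => g v + h v) = _
    rw [St_add, ih]
    rfl

theorem Sn_smul : ∀ (T : ℕ) (c : ℝ) (g : (I → ℝ) → ℝ),
    Sn W δ T (fun v => c * g v) = fun v => c * Sn W δ T g v := by
  intro T
  induction T with
  | zero => intro c g; rfl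
  | succ T ih =>
    intro c g
    show Sn W δ T (St W δ fun v => c * g v) = _
    rw [St_smul, ih]
    rfl

theorem cube_zero : Cube (0 : I → ℝ) := fun i => by simp

/-- telescoping -/
theorem Sn_tel (hs : Small W δ) {g : (I → ℝ) → ℝ} {c : ℝ}
    (h : ∀ v, (∀ i, |v i| ≤ 1 / 2) → |St W δ g v - g v| ≤ c) (hc : 0 ≤ c) (T : ℕ) :
    |Sn W δ T g 0 - g 0| ≤ T * c := by
  induction T with
  | zero => simp [Sn]
  | succ T ih =>
    have h1 : ∀ v, Cube v → St W δ g v ≤ g v + c := by
      intro v hv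
      by_cases hb : ∀ i, |v i| ≤ 1 / 2
      · have := (abs_le.1 (h v hb)).2
        linarith
      · rw [St_out hb]; linarith
    have h2 : ∀ v, Cube v → g v ≤ St W δ g v + c := by
      intro v hv
      by_cases hb : ∀ i, |v i| ≤ 1 / 2
      · have := (abs_le.1 (h v hb)).1
        linarith
      · rw [St_out hb]; linarith
    have h3 := Sn_mono hs T h1 0 cube_zero
    have h4 := Sn_mono hs T h2 0 cube_zero
    rw [Sn_add T g (fun _ => c), Sn_const] at h3
    rw [Sn_add T (St W δ g) (fun _ => c), Sn_const] at h4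
    have h5 : Sn W δ (T + 1) g 0 = Sn W δ T (St W δ g) 0 := rfl
    have h6 := abs_le.1 ih
    rw [h5, abs_le]
    push_cast
    constructor <;> linarith [h6.1, h6.2]

/-- a function which is multiplied by at most `c` in every step -/
theorem Sn_grow (hs : Small W δ) {g : (I → ℝ) → ℝ} {c : ℝ} (hg : ∀ v, 0 ≤ g v) (hc : 1 ≤ c)
    (h : ∀ v, (∀ i, |v i| ≤ 1 / 2) → St W δ g v ≤ c * g v) (T : ℕ) :
    Sn W δ T g 0 ≤ c ^ T * g 0 := by
  induction T with
  | zero => simp [Sn]
  | succ T ih =>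
    have h1 : ∀ v, Cube v → St W δ g v ≤ c * g v := by
      intro v hv
      by_cases hb : ∀ i, |v i| ≤ 1 / 2
      · exact h v hb
      · rw [St_out hb]
        have := mul_le_mul_of_nonneg_right hc (hg v)
        linarith
    have h3 := Sn_mono hs T h1 0 cube_zero
    rw [Sn_smul T c g] at h3
    have h5 : Sn W δ (T + 1) g 0 = Sn W δ T (St W δ g) 0 := rfl
    rw [h5]
    refine h3.trans ?_
    rw [pow_succ']
    have := mul_le_mul_of_nonneg_left ih (by linarith : (0 : ℝ) ≤ c)
    linarith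

end Pool.Agent.H9x.RT
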